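import Pool.Agent.K4H55.AB.Sum

/-!
Corrections for the sums with fixed characters.
-/

set_option autoImplicit false

namespace Pool.Agent.K4H55.AB

open Finset Pool.Agent.Y18.BSD Pool.Agent.Y18.LP

section main

variable {ι : Type} [Fintype ι] {N : ι → ℕ} {f : ι → ℚ → ℂ} {a : ι → ℕ → ℂ} {m : ι → ℕ}
  {h : (i : ι) → (ZMod (m i))ˣ →* ℂˣ}

/-- the admissible primes -/
def AdH (N : ι → ℕ) (a : ι → ℕ → ℂ) (m : ι → ℕ) (h : (i : ι) → (ZMod (m i))ˣ →* ℂˣ)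
    (lam : Ideal (integralClosure ℤ ℂ)) : Set ℕ :=
  {q | q.Prime ∧ ∀ i, ¬ q ∣ N i ∧ q.Coprime (m i) ∧
    ∀ x ∈ lam, (x : ℂ) ≠ a i q - ((hv (h i) q)⁻¹ : ℂˣ) - (hv (h i) q : ℂˣ)}

/-- the ring and the ideal -/
theorem setupH (hms : ∀ i, MS (N i) (f i) (a i)) (h0 : ∀ i, ∃ r, f i r ≠ 0) {l : ℕ}
    (hl : l.Prime) (n E0 : ℕ) (hE0 : 0 < E0) (hE : ∀ i u, h i u ^ E0 = 1)
    (lam : Ideal (integralClosure ℤ ℂ)) (hlam : lam.IsPrime)
    (hmem : (l : integralClosure ℤ ℂ) ∈ lam) :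
    ∃ (R : Subring ℂ) (_ : IsNoetherianRing R) (P : Ideal R) (al zh zi : ι → ℕ → R), P.IsMaximal ∧
      (∀ z : ℂ, z ^ (l ^ n * E0) = 1 → z ∈ R) ∧ (∀ z : R, (z : ℂ) ^ (l ^ n) = 1 → 1 - z ∈ P) ∧
      ∀ i, ∀ q ∈ AdH N a m h lam, q.Prime ∧ ¬ q ∣ N i ∧ q.Coprime (m i) ∧ (al i q : ℂ) = a i q ∧
        (zh i q : ℂ) = (hv (h i) q : ℂˣ) ∧ (zi i q : ℂ) = ((hv (h i) q)⁻¹ : ℂˣ) ∧
        al i q - zi i q - zh i q ∉ P := by
  classical
  choose r0 hr0 using h0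
  have he : 0 < l ^ n * E0 := Nat.mul_pos (pow_pos hl.pos n) hE0
  let W1 : Submodule ℤ ℂ := (∏ i, Submodule.span ℤ (Set.range (f i))) * Zr (l ^ n * E0)
  have hfg : W1.FG := (fg_prod univ _ fun i _ => (hms i).fin).mul (Zr_fg he)
  have hfin : Module.Finite ℤ W1 := Module.Finite.iff_fg.2 hfg
  have hw : (∏ i, f i (r0 i)) * 1 ∈ W1 := Submodule.mul_mem_mul
    (prod_mem' univ _ _ fun i _ => Submodule.subset_span ⟨r0 i, rfl⟩) (Zr_one _)
  have hw0 : (∏ i, f i (r0 i)) * 1 ≠ 0 := by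
    rw [mul_one]
    exact Finset.prod_ne_zero_iff.2 fun i _ => hr0 i
  let R : Subring ℂ := Mult W1
  have hRfin : Module.Finite ℤ R := finite_Mult hw hw0
  have hnoeth : IsNoetherianRing R := IsNoetherianRing.of_finite ℤ R
  have hRroot : ∀ z : ℂ, z ^ (l ^ n * E0) = 1 → z ∈ R := fun z hz => mul_Mult' (Zr_Mult hz)
  have haR : ∀ i, ∀ q : ℕ, q.Prime → ¬ q ∣ N i → a i q ∈ R := by
    intro i q hq hqN
    refine mul_Mult (prod_Mult univ _ (Finset.mem_univ i) ?_)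
    intro w hw
    induction hw using Submodule.span_induction with
    | mem x hx =>
      obtain ⟨r, rfl⟩ := hx
      rw [(hms i).hecke q hq hqN r]
      exact Submodule.add_mem _ (Submodule.subset_span ⟨_, rfl⟩)
        (Submodule.sum_mem _ fun u _ => Submodule.subset_span ⟨_, rfl⟩)
    | zero => rw [mul_zero]; exact Submodule.zero_mem _
    | add x y _ _ h1 h2 => rw [mul_add]; exact Submodule.add_mem _ h1 h2
    | smul c x _ h => rw [mul_smul_comm]; exact Submodule.smul_mem _ _ h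
  have hroot : ∀ z : ℂˣ, z ^ E0 = 1 → (z : ℂ) ∈ R := by
    intro z hz
    refine hRroot _ ?_
    have h1 : (z : ℂ) ^ E0 = 1 := by
      have := congrArg Units.val hz
      simpa using this
    rw [mul_comm, pow_mul, h1, one_pow]
  have hz : ∀ i q, ((hv (h i) q : ℂˣ) : ℂ) ∈ R := fun i q => hroot _ (hv_pow (hE i) q)
  have hz' : ∀ i q, (((hv (h i) q)⁻¹ : ℂˣ) : ℂ) ∈ R := fun i q => hroot _ (by
    rw [inv_pow, hv_pow (hE i) q, inv_one])
  let P : Ideal R := lam.comap (incl hRfin)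
  refine ⟨R, hnoeth, P, fun i q => if h : a i q ∈ R then ⟨a i q, h⟩ else 0,
    fun i q => ⟨_, hz i q⟩, fun i q => ⟨_, hz' i q⟩,
    comap_maximal lam hRfin hlam hl hmem, hRroot, ?_, ?_⟩
  · intro z hz
    rw [Ideal.mem_comap, map_sub, map_one]
    refine one_sub_mem lam hlam hl hmem (n := n) _ ?_
    apply Subtype.ext
    have h1 : ((incl hRfin z ^ (l ^ n) : integralClosure ℤ ℂ) : ℂ) =
        ((incl hRfin z : integralClosure ℤ ℂ) : ℂ) ^ (l ^ n) := rfl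
    rw [h1, incl_coe, hz]
    rfl
  · rintro i q ⟨hq, hqA⟩
    obtain ⟨h1, h2, h2'⟩ := hqA i
    have h3 := haR i q hq h1
    refine ⟨hq, h1, h2, ?_, rfl, rfl, ?_⟩
    · simp only [dif_pos h3]
    · simp only [dif_pos h3]
      intro h4
      rw [Ideal.mem_comap] at h4
      refine h2' _ h4 ?_
      rw [incl_coe]
      rfl

lemma exists_ne {f : ℚ → ℂ} {m : ℕ} {h : (ZMod m)ˣ →* ℂˣ} {c : Fam} (h0 : bth f h c ≠ 0) :
    ∃ r, f r ≠ 0 := by
  by_contra hcon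
  push Not at hcon
  apply h0
  unfold bth
  split_ifs with h1
  · unfold psh ps
    refine Finset.sum_eq_zero fun u _ => ?_
    unfold FF
    rw [hcon, mul_zero]
  · rfl

/-- **a small set of corrections** -/
theorem corrH (hms : ∀ i, MS (N i) (f i) (a i)) (hm : ∀ i, m i ≠ 0)
    (h0 : ∀ i, bth (f i) (h i) 1 ≠ 0) {l : ℕ} (hl : l.Prime)
    (n E0 : ℕ) (hE0 : 0 < E0) (hE : ∀ i u, h i u ^ E0 = 1)
    (lam : Ideal (integralClosure ℤ ℂ)) (hlam : lam.IsPrime)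
    (hmem : (l : integralClosure ℤ ℂ) ∈ lam) :
    ∃ V : ℕ, ∀ H : Subgroup Fam, Ok H (l ^ n) (AdH N a m h lam) →
      ∃ K : Finset Fam, K.card ≤ 2 ^ V ∧ (∀ k ∈ K, k ∈ H) ∧
        ∀ c ∈ H, ∃ k ∈ K, ∀ i, bth (f i) (h i) (c * k) ≠ 0 := by
  classical
  obtain ⟨R, hR0, P, al, zh, zi, hP, hR, hP1, hA⟩ := setupH (h := h) hms (fun i => exists_ne (h0 i)) hl n E0
    hE0 hE lam hlam hmem
  have hRe : ∀ z : ℂ, z ^ (l ^ n) = 1 → z ∈ R := fun z hz => hR z (by rw [pow_mul, hz, one_pow])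
  have hEE : ∀ i u, h i u ^ (l ^ n * E0) = 1 := fun i u => by
    rw [mul_comm, pow_mul, hE, one_pow]
  -- the value at the neutral element
  have hone : (1 : Fam) ^ (l ^ n * E0) = 1 := one_pow (M := Fam) _
  have hmem1 : ∀ i, bth (f i) (h i) 1 ∈ Submodule.span R (Set.range (f i)) := by
    intro i
    by_cases h1 : m i * dd (sp 1) = 0
    · exfalso
      apply h0 i
      unfold bth
      rw [dif_neg (fun h2 => h2 h1)]
    · have : NeZero (m i * dd (sp 1)) := ⟨h1⟩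
      rw [bth_eq (f i) (h i) 1 _ rfl]
      exact psh_mem hR (f i) (hEE i) hone _ _
  have hx : ∏ i, bth (f i) (h i) 1 ∈ ∏ i, Submodule.span R (Set.range (f i)) :=
    prod_mem' univ _ _ fun i _ => hmem1 i
  obtain ⟨V, hV⟩ := krull hP.ne_top (fg_prod univ _ fun i _ => span_fg (hms i).fin) hx
    (Finset.prod_ne_zero_iff.2 fun i _ => h0 i)
  refine ⟨V, fun H hH => ?_⟩
  have hg := Good.prod (Γ := H) (e := l ^ n) hP.isPrime univ
    (fun i => Submodule.span R (Set.range (f i))) (fun i (c : H) => bth (f i) (h i) c)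
    (fun i _ => goodH (hms i) (dvd_mul_right _ _) hR (hm i) (hEE i) (al i) (zh i) (zi i)
      hP.isPrime hP1 hH (hA i))
  obtain ⟨K, hK1, hK2⟩ := correction hRe hP hP1 hg (V := V) (by
    have : ∏ i, bth (f i) (h i) ((1 : H) : Fam) = ∏ i, bth (f i) (h i) 1 := rfl
    rw [this]
    exact hV)
  refine ⟨(K.map (fun c : H => (c : Fam))).toFinset, ?_, ?_, ?_⟩
  · exact (List.toFinset_card_le _).trans (by rwa [List.length_map])
  · intro k hk
    rw [List.mem_toFinset, List.mem_map] at hk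
    obtain ⟨c, _, rfl⟩ := hk
    exact c.2
  · intro c hc
    obtain ⟨k, hk, h1⟩ := hK2 ⟨c, hc⟩
    refine ⟨k, ?_, fun i => ?_⟩
    · rw [List.mem_toFinset, List.mem_map]
      exact ⟨k, hk, rfl⟩
    · exact Finset.prod_ne_zero_iff.1 h1 i (Finset.mem_univ i)

end main

end Pool.Agent.K4H55.AB
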