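import Pool.Agent.K4H55.AB.Den

/-!
The counting in the classes of discriminants.
-/

set_option autoImplicit false

open NumberField IsDedekindDomain Filter Topology
open scoped symmDiff

namespace Pool.Agent.K4H55.AB

open Pool.Agent.W569.FM Pool.Agent.Y142 Pool.Agent.W401.Cheb
open Pool.Agent.W263.BSD (GoodPrime)
open Pool.Agent Pool.Agent.Y18.BSD

lemma samepat {A : Set ℕ} (hA : ∀ q ∈ A, q.Prime ∧ q ≠ 2) {pos : Prop} {P : Finset ℕ}
    (hP : ∀ p ∈ P, p.Prime) {T T' : Finset ℕ} (hT : ∀ q ∈ T, q ∈ A \ (P : Set ℕ))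
    (hT' : ∀ q ∈ T', q ∈ A \ (P : Set ℕ))
    (h1 : ∀ p ∈ P, (jacobiSym p (dd T) = 1 ↔ jacobiSym p (dd T') = 1))
    (h2 : 0 < disc T ↔ 0 < disc T') : GT A pos P (T ∆ T') := by
  classical
  have hp : ∀ q ∈ T, q.Prime := fun q hq => (hA q (hT q hq).1).1
  have hp' : ∀ q ∈ T', q.Prime := fun q hq => (hA q (hT' q hq).1).1
  refine ⟨fun q hq => ?_, fun _ => ?_, fun p hp0 => ?_⟩
  · rcases Finset.mem_symmDiff.1 hq with h | h
    · exact (hT q h.1).1
    · exact (hT' q h.1).1
  · have e1 := disc_symm T T'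
    have n1 := disc_ne hp
    have n2 := disc_ne hp'
    have h3 : 0 < disc T * disc T' := by
      rcases lt_or_gt_of_ne n1 with h | h
      · have h4 : disc T' < 0 := by
          rcases lt_or_gt_of_ne n2 with h5 | h5
          · exact h5
          · exact absurd (h2.2 h5) (by omega)
        exact mul_pos_of_neg_of_neg h h4
      · exact mul_pos h (h2.1 h)
    rw [← e1] at h3
    exact pos_of_mul_pos_left h3 (sq_nonneg _)
  · have e1 := dd_symm T T'
    have n1 : NeZero (dd (T ∆ T')) := ⟨dd_ne_zero fun q hq => by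
      rcases Finset.mem_symmDiff.1 hq with h | h
      · exact hp q h.1
      · exact hp' q h.1⟩
    have n2 : NeZero (dd (T ∩ T')) := ⟨dd_ne_zero fun q hq => hp q (Finset.mem_inter.1 hq).1⟩
    have n2' : NeZero (dd (T ∩ T') ^ 2) := ⟨pow_ne_zero 2 n2.ne⟩
    have n3 : NeZero (dd T) := ⟨dd_ne_zero hp⟩
    have n4 : NeZero (dd T') := ⟨dd_ne_zero hp'⟩
    have hcop : ∀ S : Finset ℕ, (∀ q ∈ S, q ∈ A \ (P : Set ℕ)) → jacobiSym (p : ℤ) (dd S) = 1 ∨
        jacobiSym (p : ℤ) (dd S) = -1 := by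
      intro S hS
      apply jacobiSym.eq_one_or_neg_one
      rw [Int.gcd_natCast_natCast]
      unfold dd
      refine Nat.Coprime.prod_right fun q hq => ?_
      rw [Nat.coprime_primes (hP p hp0) (hA q (hS q hq).1).1]
      rintro rfl
      exact (hS p hq).2 hp0
    have h3 := congrArg (jacobiSym (p : ℤ)) e1
    rw [jacobiSym.mul_right, jacobiSym.mul_right, jacobiSym.pow_right] at h3
    have h4 : jacobiSym (p : ℤ) (dd T) * jacobiSym (p : ℤ) (dd T') = 1 := by
      rcases hcop T hT with h | h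
      · rw [h, (h1 p hp0).1 h, mul_one]
      · rcases hcop T' hT' with h' | h'
        · rw [(h1 p hp0).2 h'] at h
          norm_num at h
        · rw [h, h']
          norm_num
    rw [h4] at h3
    have h5 : jacobiSym (p : ℤ) (dd (T ∩ T')) ^ 2 = 1 := by
      rcases jacobiSym.trichotomy (p : ℤ) (dd (T ∩ T')) with h | h | h
      · rw [h] at h3
        norm_num at h3
      · rw [h]; norm_num
      · rw [h]; norm_num
    rw [h5, mul_one] at h3
    exact h3

theorem class_count {A : Set ℕ} (hA : ∀ q ∈ A, q.Prime ∧ q ≠ 2) (pos : Prop) {P : Finset ℕ}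
    (hP : ∀ p ∈ P, p.Prime) : ∃ M : ℕ, ∀ X : ℕ, Cnt.NA (A \ (P : Set ℕ)) X ≤
      M * Nat.card {D : ℤ // DC A pos P D ∧ |D| ≤ ((M * X : ℕ) : ℤ)} := by
  classical
  let pat : Finset ℕ → (P → Bool) × Bool := fun T =>
    (fun p => decide (jacobiSym p (dd T) = 1), decide (0 < disc T))
  have hch : ∀ e : (P → Bool) × Bool, ∃ t : Finset ℕ, ∀ T : Finset ℕ,
      (∀ q ∈ T, q ∈ A \ (P : Set ℕ)) → pat T = e →
      (∀ q ∈ t, q ∈ A \ (P : Set ℕ)) ∧ pat t = e := by
    intro e
    by_cases h : ∃ T : Finset ℕ, (∀ q ∈ T, q ∈ A \ (P : Set ℕ)) ∧ pat T = e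
    · obtain ⟨T, hT⟩ := h
      exact ⟨T, fun _ _ _ => hT⟩
    · exact ⟨∅, fun T h1 h2 => absurd ⟨T, h1, h2⟩ h⟩
  choose t ht using hch
  have hgt : ∀ T : Finset ℕ, (∀ q ∈ T, q ∈ A \ (P : Set ℕ)) → GT A pos P (T ∆ t (pat T)) := by
    intro T hT
    obtain ⟨h1, h2⟩ := ht (pat T) T hT rfl
    refine samepat hA hP hT h1 (fun p hp => ?_) ?_
    · have h3 := congrArg (fun x : (P → Bool) × Bool => x.1 ⟨p, hp⟩) h2
      simp only [pat, decide_eq_decide] at h3
      exact h3.symm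
    · have h3 := congrArg (fun x : (P → Bool) × Bool => x.2) h2
      simp only [pat, decide_eq_decide] at h3
      exact h3.symm
  let M : ℕ := ∑ e, dd (t e)
  have hM : ∀ e, dd (t e) ≤ M := fun e =>
    Finset.single_le_sum (f := fun e => dd (t e)) (fun _ _ => Nat.zero_le _) (Finset.mem_univ e)
  let R : ℕ := Fintype.card ((P → Bool) × Bool)
  refine ⟨R + M, fun X => ?_⟩
  have hfin : Finite {D : ℤ // DC A pos P D ∧ |D| ≤ (((R + M) * X : ℕ) : ℤ)} := by
    refine Set.Finite.subset (Set.finite_Icc (-(((R + M) * X : ℕ) : ℤ)) (((R + M) * X : ℕ) : ℤ)) ?_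
    rintro D ⟨-, h2⟩
    exact abs_le.1 h2
  let Ω : Type := {n : ℕ // n ∈ (Finset.range (X + 1)).filter (Cnt.Ad (A \ (P : Set ℕ)))}
  have hΩ : ∀ n : Ω, n.1 ≤ X ∧ Squarefree n.1 ∧ ∀ q ∈ n.1.primeFactors, q ∈ A \ (P : Set ℕ) := by
    intro n
    have h1 := n.2
    rw [Finset.mem_filter, Finset.mem_range] at h1
    exact ⟨by omega, h1.2.1, fun q hq => h1.2.2 q (Nat.prime_of_mem_primeFactors hq)
      (Nat.dvd_of_mem_primeFactors hq)⟩
  have hddn : ∀ n : Ω, dd n.1.primeFactors = n.1 := fun n =>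
    Nat.prod_primeFactors_of_squarefree (hΩ n).2.1
  let φ : Ω → ((P → Bool) × Bool) × {D : ℤ // DC A pos P D ∧ |D| ≤ (((R + M) * X : ℕ) : ℤ)} :=
    fun n => ⟨pat n.1.primeFactors, ⟨disc (n.1.primeFactors ∆ t (pat n.1.primeFactors)),
      (hgt _ (hΩ n).2.2).dc hA, by
        have h1 : |disc (n.1.primeFactors ∆ t (pat n.1.primeFactors))| =
            ((dd (n.1.primeFactors ∆ t (pat n.1.primeFactors)) : ℕ) : ℤ) := by
          rw [← disc_natAbs, Int.natCast_natAbs]
        rw [h1]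
        have h2 := dd_symm n.1.primeFactors (t (pat n.1.primeFactors))
        rw [hddn] at h2
        have h3 : 0 < dd (n.1.primeFactors ∩ t (pat n.1.primeFactors)) :=
          Nat.pos_of_ne_zero (dd_ne_zero fun q hq =>
            Nat.prime_of_mem_primeFactors (Finset.mem_inter.1 hq).1)
        have h4 : dd (n.1.primeFactors ∆ t (pat n.1.primeFactors)) ≤
            n.1 * dd (t (pat n.1.primeFactors)) := by
          rw [← h2]
          exact Nat.le_mul_of_pos_right _ (pow_pos h3 2)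
        have h6 : dd (n.1.primeFactors ∆ t (pat n.1.primeFactors)) ≤ (R + M) * X := by
          calc _ ≤ n.1 * dd (t (pat n.1.primeFactors)) := h4
            _ ≤ X * M := Nat.mul_le_mul (hΩ n).1 (hM _)
            _ ≤ (R + M) * X := by
              rw [mul_comm]
              exact Nat.mul_le_mul_right X (Nat.le_add_left _ _)
        exact_mod_cast h6⟩⟩
  have hφ : Function.Injective φ := by
    intro n n' h
    have h1 : pat n.1.primeFactors = pat n'.1.primeFactors := congrArg Prod.fst h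
    have h2 : disc (n.1.primeFactors ∆ t (pat n.1.primeFactors)) =
        disc (n'.1.primeFactors ∆ t (pat n'.1.primeFactors)) := congrArg (fun x => (x.2 : ℤ)) h
    have hp : ∀ n : Ω, ∀ q ∈ n.1.primeFactors ∆ t (pat n.1.primeFactors), q.Prime := fun n q hq =>
      (hA q ((hgt _ (hΩ n).2.2).adm q hq)).1
    have h3 := congrArg (fun d : ℤ => d.natAbs.primeFactors) h2
    simp only [pf_disc (hp n), pf_disc (hp n')] at h3
    rw [← h1] at h3
    have h4 := symmDiff_left_injective _ h3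
    have h5 := congrArg dd h4
    rw [hddn, hddn] at h5
    exact Subtype.ext h5
  have h1 := Nat.card_le_card_of_injective φ hφ
  rw [Nat.card_prod, Nat.card_eq_fintype_card (α := (P → Bool) × Bool)] at h1
  have h2 : Cnt.NA (A \ (P : Set ℕ)) X = Nat.card Ω := by
    show _ = Nat.card {n : ℕ // n ∈ (Finset.range (X + 1)).filter (Cnt.Ad (A \ (P : Set ℕ)))}
    rw [Nat.card_eq_fintype_card, Fintype.card_coe]
    rfl
  rw [h2]
  exact h1.trans (Nat.mul_le_mul_right _ (Nat.le_add_right _ _))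

theorem quant {A : Set ℕ} (hA : ∀ q ∈ A, q.Prime ∧ q ≠ 2) {d : ℝ} (hd : 0 < d)
    (hdens : ∀ B : Set ℕ, B.Finite → ∀ᶠ N : ℕ in atTop, d * (N / Real.log N) ≤ Cnt.cA (A \ B) N) :
    ∃ δ : ℝ, 0 < δ ∧ δ < 1 ∧ ∀ (NV : ℤ → Prop) (pos : Prop) (P : Finset ℕ), (∀ p ∈ P, p.Prime) →
      ∀ C : ℕ, (∀ X : ℕ, Nat.card {D : ℤ // DC A pos P D ∧ |D| ≤ X} ≤
        C * Nat.card {D : ℤ // DC A pos P D ∧ |D| ≤ C * X ∧ NV D}) →
      ∃ X0 : ℕ, ∀ X : ℕ, X0 ≤ X → (X : ℝ) / Real.log X ^ (1 - δ) ≤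
        Nat.card {D : ℤ // DC A pos P D ∧ |D| ≤ X ∧ NV D} := by
  classical
  obtain ⟨δ, hδ, hδ1, hmany⟩ := Cnt.many hd
  refine ⟨δ / 2, by positivity, by linarith, fun NV pos P hP C hC => ?_⟩
  obtain ⟨M, hM⟩ := class_count hA pos hP
  have h1 := hmany (A \ (P : Set ℕ)) (fun q hq => (hA q hq.1).1) (hdens _ P.finite_toSet)
  obtain ⟨X1, hX1⟩ := eventually_atTop.1 h1
  have hlog : Tendsto (fun X : ℕ => Real.log X) atTop atTop :=
    Real.tendsto_log_atTop.comp tendsto_natCast_atTop_atTop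
  set K0 : ℕ := C * M + 1 with hK0
  have e1 : ∀ᶠ Y : ℕ in atTop, (2 * K0 ^ 2 : ℝ) ≤ (Real.log Y) ^ (δ / 2) :=
    ((tendsto_rpow_atTop (by positivity : 0 < δ / 2)).comp hlog).eventually_ge_atTop _
  refine eventually_atTop.1 ?_
  filter_upwards [e1, eventually_ge_atTop ((X1 + 3) * K0 + 2 * K0)] with Y hY1 hY2
  have hK0p : 0 < K0 := by omega
  set X : ℕ := Y / K0 with hX
  have hX1' : X1 + 3 ≤ X := by
    rw [hX, Nat.le_div_iff_mul_le hK0p]
    omega
  have hXY : K0 * X ≤ Y := Nat.mul_div_le Y K0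
  have hfin : Finite {D : ℤ // DC A pos P D ∧ |D| ≤ (Y : ℤ) ∧ NV D} := by
    refine Set.Finite.subset (Set.finite_Icc (-(Y : ℤ)) (Y : ℤ)) ?_
    rintro D ⟨-, h2, -⟩
    exact abs_le.1 h2
  set F : ℕ := Nat.card {D : ℤ // DC A pos P D ∧ |D| ≤ (Y : ℤ) ∧ NV D} with hF
  have h2 : Cnt.NA (A \ (P : Set ℕ)) X ≤ K0 * F := by
    have h3 : Nat.card {D : ℤ // DC A pos P D ∧ |D| ≤ C * ((M * X : ℕ) : ℤ) ∧ NV D} ≤ F := by
      refine Nat.card_le_card_of_injective (fun D => (⟨D.1, D.2.1, D.2.2.1.trans ?_, D.2.2.2⟩ :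
        {D : ℤ // DC A pos P D ∧ |D| ≤ (Y : ℤ) ∧ NV D})) ?_
      · have h4 : C * (M * X) ≤ Y := by
          refine le_trans ?_ hXY
          rw [hK0, ← mul_assoc]
          exact Nat.mul_le_mul_right _ (Nat.le_succ _)
        exact_mod_cast h4
      · intro D D' h
        exact Subtype.ext (congrArg (fun x => x.1) h)
    calc Cnt.NA (A \ (P : Set ℕ)) X ≤ M * Nat.card {D : ℤ // DC A pos P D ∧
          |D| ≤ ((M * X : ℕ) : ℤ)} := hM X
      _ ≤ M * (C * F) := Nat.mul_le_mul_left _ ((hC (M * X)).trans (Nat.mul_le_mul_left _ h3))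
      _ ≤ K0 * F := by
        rw [← mul_assoc, mul_comm M C]
        exact Nat.mul_le_mul_right _ (Nat.le_succ _)
  have h3 := hX1 X (by omega)
  have hK0r : (0 : ℝ) < K0 := by exact_mod_cast hK0p
  have hXr : (3 : ℝ) ≤ X := by exact_mod_cast (by omega : 3 ≤ X)
  have hlX : 0 < Real.log X := Real.log_pos (by linarith)
  have hXY' : (X : ℝ) ≤ Y := by exact_mod_cast Nat.div_le_self Y K0
  have hYr : (0 : ℝ) < Y := by linarith
  have hlXY : Real.log X ≤ Real.log Y := Real.log_le_log (by linarith) hXY'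
  have hlY : 0 < Real.log Y := by linarith
  have h4 : (Y : ℝ) / (2 * K0) ≤ X := by
    rw [div_le_iff₀ (by positivity)]
    have h5 : Y < K0 * (X + 1) := by
      rw [hX]
      have := Nat.div_add_mod Y K0
      have := Nat.mod_lt Y hK0p
      nlinarith
    have h6 : (Y : ℝ) ≤ K0 * (X + 1) := by exact_mod_cast h5.le
    nlinarith
  have h5 : (Y : ℝ) / (2 * K0) / Real.log Y ^ (1 - δ) ≤ X / Real.log X ^ (1 - δ) := by
    apply div_le_div₀ (by positivity) h4 (Real.rpow_pos_of_pos hlX _)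
    exact Real.rpow_le_rpow hlX.le hlXY (by linarith)
  have h6 : (Y : ℝ) / (2 * K0) / Real.log Y ^ (1 - δ) ≤ K0 * F := by
    refine h5.trans (h3.trans ?_)
    exact_mod_cast h2
  have h7 : (Y : ℝ) / Real.log Y ^ (1 - δ / 2) =
      Y / (Real.log Y ^ (1 - δ) * Real.log Y ^ (δ / 2)) := by
    rw [← Real.rpow_add hlY]
    congr 2
    ring
  rw [h7]
  have hl1 : 0 < Real.log Y ^ (1 - δ) := Real.rpow_pos_of_pos hlY _
  calc (Y : ℝ) / (Real.log Y ^ (1 - δ) * Real.log Y ^ (δ / 2)) ≤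
        Y / (Real.log Y ^ (1 - δ) * (2 * K0 ^ 2)) := by gcongr
    _ = (Y : ℝ) / (2 * K0) / Real.log Y ^ (1 - δ) / K0 := by
        field_simp
    _ ≤ F := by
        rw [div_le_iff₀ hK0r]
        linarith

section
variable {a b : ℤ}

lemma conj_root {F : Type} [Field F] {p : Polynomial F} (hp : Irreducible p) (hm : p.Monic)
    {t s : AlgebraicClosure F} (ht : Polynomial.aeval t p = 0) (hs : Polynomial.aeval s p = 0) :
    ∃ g : GF F, g t = s := by
  have h1 : IsConjRoot F s t := by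
    unfold IsConjRoot
    rw [← minpoly.eq_of_irreducible_of_monic hp ht hm, ← minpoly.eq_of_irreducible_of_monic hp hs hm]
  exact isConjRoot_iff_exists_algEquiv.1 h1

theorem exists_move {F : Type} [Field F] [CharZero F] (hΔ : 4 * a ^ 3 + 27 * b ^ 2 ≠ 0)
    (h : ∀ x : F, ¬ Rt a b x) :
    ∃ g : GF F, ∀ t : AlgebraicClosure F, Rt a b t → g t ≠ t := by
  obtain ⟨t1, t2, t3, h1, h2, h3, hsp⟩ := exists_split a b (AlgebraicClosure F)
  have hroot : ∀ t : AlgebraicClosure F, Rt a b t → t = t1 ∨ t = t2 ∨ t = t3 := by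
    intro t ht
    unfold Rt at ht
    rw [hsp] at ht
    rcases mul_eq_zero.1 ht with h4 | h4
    · rcases mul_eq_zero.1 h4 with h4 | h4
      · exact Or.inl (sub_eq_zero.1 h4)
      · exact Or.inr (Or.inl (sub_eq_zero.1 h4))
    · exact Or.inr (Or.inr (sub_eq_zero.1 h4))
  -- the polynomial
  let p : Polynomial F := Polynomial.X ^ 3 + Polynomial.C (a : F) * Polynomial.X +
    Polynomial.C (b : F)
  have hm : p.Monic := by
    simp only [p]
    monicity!
  have hdeg : p.natDegree = 3 := by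
    simp only [p]
    compute_degree!
  have hirr : Irreducible p := by
    rw [hm.irreducible_iff_roots_eq_zero_of_degree_le_three (by omega) (by omega)]
    rw [Multiset.eq_zero_iff_forall_notMem]
    intro x hx
    rw [Polynomial.mem_roots hm.ne_zero] at hx
    apply h x
    simpa [p, Rt] using hx
  have hcj : ∀ t s : AlgebraicClosure F, Rt a b t → Rt a b s → ∃ g : GF F, g t = s := by
    intro t s ht hs
    unfold Rt at ht hs
    refine conj_root hirr hm ?_ ?_
    · simpa [p] using ht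
    · simpa [p] using hs
  -- distinct
  have hc : ∀ s t : AlgebraicClosure F, (∀ x : AlgebraicClosure F, x ^ 3 + (a : AlgebraicClosure F) * x +
      (b : AlgebraicClosure F) = (x - s) * (x - s) * (x - t)) → False := by
    intro s t hx
    have e0 := hx 0
    have e1 := hx 1
    have e2 := hx (-1)
    have k1 : 2 * s + t = 0 := by linear_combination (1 / 2 : AlgebraicClosure F) * (e1 + e2) - e0
    have k2 : t = -2 * s := by linear_combination k1
    have k3 : (b : AlgebraicClosure F) = 2 * s ^ 3 := by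
      rw [k2] at e0
      linear_combination e0
    have k4 : (a : AlgebraicClosure F) = -3 * s ^ 2 := by
      rw [k2] at e1
      rw [k3] at e1
      linear_combination e1
    apply hΔ
    have k5 : ((4 * a ^ 3 + 27 * b ^ 2 : ℤ) : AlgebraicClosure F) = 0 := by
      push_cast
      rw [k3, k4]
      ring
    exact_mod_cast k5
  have d12 : t1 ≠ t2 := by
    rintro rfl
    exact hc t1 t3 hsp
  have d13 : t1 ≠ t3 := by
    rintro rfl
    exact hc t1 t2 fun x => (hsp x).trans (by ring)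
  have d23 : t2 ≠ t3 := by
    rintro rfl
    exact hc t2 t1 fun x => (hsp x).trans (by ring)
  have him : ∀ (g : GF F) (t : AlgebraicClosure F), Rt a b t → Rt a b (g t) := by
    intro g t ht
    have := congrArg g ht
    simp only [map_add, map_mul, map_pow, map_intCast, map_zero] at this
    exact this
  by_contra hcon
  push Not at hcon
  obtain ⟨g, hg⟩ := hcj t1 t2 h1 h2
  obtain ⟨k, hk⟩ := hcj t1 t3 h1 h3
  have g3 : g t3 = t3 := by
    obtain ⟨t, ht, hgt⟩ := hcon g
    rcases hroot t ht with rfl | rfl | rfl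
    · exact absurd (hgt.symm.trans hg) d12
    · exact absurd (g.injective (hg.trans hgt.symm)) d12
    · exact hgt
  have g2 : g t2 = t1 := by
    rcases hroot _ (him g t2 h2) with h4 | h4 | h4
    · exact h4
    · exact absurd (g.injective (hg.trans h4.symm)) d12
    · exact absurd (g.injective (h4.trans g3.symm)) d23
  have k2 : k t2 = t2 := by
    obtain ⟨t, ht, hgt⟩ := hcon k
    rcases hroot t ht with rfl | rfl | rfl
    · exact absurd (hgt.symm.trans hk) d13
    · exact hgt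
    · exact absurd (k.injective (hk.trans hgt.symm)) d13
  have k3 : k t3 = t1 := by
    rcases hroot _ (him k t3 h3) with h4 | h4 | h4
    · exact h4
    · exact absurd (k.injective (h4.trans k2.symm)) d23.symm
    · exact absurd (k.injective (hk.trans h4.symm)) d13
  obtain ⟨t, ht, hgt⟩ := hcon (g * k)
  have e : (g * k) t = g (k t) := rfl
  rw [e] at hgt
  rcases hroot t ht with rfl | rfl | rfl
  · rw [hk, g3] at hgt
    exact d13 hgt.symm
  · rw [k2, g2] at hgt
    exact d12 hgt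
  · rw [k3, hg] at hgt
    exact d23 hgt

/-- all the embeddings have the same image -/
lemma same_range {F K L : Type*} [Field F] [Field K] [Field L] [Algebra F K] [Algebra F L]
    [Normal F K] (φ ψ : K →ₐ[F] L) (x : K) : ∃ y, ψ y = φ x := by
  have e : K ≃ₐ[F] ψ.fieldRange := AlgEquiv.ofInjectiveField ψ
  have : Normal F ψ.fieldRange := Normal.of_algEquiv e
  have h := AlgHom.fieldRange_of_normal
    (φ.comp (e.symm : ψ.fieldRange →ₐ[F] K) : ψ.fieldRange →ₐ[F] L)
  have h1 : φ x ∈ ψ.fieldRange := by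
    rw [← h]
    refine ⟨e x, ?_⟩
    show φ (e.symm (e x)) = φ x
    rw [AlgEquiv.symm_apply_apply]
  obtain ⟨y, hy⟩ := h1
  exact ⟨y, hy⟩

lemma mem_HH_all {K : Type} [Field K] [NumberField K] [IsGalois ℚ K] {g : GF ℚ}
    (hg : g ∈ Pool.Agent.Y142.HH ℚ K) (φ : K →ₐ[ℚ] AlgebraicClosure ℚ) (x : K) : g (φ x) = φ x := by
  obtain ⟨y, hy⟩ := same_range φ (emb ℚ K) x
  have h3 := mem_HH.1 hg y
  rw [← hy]
  exact h3

lemma conj_mem_HH {K : Type} [Field K] [NumberField K] {g : GF ℚ}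
    (hg : ∀ (φ : K →ₐ[ℚ] AlgebraicClosure ℚ) (x : K), g (φ x) = φ x) (τ : GF ℚ) :
    τ⁻¹ * g * τ ∈ Pool.Agent.Y142.HH ℚ K := by
  rw [mem_HH]
  intro x
  have h1 := hg ((AlgEquiv.toAlgHom τ).comp (emb ℚ K)) x
  have h2 : g (τ (emb ℚ K x)) = τ (emb ℚ K x) := h1
  show τ⁻¹ (g (τ (emb ℚ K x))) = emb ℚ K x
  rw [h2]
  exact τ.symm_apply_apply _

/-- the case of one curve -/
theorem exists_moveK {K : Type} [Field K] [NumberField K]
    (hΔ : 4 * a ^ 3 + 27 * b ^ 2 ≠ 0) (h : ∀ x : K, ¬ Rt a b x) :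
    ∃ g : GF ℚ, g ∈ Pool.Agent.Y142.HH ℚ K ∧ ∀ t : AlgebraicClosure ℚ, Rt a b t → g t ≠ t := by
  obtain ⟨g, hg⟩ := exists_move hΔ h
  let g' : GF ℚ := (io ℚ K).symm.trans ((g.restrictScalars ℚ).trans (io ℚ K))
  have hg' : ∀ t, g' t = io ℚ K (g ((io ℚ K).symm t)) := fun _ => rfl
  refine ⟨g', ?_, fun t ht => ?_⟩
  · rw [mem_HH]
    intro x
    rw [hg', emb_apply, AlgEquiv.symm_apply_apply, g.commutes]
  · rw [hg']
    intro h1
    refine hg ((io ℚ K).symm t) ?_ ?_
    · have := congrArg (io ℚ K).symm ht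
      simp only [map_add, map_mul, map_pow, map_intCast, map_zero] at this
      exact this
    · have h2 := congrArg (io ℚ K).symm h1
      rwa [AlgEquiv.symm_apply_apply] at h2

end

end Pool.Agent.K4H55.AB
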