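import Pool.Agent.K4H55.AB.Fld

/-!
The admissible primes.
-/

set_option autoImplicit false

open Complex Filter Topology UpperHalfPlane MatrixGroups CongruenceSubgroup
open NumberField IsDedekindDomain H300.HW
open scoped symmDiff

namespace Pool.Agent.K4H55.AB

open Finset Pool.Agent.Y18.BSD Pool.Agent.Y18.LP Pool.Agent.Y18.NF
open Pool.Agent.W263.BSD (pointCount GoodPrime IsLSeries)
open Pool.Agent.H921R2.TatePole
open Pool.Agent.Y702.L (pv local_quad mem_v_of_below)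
open W165.CE (fac fac_eq pw multipliable_fac ap0 trace_good pw_luc av)

lemma hv_inv {m : ℕ} (h : (ZMod m)ˣ →* ℂˣ) (q : ℕ) : hv h⁻¹ q = (hv h q)⁻¹ := by
  unfold hv
  split_ifs with h1
  · rfl
  · simp

lemma hv_hp {n : ℕ} [NeZero n] (χ : DirichletCharacter ℂ n) {q : ℕ} (hq : q.Prime) (hqn : ¬ q ∣ n) :
    ((hv (hp χ) q : ℂˣ) : ℂ) = pv n χ q := by
  have hqm : q.Coprime χ.conductor := (Nat.Prime.coprime_iff_not_dvd hq).2
    fun h => hqn (h.trans χ.conductor_dvd_level)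
  rw [← hp_val]
  have h3 : (q : ZMod χ.conductor) = ((ZMod.unitOfCoprime q hqm : (ZMod χ.conductor)ˣ) :
    ZMod χ.conductor) := (ZMod.coe_unitOfCoprime q hqm).symm
  rw [h3, MulChar.ofUnitHom_coe]
  unfold hv
  rw [dif_pos hqm]

lemma hp_pow {n : ℕ} [NeZero n] (χ : DirichletCharacter ℂ n) (u : (ZMod χ.conductor)ˣ) :
    hp χ u ^ (χ.conductor.totient) = 1 := by
  rw [← map_pow, ZMod.pow_totient, map_one]

section
variable {K : Type} [Field K] [NumberField K]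

/-- the number of the affine points over the residue field of `v` -/
noncomputable def ptv (a b : ℤ) (v : HeightOneSpectrum (𝓞 K)) : ℕ :=
  Nat.card {x : (𝓞 K ⧸ v.asIdeal) × (𝓞 K ⧸ v.asIdeal) //
    x.2 ^ 2 = x.1 ^ 3 + (a : 𝓞 K ⧸ v.asIdeal) * x.1 + (b : 𝓞 K ⧸ v.asIdeal)}

end

section
variable {n : ℕ} [NeZero n] {L : Type} [Field L] [NumberField L] [IsCyclotomicExtension {n} ℚ L]
    {F : IntermediateField ℚ L} {N : ℕ} [NeZero N] {a b : ℤ}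
    {f : CuspForm (Gamma0 N : Subgroup (GL (Fin 2) ℝ)) 2}

omit [NeZero N] in
lemma adm_field (hf : IsFormOf a b N f) {q : ℕ} (hq : GoodPrime a b q) (hqn : ¬ q ∣ n)
    (hodd : ∀ v : HeightOneSpectrum (𝓞 F), ((q : ℕ) : 𝓞 F) ∈ v.asIdeal → ¬ 2 ∣ ptv a b v + 1)
    {lam : Ideal (integralClosure ℤ ℂ)} (hlam : lam.IsPrime)
    (h2 : (2 : integralClosure ℤ ℂ) ∈ lam)
    (hint : ∀ m : ℤ, (m : integralClosure ℤ ℂ) ∈ lam → (2 : ℤ) ∣ m) (χ : YY n L F) :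
    ∀ x ∈ lam, (x : ℂ) ≠ co f q - ((hv (hp χ.1)⁻¹ q)⁻¹ : ℂˣ) - (hv (hp χ.1)⁻¹ q : ℂˣ) := by
  classical
  intro x hx hxe
  have hqp : q.Prime := hq.1
  have hq2 : q ≠ 2 := good_ne_two hq
  obtain ⟨hqN, hcq⟩ := hf.points q hq
  have hgood : ¬ (q : ℤ) ∣ 2 * (4 * a ^ 3 + 27 * b ^ 2) := by
    intro h
    apply hq.2
    have e : 2 * (-4 * a ^ 3 - 27 * b ^ 2) = -(2 * (4 * a ^ 3 + 27 * b ^ 2)) := by ring
    rw [e]
    exact (Int.dvd_neg).2 h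
  let p : Nat.Primes := ⟨q, hqp⟩
  have hco : co f q = ((ap0 a b q : ℤ) : ℂ) := by
    rw [hcq]
    unfold ap0 pointCount
    push_cast
    ring
  -- the integers
  have hzi : ∀ χ : YY n L F, IsIntegral ℤ (pv n χ.1 q) := by
    intro χ
    refine IsIntegral.of_pow (n := χ.1.conductor.totient) (Nat.totient_pos.2 (Nat.pos_of_ne_zero
      χ.1.conductor_ne_zero)) ?_
    rw [← hv_hp χ.1 hqp hqn]
    have h3 := congrArg Units.val (hv_pow (h := hp χ.1) (E := χ.1.conductor.totient) (hp_pow χ.1) q)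
    rw [Units.val_pow_eq_pow_val, Units.val_one] at h3
    rw [h3]
    exact isIntegral_one
  let Z : YY n L F → integralClosure ℤ ℂ := fun χ => ⟨pv n χ.1 q, hzi χ⟩
  let Y : YY n L F → integralClosure ℤ ℂ := fun χ =>
    1 - Z χ * ((ap0 a b q : ℤ) : integralClosure ℤ ℂ) + Z χ ^ 2 * ((q : ℤ) : integralClosure ℤ ℂ)
  -- the factor in the ideal
  have hY : Y χ ∈ lam := by
    have h4 : Y χ = -(Z χ * x) + Z χ ^ 2 * (((q : ℤ) - 1 : ℤ) : integralClosure ℤ ℂ) := by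
      apply Subtype.ext
      have h5 : (Z χ : ℂ) = (hv (hp χ.1) q : ℂˣ) := (hv_hp χ.1 hqp hqn).symm
      have h6 : ((Z χ : integralClosure ℤ ℂ) : ℂ) * (x : ℂ) =
          (Z χ : ℂ) * ((ap0 a b q : ℤ) : ℂ) - (Z χ : ℂ) ^ 2 - 1 := by
        have h7 : ((hv (hp χ.1) q : ℂˣ) : ℂ) * (((hv (hp χ.1) q)⁻¹ : ℂˣ) : ℂ) = 1 :=
          Units.mul_inv _
        rw [hxe, hco, hv_inv, inv_inv, h5]
        linear_combination -h7
      show 1 - (Z χ : ℂ) * ((ap0 a b q : ℤ) : ℂ) + (Z χ : ℂ) ^ 2 * ((q : ℤ) : ℂ) =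
        -((Z χ : ℂ) * (x : ℂ)) + (Z χ : ℂ) ^ 2 * (((q : ℤ) - 1 : ℤ) : ℂ)
      rw [h6]
      push_cast
      ring
    rw [h4]
    refine lam.add_mem (lam.neg_mem (lam.mul_mem_left _ hx)) (lam.mul_mem_left _ ?_)
    have h5 : (2 : ℤ) ∣ (q : ℤ) - 1 := by
      have := hqp.odd_of_ne_two hq2
      obtain ⟨k, hk⟩ := this
      exact ⟨k, by rw [hk]; push_cast; ring⟩
    obtain ⟨k, hk⟩ := h5
    rw [hk]
    push_cast
    exact lam.mul_mem_right _ h2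
  -- the product
  have hprod : ∏ χ : YY n L F, Y χ = ((∏ v : {v : HeightOneSpectrum (𝓞 F) // below v = p},
      ((ptv a b v.1 : ℤ) + 1) : ℤ) : integralClosure ℤ ℂ) := by
    apply Subtype.ext
    have h3 := local_quad n L F p ((ap0 a b q : ℤ) : ℂ) ((q : ℤ) : ℂ) 1
    have h4 : ((∏ χ : YY n L F, Y χ : integralClosure ℤ ℂ) : ℂ) = ∏ χ : YY n L F,
        (1 - pv n χ.1 p * ((ap0 a b q : ℤ) : ℂ) * 1 +
          pv n χ.1 p ^ 2 * (((q : ℤ) : ℂ) * 1 ^ 2)) := by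
      have h5 : ((∏ χ : YY n L F, Y χ : integralClosure ℤ ℂ) : ℂ) =
          (integralClosure ℤ ℂ).subtype (∏ χ : YY n L F, Y χ) := rfl
      rw [h5, map_prod]
      refine Finset.prod_congr rfl fun χ _ => ?_
      show 1 - (Z χ : ℂ) * ((ap0 a b q : ℤ) : ℂ) + (Z χ : ℂ) ^ 2 * ((q : ℤ) : ℂ) = _
      show 1 - pv n χ.1 q * ((ap0 a b q : ℤ) : ℂ) + pv n χ.1 q ^ 2 * ((q : ℤ) : ℂ) =
        1 - pv n χ.1 q * ((ap0 a b q : ℤ) : ℂ) * 1 + pv n χ.1 q ^ 2 * (((q : ℤ) : ℂ) * 1 ^ 2)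
      ring
    rw [h4, ← h3]
    show _ = ((∏ v : {v : HeightOneSpectrum (𝓞 F) // below v = p},
      ((ptv a b v.1 : ℤ) + 1) : ℤ) : ℂ)
    rw [Int.cast_prod]
    refine Finset.prod_congr rfl fun v _ => ?_
    have h5 := trace_good (a := a) (b := b) v.1 (by
      rw [v.2]
      exact hgood)
    have h6 : ((nm v.1 : ℕ) : ℂ) = ((q : ℤ) : ℂ) ^ deg v.1 := by
      rw [(nm_eq v.1).1, v.2]
      push_cast
      rfl
    have h7 : av a b v.1 = ((nm v.1 : ℕ) : ℤ) - (ptv a b v.1 : ℤ) := rfl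
    rw [v.2] at h5
    have h8 := pw_luc (ap0 a b q) (q : ℤ) (deg v.1)
    rw [h8]
    have h9 : ((H82R3.EK.luc (ap0 a b q) (q : ℤ) (deg v.1) : ℤ) : ℂ) = ((av a b v.1 : ℤ) : ℂ) := by
      rw [h5]
    rw [h9, h7]
    push_cast at h6 ⊢
    rw [h6]
    ring
  have h3 : ((∏ v : {v : HeightOneSpectrum (𝓞 F) // below v = p},
      ((ptv a b v.1 : ℤ) + 1) : ℤ) : integralClosure ℤ ℂ) ∈ lam := by
    rw [← hprod]
    exact lam.mem_of_dvd (Finset.dvd_prod_of_mem _ (Finset.mem_univ χ)) hY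
  have h4 := hint _ h3
  rw [Prime.dvd_finsetProd_iff Int.prime_two] at h4
  obtain ⟨v, -, h5⟩ := h4
  refine hodd v.1 (mem_v_of_below v.2) ?_
  exact_mod_cast h5

end

end Pool.Agent.K4H55.AB
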