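import Mathlib
import Pool.Agent.Helper923.PNT

/-!
Many squarefree integers composed of the primes of a set of positive lower density.
-/

set_option autoImplicit false

open Filter Topology

namespace Pool.Agent.K4H55.AB.Cnt

open Finset

open Classical in
/-- the number of elements of `A` up to `N` -/
noncomputable def cA (A : Set ℕ) (N : ℕ) : ℕ := ((range (N + 1)).filter (· ∈ A)).card

open Classical in
/-- a block -/
noncomputable def PA (A : Set ℕ) (K j : ℕ) : Finset ℕ := (Ioc (K ^ j) (K ^ (j + 1))).filter (· ∈ A)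

lemma mem_PA {A : Set ℕ} {K j q : ℕ} : q ∈ PA A K j ↔ (K ^ j < q ∧ q ≤ K ^ (j + 1)) ∧ q ∈ A := by
  classical
  unfold PA
  rw [Finset.mem_filter, Finset.mem_Ioc]

lemma cA_le_pi {A : Set ℕ} (hA : ∀ q ∈ A, q.Prime) (N : ℕ) : cA A N ≤ Nat.primeCounting N := by
  classical
  rw [Nat.primeCounting, Nat.primeCounting', Nat.count_eq_card_filter_range]
  unfold cA
  exact Finset.card_le_card fun q hq => by
    rw [Finset.mem_filter] at hq ⊢
    exact ⟨hq.1, hA q hq.2⟩

lemma cA_split (A : Set ℕ) {M N : ℕ} (h : M ≤ N) : cA A N = cA A M +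
    (by classical exact ((Ioc M N).filter (· ∈ A)).card) := by
  classical
  unfold cA
  have h1 : (range (N + 1)).filter (· ∈ A) = (range (M + 1)).filter (· ∈ A) ∪
      (Ioc M N).filter (· ∈ A) := by
    ext q
    simp only [Finset.mem_union, Finset.mem_filter, Finset.mem_range, Finset.mem_Ioc]
    constructor
    · rintro ⟨h1, h2⟩
      by_cases h3 : q ≤ M
      · exact Or.inl ⟨by omega, h2⟩
      · exact Or.inr ⟨⟨by omega, by omega⟩, h2⟩
    · rintro (⟨h1, h2⟩ | ⟨⟨h1, h3⟩, h2⟩)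
      · exact ⟨by omega, h2⟩
      · exact ⟨by omega, h2⟩
  rw [h1, Finset.card_union_of_disjoint]
  rw [Finset.disjoint_left]
  intro q hq hq'
  rw [Finset.mem_filter, Finset.mem_range] at hq
  rw [Finset.mem_filter, Finset.mem_Ioc] at hq'
  omega

lemma pi_le : ∀ᶠ N : ℕ in atTop, (Nat.primeCounting N : ℝ) ≤ 2 * (N / Real.log N) := by
  have h1 := Pool.Agent.Helper923.PNT.pi_tendsto.comp (tendsto_natCast_atTop_atTop (R := ℝ))
  have h2 := h1.eventually_le_const (show (1 : ℝ) < 2 by norm_num)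
  filter_upwards [h2, eventually_ge_atTop 3] with N hN hN3
  simp only [Function.comp, Nat.floor_natCast] at hN
  have h3 : (0 : ℝ) < N := by
    have : 0 < N := by omega
    exact_mod_cast this
  have h4 : 0 < Real.log N := Real.log_pos (by exact_mod_cast (by omega : 1 < N))
  rw [div_le_iff₀ h3] at hN
  rw [← mul_div_assoc, le_div_iff₀ h4]
  exact hN

lemma block {d : ℝ} (hd : 0 < d) {K : ℕ} (hK2 : 2 ≤ K) (hK : 8 ≤ d * K) {A : Set ℕ}
    (hA : ∀ q ∈ A, q.Prime) (h : ∀ᶠ N : ℕ in atTop, d * (N / Real.log N) ≤ cA A N) :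
    ∃ j0 : ℕ, 1 ≤ j0 ∧ ∀ j, j0 ≤ j → 2 / (K * Real.log K) / j ≤ ∑ q ∈ PA A K j, (1 / q : ℝ) := by
  classical
  obtain ⟨N1, hN1⟩ := eventually_atTop.1 (h.and pi_le)
  refine ⟨N1 + 1, by omega, fun j hj => ?_⟩
  have hKj : N1 ≤ K ^ j := by
    have h1 : j < K ^ j := Nat.lt_pow_self hK2
    omega
  have hKj1 : N1 ≤ K ^ (j + 1) := hKj.trans (Nat.pow_le_pow_right (by omega) (by omega))
  obtain ⟨a1, -⟩ := hN1 _ hKj1
  obtain ⟨-, a2⟩ := hN1 _ hKj
  have hK0 : (0 : ℝ) < K := by exact_mod_cast (by omega : 0 < K)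
  have hlK : 0 < Real.log K := Real.log_pos (by exact_mod_cast (by omega : 1 < K))
  have hj0 : (0 : ℝ) < j := by exact_mod_cast (by omega : 0 < j)
  have hj1 : (1 : ℝ) ≤ j := by exact_mod_cast (by omega : 1 ≤ j)
  set x : ℝ := (K : ℝ) ^ j with hx
  have hx0 : 0 < x := by positivity
  have a3 := cA_split A (Nat.pow_le_pow_right (by omega : 0 < K) (by omega : j ≤ j + 1))
  have a4 := cA_le_pi hA (K ^ j)
  have a5 : ((PA A K j).card : ℝ) = (cA A (K ^ (j + 1)) : ℝ) - (cA A (K ^ j) : ℝ) := by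
    rw [a3]
    unfold PA
    push_cast
    ring
  have e1 : d * (((K ^ (j + 1) : ℕ) : ℝ) / Real.log ((K ^ (j + 1) : ℕ) : ℝ)) =
      d * K * x / ((j + 1) * Real.log K) := by
    push_cast
    rw [Real.log_pow, pow_succ]
    push_cast
    field_simp
    ring
  have e2 : (2 : ℝ) * (((K ^ j : ℕ) : ℝ) / Real.log ((K ^ j : ℕ) : ℝ)) = 2 * x / (j * Real.log K) := by
    push_cast
    rw [Real.log_pow]
    ring
  rw [e1] at a1
  rw [e2] at a2
  have a6 : 4 * x / (j * Real.log K) ≤ d * K * x / ((j + 1) * Real.log K) := by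
    rw [div_le_div_iff₀ (by positivity) (by positivity)]
    have b1 : (j : ℝ) + 1 ≤ 2 * j := by linarith
    calc 4 * x * ((j + 1) * Real.log K) ≤ 4 * x * ((2 * j) * Real.log K) := by
          gcongr
      _ = 8 * x * (j * Real.log K) := by ring
      _ ≤ d * K * x * (j * Real.log K) := by gcongr
  have a7 : 2 * x / (j * Real.log K) ≤ ((PA A K j).card : ℝ) := by
    rw [a5]
    have b1 : (cA A (K ^ j) : ℝ) ≤ (Nat.primeCounting (K ^ j) : ℝ) := by exact_mod_cast a4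
    have b2 : 4 * x / (j * Real.log K) = 2 * x / (j * Real.log K) + 2 * x / (j * Real.log K) := by
      ring
    linarith
  have a8 : ((PA A K j).card : ℝ) * (1 / (K * x)) ≤ ∑ q ∈ PA A K j, (1 / q : ℝ) := by
    rw [← nsmul_eq_mul]
    refine Finset.card_nsmul_le_sum _ _ _ fun q hq => ?_
    unfold PA at hq
    rw [Finset.mem_filter, Finset.mem_Ioc] at hq
    have b1 : (q : ℝ) ≤ K * x := by
      have : q ≤ K ^ (j + 1) := hq.1.2
      have h3 : (q : ℝ) ≤ ((K ^ (j + 1) : ℕ) : ℝ) := by exact_mod_cast this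
      rw [hx, ← pow_succ']
      exact_mod_cast h3
    have b2 : (0 : ℝ) < q := by
      have : 0 < q := by
        have := hq.1.1
        omega
      exact_mod_cast this
    exact one_div_le_one_div_of_le b2 b1
  refine le_trans ?_ a8
  calc 2 / (K * Real.log K) / j = 2 * x / (j * Real.log K) * (1 / (K * x)) := by
        field_simp
    _ ≤ _ := by gcongr

open Classical in
/-- the set of products -/
noncomputable def BB (A : Set ℕ) (K j0 : ℕ) : ℕ → Finset ℕ
  | 0 => {1}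
  | (i + 1) => BB A K j0 i ∪ ((PA A K (j0 + i)) ×ˢ (BB A K j0 i)).image (fun x => x.1 * x.2)

/-- admissible numbers -/
def Ad (A : Set ℕ) (n : ℕ) : Prop := Squarefree n ∧ ∀ q : ℕ, q.Prime → q ∣ n → q ∈ A

lemma Ad.mul {A : Set ℕ} {q m : ℕ} (hq : q.Prime) (hqA : q ∈ A) (hm : Ad A m) (h : ¬ q ∣ m) :
    Ad A (q * m) := by
  refine ⟨?_, fun p hp hd => ?_⟩
  · rw [Nat.squarefree_mul ((Nat.Prime.coprime_iff_not_dvd hq).2 h)]
    exact ⟨hq.prime.squarefree, hm.1⟩
  · rcases (hp.dvd_mul).1 hd with h1 | h1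
    · rw [(Nat.prime_dvd_prime_iff_eq hp hq).1 h1]
      exact hqA
    · exact hm.2 p hp h1

lemma BB_mem {A : Set ℕ} (hA : ∀ q ∈ A, q.Prime) {K : ℕ} (hK2 : 2 ≤ K) (j0 : ℕ) :
    ∀ i m, m ∈ BB A K j0 i → Ad A m ∧ m ≤ K ^ ((j0 + i) ^ 2) ∧
      ∀ q : ℕ, q.Prime → q ∣ m → q ≤ K ^ (j0 + i)
  | 0, m, h => by
    rw [BB, Finset.mem_singleton] at h
    subst h
    refine ⟨⟨squarefree_one, fun q hq hd => ?_⟩, Nat.one_le_pow _ _ (by omega), fun q hq hd => ?_⟩
    · exact absurd (Nat.dvd_one.1 hd) hq.ne_one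
    · exact absurd (Nat.dvd_one.1 hd) hq.ne_one
  | (i + 1), m, h => by
    have hpow : K ^ (j0 + i) ≤ K ^ (j0 + (i + 1)) := Nat.pow_le_pow_right (by omega) (by omega)
    rw [BB, Finset.mem_union, Finset.mem_image] at h
    rcases h with h | ⟨⟨q, n⟩, h, rfl⟩
    · obtain ⟨h1, h2, h3⟩ := BB_mem hA hK2 j0 i m h
      refine ⟨h1, h2.trans (Nat.pow_le_pow_right (by omega) (by
        exact Nat.pow_le_pow_left (by omega) 2)), fun q hq hd => (h3 q hq hd).trans hpow⟩
    · rw [Finset.mem_product] at h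
      obtain ⟨hq, hn⟩ := h
      obtain ⟨h1, h2, h3⟩ := BB_mem hA hK2 j0 i n hn
      rw [mem_PA] at hq
      obtain ⟨⟨h4, h5⟩, h6⟩ := hq
      have hqp := hA q h6
      simp only at h4 h5 h6 hn hqp h3 h2 h1 ⊢
      have hnd : ¬ q ∣ n := fun hd => by
        have := h3 q hqp hd
        omega
      refine ⟨Ad.mul hqp h6 h1 hnd, ?_, fun p hp hd => ?_⟩
      · calc q * n ≤ K ^ (j0 + i + 1) * K ^ ((j0 + i) ^ 2) := Nat.mul_le_mul h5 h2
          _ = K ^ (j0 + i + 1 + (j0 + i) ^ 2) := (pow_add _ _ _).symm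
          _ ≤ K ^ ((j0 + (i + 1)) ^ 2) := Nat.pow_le_pow_right (by omega) (by nlinarith)
      · rcases (hp.dvd_mul).1 hd with h7 | h7
        · rw [(Nat.prime_dvd_prime_iff_eq hp hqp).1 h7]
          exact h5
        · exact (h3 p hp h7).trans hpow

lemma BB_sum {A : Set ℕ} (hA : ∀ q ∈ A, q.Prime) {K : ℕ} (hK2 : 2 ≤ K) {j0 : ℕ} (hj0 : 1 ≤ j0)
    {c : ℝ} (hc : 0 < c) (hc1 : c ≤ 1)
    (hblock : ∀ j, j0 ≤ j → c / j ≤ ∑ q ∈ PA A K j, (1 / q : ℝ)) (i : ℕ) :
    (((j0 + i : ℕ) : ℝ) / j0) ^ c ≤ ∑ m ∈ BB A K j0 i, (1 / m : ℝ) := by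
  classical
  have hj : (0 : ℝ) < j0 := by exact_mod_cast (by omega : 0 < j0)
  induction i with
  | zero => simp [BB, div_self hj.ne']
  | succ i ih =>
    rw [BB, Finset.sum_union]
    · rw [Finset.sum_image]
      · rw [Finset.sum_product]
        have e1 : ∑ q ∈ PA A K (j0 + i), ∑ m ∈ BB A K j0 i, (1 / ((q * m : ℕ) : ℝ)) =
            (∑ q ∈ PA A K (j0 + i), (1 / q : ℝ)) * ∑ m ∈ BB A K j0 i, (1 / m : ℝ) := by
          rw [Finset.sum_mul_sum]
          refine Finset.sum_congr rfl fun q _ => Finset.sum_congr rfl fun m _ => ?_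
          push_cast
          rw [one_div_mul_one_div]
        rw [e1]
        set y : ℝ := ((j0 + i : ℕ) : ℝ) with hy
        have hy0 : 0 < y := by
          rw [hy]
          exact_mod_cast (by omega : 0 < j0 + i)
        have h1 := hblock (j0 + i) (by omega)
        have h2 : (1 + c / y) * (y / j0) ^ c ≤ ∑ m ∈ BB A K j0 i, (1 / m : ℝ) +
            (∑ q ∈ PA A K (j0 + i), (1 / q : ℝ)) * ∑ m ∈ BB A K j0 i, (1 / m : ℝ) := by
          have h3 : ∑ m ∈ BB A K j0 i, (1 / m : ℝ) +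
            (∑ q ∈ PA A K (j0 + i), (1 / q : ℝ)) * ∑ m ∈ BB A K j0 i, (1 / m : ℝ) =
            (1 + ∑ q ∈ PA A K (j0 + i), (1 / q : ℝ)) * ∑ m ∈ BB A K j0 i, (1 / m : ℝ) := by ring
          rw [h3]
          have h4 : 0 ≤ 1 + c / y := by positivity
          exact mul_le_mul (by linarith) ih (by positivity) (by linarith)
        refine le_trans ?_ h2
        have h3 : ((j0 + (i + 1) : ℕ) : ℝ) / j0 = (1 + 1 / y) * (y / j0) := by
          rw [hy]
          push_cast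
          field_simp
          ring
        rw [h3, Real.mul_rpow (by positivity) (by positivity)]
        have h4 : (1 + 1 / y) ^ c ≤ 1 + c / y := by
          have := rpow_one_add_le_one_add_mul_self (s := 1 / y) (by
            have : 0 ≤ 1 / y := by positivity
            linarith) hc.le hc1
          rw [mul_one_div] at this
          exact this
        exact mul_le_mul_of_nonneg_right h4 (by positivity)
      · rintro ⟨q, m⟩ h1 ⟨q', m'⟩ h2 h3
        simp only [Finset.coe_product, Set.mem_prod, Finset.mem_coe] at h1 h2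
        simp only at h3
        have hq := h1.1
        have hq' := h2.1
        unfold PA at hq hq'
        rw [Finset.mem_filter, Finset.mem_Ioc] at hq hq'
        have hqp := hA q hq.2
        have hqp' := hA q' hq'.2
        have hm' := (BB_mem hA hK2 j0 i m' h2.2).2.2
        have h4 : q = q' := by
          have h5 : q ∣ q' * m' := ⟨m, h3.symm⟩
          rcases (hqp.dvd_mul).1 h5 with h6 | h6
          · exact (Nat.prime_dvd_prime_iff_eq hqp hqp').1 h6
          · have := hm' q hqp h6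
            omega
        subst h4
        rw [Nat.mul_right_inj hqp.ne_zero] at h3
        rw [h3]
    · rw [Finset.disjoint_left]
      intro m hm h
      rw [Finset.mem_image] at h
      obtain ⟨⟨q, n⟩, h1, h2⟩ := h
      rw [Finset.mem_product] at h1
      have hq := h1.1
      unfold PA at hq
      rw [Finset.mem_filter, Finset.mem_Ioc] at hq
      have := (BB_mem hA hK2 j0 i m hm).2.2 q (hA q hq.2) ⟨n, h2.symm⟩
      omega

/-- the primes used on top -/
noncomputable def TT (A : Set ℕ) (X m : ℕ) : Finset ℕ :=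
  by classical exact (Ioc (Nat.sqrt X) (X / m)).filter (· ∈ A)

lemma mem_TT {A : Set ℕ} {X m q : ℕ} : q ∈ TT A X m ↔ (Nat.sqrt X < q ∧ q ≤ X / m) ∧ q ∈ A := by
  classical
  unfold TT
  rw [Finset.mem_filter, Finset.mem_Ioc]

/-- the count of admissible numbers -/
noncomputable def NA (A : Set ℕ) (X : ℕ) : ℕ := by
  classical exact ((range (X + 1)).filter (Ad A)).card

lemma inj {A : Set ℕ} (hA : ∀ q ∈ A, q.Prime) {X : ℕ} (B : Finset ℕ)
    (hB : ∀ m ∈ B, Ad A m ∧ m ≤ Nat.sqrt X) : ∑ m ∈ B, (TT A X m).card ≤ NA A X := by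
  classical
  rw [← Finset.card_sigma]
  unfold NA
  refine Finset.card_le_card_of_injOn (fun x => x.2 * x.1) ?_ ?_
  · rintro ⟨m, q⟩ h
    rw [Finset.mem_coe, Finset.mem_sigma] at h
    obtain ⟨h1, h2⟩ := h
    simp only at h1 h2
    rw [mem_TT] at h2
    obtain ⟨h3, h4⟩ := hB m h1
    have hm0 : 0 < m := Nat.pos_of_ne_zero h3.1.ne_zero
    have hqp := hA q h2.2
    simp only [Finset.coe_filter, Finset.mem_range, Set.mem_setOf_eq]
    refine ⟨?_, Ad.mul hqp h2.2 h3 fun hd => ?_⟩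
    · have := (Nat.le_div_iff_mul_le hm0).1 h2.1.2
      omega
    · have h5 := Nat.le_of_dvd hm0 hd
      have h6 := h2.1.1
      omega
  · rintro ⟨m, q⟩ h ⟨m', q'⟩ h' h3
    rw [Finset.mem_coe, Finset.mem_sigma] at h h'
    obtain ⟨h1, h2⟩ := h
    obtain ⟨h1', h2'⟩ := h'
    simp only at h1 h2 h1' h2' h3
    rw [mem_TT] at h2 h2'
    have hqp := hA q h2.2
    have hqp' := hA q' h2'.2
    obtain ⟨h3', h4'⟩ := hB m' h1'
    have hm0' : 0 < m' := Nat.pos_of_ne_zero h3'.1.ne_zero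
    have h4 : q = q' := by
      have h5 : q ∣ q' * m' := ⟨m, h3.symm⟩
      rcases (hqp.dvd_mul).1 h5 with h6 | h6
      · exact (Nat.prime_dvd_prime_iff_eq hqp hqp').1 h6
      · have h7 := Nat.le_of_dvd hm0' h6
        have h8 := h2.1.1
        omega
    subst h4
    rw [Nat.mul_right_inj hqp.ne_zero] at h3
    rw [h3]

lemma top {d : ℝ} (hd : 0 < d) {A : Set ℕ}
    (h : ∀ᶠ N : ℕ in atTop, d * (N / Real.log N) ≤ cA A N) : ∀ᶠ X : ℕ in atTop, ∀ m : ℕ, 0 < m →
      m ^ 4 ≤ X → d / 4 * (X / Real.log X) * (1 / m) ≤ ((TT A X m).card : ℝ) := by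
  classical
  obtain ⟨N1, hN1⟩ := eventually_atTop.1 h
  have e1 : ∀ᶠ X : ℕ in atTop, 8 * Real.log X ≤ d * (X : ℝ) ^ (1 / 4 : ℝ) := by
    have h1 := (isLittleO_log_rpow_atTop (r := 1 / 4) (by norm_num)).bound
      (show 0 < d / 8 by positivity)
    have h2 := (tendsto_natCast_atTop_atTop (R := ℝ)).eventually h1
    filter_upwards [h2, eventually_ge_atTop 1] with X hX hX1
    have h3 : 0 ≤ Real.log X := Real.log_natCast_nonneg X
    have h4 : (0 : ℝ) ≤ (X : ℝ) ^ (1 / 4 : ℝ) := by positivity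
    rw [Real.norm_of_nonneg h3, Real.norm_of_nonneg h4] at hX
    linarith
  filter_upwards [e1, eventually_ge_atTop ((N1 + 4) ^ 2)] with X hX1 hX2 m hm hmX
  have hX16 : 16 ≤ X := by
    have h0 : (0 + 4) ^ 2 ≤ (N1 + 4) ^ 2 := Nat.pow_le_pow_left (by omega) 2
    omega
  set x : ℝ := (X : ℝ) ^ (1 / 4 : ℝ) with hx
  have hX0 : (0 : ℝ) < X := by exact_mod_cast (by omega : 0 < X)
  have hx0 : 0 < x := by positivity
  have hx4 : x ^ 4 = X := by
    rw [hx, ← Real.rpow_natCast, ← Real.rpow_mul hX0.le]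
    norm_num
  have hm0 : (0 : ℝ) < m := by exact_mod_cast hm
  have hmx : (m : ℝ) ≤ x := by
    have h1 : (m : ℝ) ^ 4 ≤ x ^ 4 := by
      rw [hx4]
      exact_mod_cast hmX
    exact le_of_pow_le_pow_left₀ (by norm_num) hx0.le h1
  have hx1 : 1 ≤ x := by
    have : (1 : ℝ) ≤ m := by exact_mod_cast hm
    linarith
  have hx2 : 2 ≤ x := by
    have h1 : (2 : ℝ) ^ 4 ≤ x ^ 4 := by
      rw [hx4]
      norm_num
      exact_mod_cast hX16
    exact le_of_pow_le_pow_left₀ (by norm_num) hx0.le h1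
  have hL : 0 < Real.log X := Real.log_pos (by exact_mod_cast (by omega : 1 < X))
  set M : ℕ := X / m with hM
  have hM1 : (X : ℝ) / m < M + 1 := by
    rw [div_lt_iff₀ hm0]
    have := Nat.lt_div_mul_add (a := X) hm
    have h2 : X < (M + 1) * m := by
      rw [hM]
      have := Nat.div_add_mod X m
      have := Nat.mod_lt X hm
      nlinarith
    exact_mod_cast h2
  have hXm : x ^ 3 ≤ (X : ℝ) / m := by
    rw [le_div_iff₀ hm0, ← hx4]
    nlinarith [pow_pos hx0 3]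
  have hMX : M ≤ X := Nat.div_le_self _ _
  have hM2 : (X : ℝ) / m / 2 ≤ M := by
    have : (2 : ℝ) ^ 3 ≤ x ^ 3 := by gcongr
    linarith
  have hM3 : x ^ 2 ≤ M := by
    have : x ^ 2 * 2 ≤ x ^ 3 := by nlinarith [pow_pos hx0 2]
    linarith
  have hMN : N1 ≤ M := by
    have h1 : ((N1 : ℝ) + 4) ^ 2 ≤ (x ^ 2) ^ 2 := by
      rw [← pow_mul]
      norm_num [hx4]
      exact_mod_cast hX2
    have h2 : (N1 : ℝ) + 4 ≤ x ^ 2 := le_of_pow_le_pow_left₀ (by norm_num) (by positivity) h1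
    have h3 : (N1 : ℝ) ≤ M := by linarith
    exact_mod_cast h3
  have hM4 : 4 ≤ (M : ℝ) := by nlinarith
  have h1 := hN1 M hMN
  have hlM : 0 < Real.log M := Real.log_pos (by linarith)
  have hlM2 : Real.log M ≤ Real.log X := Real.log_le_log (by linarith) (by exact_mod_cast hMX)
  have h2 : d / 2 * (X / Real.log X) * (1 / m) ≤ d * (M / Real.log M) := by
    have h3 : (X : ℝ) / m / 2 / Real.log X ≤ M / Real.log M := by
      rw [div_le_div_iff₀ hL hlM]
      exact mul_le_mul hM2 hlM2 hlM.le (by linarith)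
    calc d / 2 * (X / Real.log X) * (1 / m) = d * ((X : ℝ) / m / 2 / Real.log X) := by
          field_simp
      _ ≤ _ := by gcongr
  -- the square root
  have hs : (Nat.sqrt X : ℝ) ≤ x ^ 2 := by
    have h3 : ((Nat.sqrt X : ℝ)) ^ 2 ≤ (x ^ 2) ^ 2 := by
      rw [← pow_mul]
      norm_num [hx4]
      exact_mod_cast Nat.sqrt_le' X
    exact le_of_pow_le_pow_left₀ (by norm_num) (by positivity) h3
  have hsM : Nat.sqrt X ≤ M := by
    have : (Nat.sqrt X : ℝ) ≤ M := hs.trans hM3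
    exact_mod_cast this
  have h3 := cA_split A hsM
  have h4 : (cA A (Nat.sqrt X) : ℝ) ≤ x ^ 2 + 1 := by
    have h5 : cA A (Nat.sqrt X) ≤ Nat.sqrt X + 1 := by
      unfold cA
      exact (Finset.card_filter_le _ _).trans (Finset.card_range _).le
    have h6 : (cA A (Nat.sqrt X) : ℝ) ≤ Nat.sqrt X + 1 := by exact_mod_cast h5
    linarith
  have h5 : ((TT A X m).card : ℝ) = (cA A M : ℝ) - (cA A (Nat.sqrt X) : ℝ) := by
    rw [h3]
    unfold TT
    push_cast
    ring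
  have h6 : x ^ 2 + 1 ≤ d / 4 * (X / Real.log X) * (1 / m) := by
    have h7 : d / 4 * (X / Real.log X) * (1 / m) = d * x ^ 4 / (4 * Real.log X * m) := by
      rw [hx4]
      field_simp
    rw [h7, le_div_iff₀ (by positivity)]
    have h8 : 4 * Real.log X * m ≤ d * x / 2 * x := by
      have : 4 * Real.log X ≤ d * x / 2 := by linarith
      exact mul_le_mul this hmx hm0.le (by positivity)
    have h9 : x ^ 2 + 1 ≤ 2 * x ^ 2 := by nlinarith
    calc (x ^ 2 + 1) * (4 * Real.log X * m) ≤ (2 * x ^ 2) * (d * x / 2 * x) := by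
          exact mul_le_mul h9 h8 (by positivity) (by positivity)
      _ = d * x ^ 4 := by ring
  rw [h5]
  have h10 : d / 2 * (X / Real.log X) * (1 / m) = d / 4 * (X / Real.log X) * (1 / m) +
    d / 4 * (X / Real.log X) * (1 / m) := by ring
  linarith

/-- squarefree integers composed of a set of primes of positive lower density -/
theorem many {d : ℝ} (hd : 0 < d) : ∃ δ : ℝ, 0 < δ ∧ δ < 1 ∧ ∀ A : Set ℕ, (∀ q ∈ A, q.Prime) →
    (∀ᶠ N : ℕ in atTop, d * (N / Real.log N) ≤ cA A N) →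
    ∀ᶠ X : ℕ in atTop, (X : ℝ) / (Real.log X) ^ (1 - δ) ≤ NA A X := by
  classical
  obtain ⟨K, hK⟩ : ∃ K : ℕ, max 3 (8 / d) ≤ K := exists_nat_ge _
  have hK3 : (3 : ℝ) ≤ K := (le_max_left _ _).trans hK
  have hK3' : 3 ≤ K := by exact_mod_cast hK3
  have hK8 : 8 ≤ d * K := by
    have h1 : 8 / d ≤ K := (le_max_right _ _).trans hK
    rw [div_le_iff₀ hd] at h1
    linarith
  have hlK : 1 ≤ Real.log K := by
    have h1 : Real.exp 1 ≤ K := (Real.exp_one_lt_d9.le.trans (by norm_num)).trans hK3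
    have := Real.log_le_log (Real.exp_pos 1) h1
    rwa [Real.log_exp] at this
  set c : ℝ := 2 / (K * Real.log K) with hc
  have hKl : 3 ≤ K * Real.log K := by nlinarith
  have hc0 : 0 < c := by
    rw [hc]
    positivity
  have hc1 : c ≤ 1 := by
    rw [hc, div_le_one (by linarith)]
    linarith
  refine ⟨c / 4, by positivity, by linarith, fun A hA h => ?_⟩
  obtain ⟨j0, hj0, hj⟩ := block hd (by omega) hK8 hA h
  have hj0' : (1 : ℝ) ≤ j0 := by exact_mod_cast hj0
  set κ : ℝ := d / 4 * (1 / (16 * j0 ^ 2 * Real.log K)) ^ (c / 2) with hκ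
  have hκ0 : 0 < κ := by positivity
  have hlog : Tendsto (fun X : ℕ => Real.log X) atTop atTop :=
    Real.tendsto_log_atTop.comp tendsto_natCast_atTop_atTop
  have e1 : ∀ᶠ X : ℕ in atTop, 1 / κ ≤ (Real.log X) ^ (c / 4) :=
    ((tendsto_rpow_atTop (by positivity : 0 < c / 4)).comp hlog).eventually_ge_atTop _
  have e2 : ∀ᶠ X : ℕ in atTop, 1 ≤ Real.log X := hlog.eventually_ge_atTop _
  filter_upwards [top hd h, e1, e2, eventually_ge_atTop ((K ^ 4) ^ (j0 ^ 2))] with X hX1 hX2 hX3 hX4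
  have hK41 : 1 < K ^ 4 := Nat.one_lt_pow (by norm_num) (by omega)
  have hX0 : X ≠ 0 := by
    have : 0 < (K ^ 4) ^ (j0 ^ 2) := by positivity
    omega
  set ℓ : ℕ := Nat.log (K ^ 4) X with hℓ
  have hℓ1 : j0 ^ 2 ≤ ℓ := by
    rw [hℓ]
    exact Nat.le_log_of_pow_le hK41 hX4
  set J : ℕ := Nat.sqrt ℓ with hJ
  have hJ1 : j0 ≤ J := by
    rw [hJ, Nat.le_sqrt']
    exact hℓ1
  have hJ2 : J ^ 2 ≤ ℓ := Nat.sqrt_le' ℓ
  have hXK : (K ^ (J ^ 2)) ^ 4 ≤ X := by
    calc (K ^ (J ^ 2)) ^ 4 = (K ^ 4) ^ (J ^ 2) := by rw [← pow_mul, ← pow_mul, mul_comm]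
      _ ≤ (K ^ 4) ^ ℓ := Nat.pow_le_pow_right (by omega) hJ2
      _ ≤ X := Nat.pow_log_le_self _ hX0
  obtain ⟨i, hi⟩ := Nat.exists_eq_add_of_le hJ1
  have hB : ∀ m ∈ BB A K j0 i, Ad A m ∧ m ≤ Nat.sqrt X ∧ 0 < m ∧ m ^ 4 ≤ X := by
    intro m hm
    obtain ⟨h1, h2, -⟩ := BB_mem hA (by omega) j0 i m hm
    rw [← hi] at h2
    have hm0 : 0 < m := Nat.pos_of_ne_zero h1.1.ne_zero
    have h3 : m ^ 4 ≤ X := (Nat.pow_le_pow_left h2 4).trans hXK
    refine ⟨h1, ?_, hm0, h3⟩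
    rw [Nat.le_sqrt']
    exact (Nat.pow_le_pow_right hm0 (by norm_num)).trans h3
  have h1 := inj hA (X := X) (BB A K j0 i) fun m hm => ⟨(hB m hm).1, (hB m hm).2.1⟩
  have h2 : d / 4 * (X / Real.log X) * ∑ m ∈ BB A K j0 i, (1 / m : ℝ) ≤
      ((∑ m ∈ BB A K j0 i, (TT A X m).card : ℕ) : ℝ) := by
    rw [Finset.mul_sum, Nat.cast_sum]
    exact Finset.sum_le_sum fun m hm => hX1 m (hB m hm).2.2.1 (hB m hm).2.2.2
  have h3 := BB_sum hA (by omega) hj0 hc0 hc1 hj i
  rw [← hi] at h3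
  have hX0' : (0 : ℝ) < X := by exact_mod_cast Nat.pos_of_ne_zero hX0
  have hL0 : 0 < Real.log X := by linarith
  -- size of J
  have h4 : Real.log X / (16 * j0 ^ 2 * Real.log K) ≤ ((J : ℝ) / j0) ^ 2 := by
    have h5 : ℓ + 1 ≤ (J + 1) ^ 2 := by
      have := Nat.lt_succ_sqrt' ℓ
      rw [← hJ, Nat.succ_eq_add_one] at this
      omega
    have h6 : X < (K ^ 4) ^ (ℓ + 1) := Nat.lt_pow_succ_log_self hK41 X
    have h7 : Real.log X ≤ (ℓ + 1) * (4 * Real.log K) := by
      have h8 : (X : ℝ) ≤ ((K : ℝ) ^ 4) ^ (ℓ + 1) := by exact_mod_cast h6.le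
      have h9 := Real.log_le_log hX0' h8
      rw [Real.log_pow, Real.log_pow] at h9
      push_cast at h9
      linarith
    have h8 : ((ℓ : ℝ) + 1) ≤ (J + 1) ^ 2 := by exact_mod_cast h5
    have hJ0 : (1 : ℝ) ≤ J := by
      have : (j0 : ℝ) ≤ J := by exact_mod_cast hJ1
      linarith
    have h9 : ((J : ℝ) + 1) ^ 2 ≤ 4 * J ^ 2 := by nlinarith
    rw [div_pow, div_le_div_iff₀ (by positivity) (by positivity)]
    have h10 : Real.log X ≤ 4 * J ^ 2 * (4 * Real.log K) := by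
      refine h7.trans ?_
      have : 0 ≤ 4 * Real.log K := by positivity
      exact mul_le_mul_of_nonneg_right (h8.trans h9) this
    calc Real.log X * j0 ^ 2 ≤ 4 * J ^ 2 * (4 * Real.log K) * j0 ^ 2 := by gcongr
      _ = (J : ℝ) ^ 2 * (16 * j0 ^ 2 * Real.log K) := by ring
  have h5 : (Real.log X / (16 * j0 ^ 2 * Real.log K)) ^ (c / 2) ≤ ((J : ℝ) / j0) ^ c := by
    have h6 : ((J : ℝ) / j0) ^ c = (((J : ℝ) / j0) ^ 2) ^ (c / 2) := by
      rw [← Real.rpow_natCast, ← Real.rpow_mul (by positivity)]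
      congr 1
      push_cast
      ring
    rw [h6]
    exact Real.rpow_le_rpow (by positivity) h4 (by positivity)
  have h6 : (Real.log X / (16 * j0 ^ 2 * Real.log K)) ^ (c / 2) =
      (1 / (16 * j0 ^ 2 * Real.log K)) ^ (c / 2) * (Real.log X) ^ (c / 4) *
        (Real.log X) ^ (c / 4) := by
    rw [mul_assoc ((1 / (16 * (j0 : ℝ) ^ 2 * Real.log K)) ^ (c / 2)), ← Real.rpow_add hL0,
      show c / 4 + c / 4 = c / 2 by ring, ← Real.mul_rpow (by positivity) hL0.le]
    congr 1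
    ring
  have h7 : (X : ℝ) / Real.log X ^ (1 - c / 4) = X / Real.log X * Real.log X ^ (c / 4) := by
    rw [Real.rpow_sub hL0, Real.rpow_one]
    field_simp
  rw [h7]
  have h8 : 1 ≤ κ * (Real.log X) ^ (c / 4) := by
    rw [div_le_iff₀ hκ0] at hX2
    linarith
  calc X / Real.log X * Real.log X ^ (c / 4) ≤
        X / Real.log X * Real.log X ^ (c / 4) * (κ * (Real.log X) ^ (c / 4)) := by
        exact le_mul_of_one_le_right (by positivity) h8
    _ = d / 4 * (X / Real.log X) * (Real.log X / (16 * j0 ^ 2 * Real.log K)) ^ (c / 2) := by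
        rw [h6, hκ]
        ring
    _ ≤ d / 4 * (X / Real.log X) * ((J : ℝ) / j0) ^ c := by gcongr
    _ ≤ d / 4 * (X / Real.log X) * ∑ m ∈ BB A K j0 i, (1 / m : ℝ) := by gcongr
    _ ≤ _ := h2.trans (by exact_mod_cast h1)

end Pool.Agent.K4H55.AB.Cnt
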