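import Pool.Agent.K4H55.AB.Main

/-!
The theorem for discriminants, and the counting.
-/

set_option autoImplicit false

open Complex Filter Topology UpperHalfPlane MatrixGroups CongruenceSubgroup
open NumberField IsDedekindDomain H300.HW
open scoped symmDiff

namespace Pool.Agent.K4H55.AB

open Finset Pool.Agent.Y18.BSD Pool.Agent.Y18.LP Pool.Agent.Y18.NF
open Pool.Agent.W263.BSD (pointCount GoodPrime IsLSeries)
open Pool.Agent.H921R2.TatePole
open W165.CE (fac fac_eq pw multipliable_fac ap0 trace_good pw_luc av)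

/-- the class of discriminants -/
structure DC (A : Set ℕ) (pos : Prop) (P : Finset ℕ) (D : ℤ) : Prop where
  sqf : Squarefree D
  one : D % 4 = 1
  adm : ∀ q : ℕ, q.Prime → (q : ℤ) ∣ D → q ∈ A
  pos : pos → 0 < D
  loc : ∀ p ∈ P, jacobiSym p D.natAbs = 1

lemma disc_natAbs (T : Finset ℕ) : (disc T).natAbs = dd T := by
  unfold disc dd
  rw [← Int.natAbsHom_apply, map_prod]
  refine Finset.prod_congr rfl fun q _ => ?_
  rw [Int.natAbsHom_apply, Int.natAbs_mul, Int.natAbs_pow]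
  simp

lemma disc_mod {T : Finset ℕ} (hT : ∀ q ∈ T, q.Prime ∧ q ≠ 2) : disc T % 4 = 1 := by
  classical
  unfold disc
  induction T using Finset.induction_on with
  | empty => simp
  | insert q T hq ih =>
    rw [Finset.prod_insert hq, Int.mul_emod, ih fun p hp => hT p (Finset.mem_insert_of_mem hp)]
    obtain ⟨hq1, hq2⟩ := hT q (Finset.mem_insert_self q T)
    have h1 : q % 2 = 1 := Nat.odd_iff.1 (hq1.odd_of_ne_two hq2)
    have h2 : ((-1 : ℤ) ^ ((q - 1) / 2) * q) % 4 = 1 := by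
      rcases (show q % 4 = 1 ∨ q % 4 = 3 by omega) with h | h
      · have h3 : Even ((q - 1) / 2) := by
          rw [Nat.even_iff]; omega
        rw [h3.neg_one_pow]
        omega
      · have h3 : Odd ((q - 1) / 2) := by
          rw [Nat.odd_iff]; omega
        rw [h3.neg_one_pow]
        omega
    rw [h2]
    norm_num

lemma dd_pf {D : ℤ} (hs : Squarefree D) : dd D.natAbs.primeFactors = D.natAbs := by
  unfold dd
  exact Nat.prod_primeFactors_of_squarefree (Int.squarefree_natAbs.2 hs)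

lemma pf_odd {D : ℤ} (h4 : D % 4 = 1) : ∀ q ∈ D.natAbs.primeFactors, q.Prime ∧ q ≠ 2 := by
  intro q hq
  refine ⟨Nat.prime_of_mem_primeFactors hq, ?_⟩
  rintro rfl
  have := Nat.dvd_of_mem_primeFactors hq
  omega

lemma disc_pf {D : ℤ} (hs : Squarefree D) (h4 : D % 4 = 1) : disc D.natAbs.primeFactors = D := by
  have h1 := disc_natAbs D.natAbs.primeFactors
  rw [dd_pf hs] at h1
  have h2 := disc_mod (pf_odd h4)
  omega

lemma pf_disc {T : Finset ℕ} (hT : ∀ q ∈ T, q.Prime) : (disc T).natAbs.primeFactors = T := by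
  rw [disc_natAbs]
  unfold dd
  exact Nat.primeFactors_prod hT

lemma sqf_disc {T : Finset ℕ} (hT : ∀ q ∈ T, q.Prime) : Squarefree (disc T) := by
  rw [← Int.squarefree_natAbs, disc_natAbs]
  unfold dd
  refine Finset.squarefree_prod_of_pairwise_isCoprime (fun p hp q hq hpq => ?_)
    fun q hq => (hT q hq).prime.squarefree
  exact Nat.coprime_iff_isRelPrime.1 ((Nat.coprime_primes (hT p hp) (hT q hq)).2 hpq)

variable {A : Set ℕ} {pos : Prop} {P : Finset ℕ}

lemma DC.gt {D : ℤ} (h : DC A pos P D) : GT A pos P D.natAbs.primeFactors := by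
  refine ⟨fun q hq => h.adm q (Nat.prime_of_mem_primeFactors hq)
    (Int.natCast_dvd.2 (Nat.dvd_of_mem_primeFactors hq)), fun hp => ?_, fun p hp => ?_⟩
  · rw [disc_pf h.sqf h.one]
    exact h.pos hp
  · rw [dd_pf h.sqf]
    exact h.loc p hp

lemma GT.dc (hA : ∀ q ∈ A, q.Prime ∧ q ≠ 2) {T : Finset ℕ} (h : GT A pos P T) :
    DC A pos P (disc T) := by
  have hT : ∀ q ∈ T, q.Prime := fun q hq => (hA q (h.adm q hq)).1
  refine ⟨sqf_disc hT, disc_mod fun q hq => hA q (h.adm q hq), fun q hq hd => ?_, h.pos,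
    fun p hp => ?_⟩
  · refine h.adm q ?_
    have h1 : q ∈ (disc T).natAbs.primeFactors := by
      rw [Nat.mem_primeFactors]
      exact ⟨hq, Int.natCast_dvd.1 hd, Int.natAbs_ne_zero.2 (disc_ne hT)⟩
    rwa [pf_disc hT] at h1
  · rw [disc_natAbs]
    exact h.loc p hp

theorem dlevel (hA : ∀ q ∈ A, q.Prime ∧ q ≠ 2) (NV : ℤ → Prop) (K : Finset (Finset ℕ))
    (hK : ∀ k ∈ K, GT A pos P k)
    (hcor : ∀ T, GT A pos P T → ∃ k ∈ K, NV (disc (T ∆ k))) :
    ∃ KD : Finset ℤ, KD.card ≤ K.card ∧ (∀ k ∈ KD, DC A pos P k) ∧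
      (∀ D, DC A pos P D → ∃ k ∈ KD, ∃ g D' : ℤ, g ≠ 0 ∧ D' * g ^ 2 = D * k ∧ DC A pos P D' ∧
        NV D') ∧
      ∃ C : ℕ, ∀ X : ℕ, Nat.card {D : ℤ // DC A pos P D ∧ |D| ≤ X} ≤
        C * Nat.card {D : ℤ // DC A pos P D ∧ |D| ≤ C * X ∧ NV D} := by
  classical
  have hKp : ∀ k ∈ K, ∀ q ∈ k, q.Prime ∧ q ≠ 2 := fun k hk q hq => hA q ((hK k hk).adm q hq)
  refine ⟨K.image disc, Finset.card_image_le, ?_, ?_, ?_⟩
  · intro k hk
    obtain ⟨t, ht, rfl⟩ := Finset.mem_image.1 hk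
    exact (hK t ht).dc hA
  · intro D hD
    obtain ⟨k, hk, h1⟩ := hcor _ hD.gt
    refine ⟨disc k, Finset.mem_image_of_mem disc hk, disc (D.natAbs.primeFactors ∩ k), _, ?_, ?_,
      (hD.gt.symm hA (hK k hk)).dc hA, h1⟩
    · exact disc_ne fun q hq => (hKp k hk q (Finset.mem_inter.1 hq).2).1
    · rw [disc_symm, disc_pf hD.sqf hD.one]
  · let M : ℕ := ∑ k ∈ K, dd k
    have hM : ∀ k ∈ K, dd k ≤ M := fun k hk =>
      Finset.single_le_sum (f := fun k => dd k) (fun _ _ => Nat.zero_le _) hk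
    refine ⟨K.card + M, fun X => ?_⟩
    have hfin : Finite {D : ℤ // DC A pos P D ∧ |D| ≤ ((K.card + M : ℕ) : ℤ) * X ∧ NV D} := by
      refine Set.Finite.subset (Set.finite_Icc (-(((K.card + M : ℕ) : ℤ) * X))
        (((K.card + M : ℕ) : ℤ) * X)) ?_
      rintro D ⟨-, h2, -⟩
      exact abs_le.1 h2
    choose! t ht1 ht2 using hcor
    let φ : {D : ℤ // DC A pos P D ∧ |D| ≤ X} →
        K × {D : ℤ // DC A pos P D ∧ |D| ≤ ((K.card + M : ℕ) : ℤ) * X ∧ NV D} := fun D =>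
      ⟨⟨t D.1.natAbs.primeFactors, ht1 _ D.2.1.gt⟩,
        ⟨disc (D.1.natAbs.primeFactors ∆ t D.1.natAbs.primeFactors),
          (D.2.1.gt.symm hA (hK _ (ht1 _ D.2.1.gt))).dc hA, by
            have h1 : |disc (D.1.natAbs.primeFactors ∆ t D.1.natAbs.primeFactors)| =
                ((dd (D.1.natAbs.primeFactors ∆ t D.1.natAbs.primeFactors) : ℕ) : ℤ) := by
              rw [← disc_natAbs, Int.natCast_natAbs]
            rw [h1]
            have h2 := dd_symm D.1.natAbs.primeFactors (t D.1.natAbs.primeFactors)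
            rw [dd_pf D.2.1.sqf] at h2
            have h3 : 0 < dd (D.1.natAbs.primeFactors ∩ t D.1.natAbs.primeFactors) :=
              Nat.pos_of_ne_zero (dd_ne_zero fun q hq =>
                Nat.prime_of_mem_primeFactors (Finset.mem_inter.1 hq).1)
            have h4 : dd (D.1.natAbs.primeFactors ∆ t D.1.natAbs.primeFactors) ≤
                D.1.natAbs * dd (t D.1.natAbs.primeFactors) := by
              rw [← h2]
              exact Nat.le_mul_of_pos_right _ (pow_pos h3 2)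
            have h5 : D.1.natAbs ≤ X := by
              have := D.2.2
              rw [← Int.natCast_natAbs] at this
              exact_mod_cast this
            have h6 : dd (D.1.natAbs.primeFactors ∆ t D.1.natAbs.primeFactors) ≤
                (K.card + M) * X := by
              calc _ ≤ D.1.natAbs * dd (t D.1.natAbs.primeFactors) := h4
                _ ≤ X * M := Nat.mul_le_mul h5 (hM _ (ht1 _ D.2.1.gt))
                _ ≤ (K.card + M) * X := by
                  rw [mul_comm]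
                  exact Nat.mul_le_mul_right X (Nat.le_add_left _ _)
            exact_mod_cast h6, ht2 _ D.2.1.gt⟩⟩
    have hφ : Function.Injective φ := by
      intro D D' h
      have h1 : t D.1.natAbs.primeFactors = t D'.1.natAbs.primeFactors :=
        congrArg (fun x => (x.1 : Finset ℕ)) h
      have h2 : disc (D.1.natAbs.primeFactors ∆ t D.1.natAbs.primeFactors) =
          disc (D'.1.natAbs.primeFactors ∆ t D'.1.natAbs.primeFactors) :=
        congrArg (fun x => (x.2 : ℤ)) h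
      have hp : ∀ D : {D : ℤ // DC A pos P D ∧ |D| ≤ X},
          ∀ q ∈ D.1.natAbs.primeFactors ∆ t D.1.natAbs.primeFactors, q.Prime := fun D q hq =>
        (hA q ((D.2.1.gt.symm hA (hK _ (ht1 _ D.2.1.gt))).adm q hq)).1
      have h3 := congrArg (fun d : ℤ => d.natAbs.primeFactors) h2
      simp only [pf_disc (hp D), pf_disc (hp D')] at h3
      rw [← h1] at h3
      have h4 := symmDiff_left_injective _ h3
      have h5 := congrArg disc h4
      rw [disc_pf D.2.1.sqf D.2.1.one, disc_pf D'.2.1.sqf D'.2.1.one] at h5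
      exact Subtype.ext h5
    have h1 := Nat.card_le_card_of_injective φ hφ
    rw [Nat.card_prod, Nat.card_eq_fintype_card (α := K), Fintype.card_coe] at h1
    exact h1.trans (Nat.mul_le_mul_right _ (Nat.le_add_right _ _))

section
variable {K K' : Type} [Field K] [NumberField K] [Field K'] [NumberField K']

lemma ptv_plE (e : 𝓞 K ≃+* 𝓞 K') (a b : ℤ) (v : HeightOneSpectrum (𝓞 K)) :
    ptv a b (plE e v) = ptv a b v := by
  have h1 := av_plE e a b v
  have h2 := absNorm_plE e v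
  have h3 : av a b (plE e v) = ((Ideal.absNorm (plE e v).asIdeal : ℕ) : ℤ) -
    (ptv a b (plE e v) : ℤ) := rfl
  have h4 : av a b v = ((Ideal.absNorm v.asIdeal : ℕ) : ℤ) - (ptv a b v : ℤ) := rfl
  rw [h3, h4, h2] at h1
  omega

end

section
variable {ι : Type} [Finite ι] (a b : ι → ℤ) (N n : ι → ℕ)
  (K : ι → Type) [∀ i, Field (K i)] [∀ i, NumberField (K i)]
  (f : (i : ι) → CuspForm (Gamma0 (N i) : Subgroup (GL (Fin 2) ℝ)) 2)

/-- the admissible primes -/
def AK : Set ℕ := {q | q.Prime ∧ q ≠ 2 ∧ ∀ i, GoodPrime (a i) (b i) q ∧ ¬ q ∣ n i ∧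
  ∀ v : HeightOneSpectrum (𝓞 (K i)), ((q : ℕ) : 𝓞 (K i)) ∈ v.asIdeal → ¬ 2 ∣ ptv (a i) (b i) v + 1}

/-- the nonvanishing -/
def NVD (D : ℤ) : Prop := ∀ i, ∃ G : ℂ → ℂ, Differentiable ℂ G ∧
  (∀ s : ℂ, 3 / 2 < s.re → HasProd (fac (K := K i) (a i * D ^ 2) (b i * D ^ 3) (N i * D.natAbs)
    (fun p => (jacobiSym p D.natAbs : ℂ) * co (f i) p) s) (G s)) ∧ G 1 ≠ 0

theorem final (hN : ∀ i, N i ≠ 0) (hn : ∀ i, n i ≠ 0) (hΔ : ∀ i, 4 * a i ^ 3 + 27 * b i ^ 2 ≠ 0)
    (hf : ∀ i, IsFormOf (a i) (b i) (N i) (f i)) (hnN : ∀ i, (n i).Coprime (N i))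
    (hK : ∀ i, Nonempty (K i →ₐ[ℚ] CyclotomicField (n i) ℚ)) (hbase : NVD a b N K f 1) :
    ∃ V : ℕ, ∀ (pos : Prop) (P : Finset ℕ), ∃ KD : Finset ℤ, KD.card ≤ V ∧
      (∀ k ∈ KD, DC (AK a b n K) pos P k) ∧
      (∀ D, DC (AK a b n K) pos P D → ∃ k ∈ KD, ∃ g D' : ℤ, g ≠ 0 ∧ D' * g ^ 2 = D * k ∧
        DC (AK a b n K) pos P D' ∧ NVD a b N K f D') ∧
      ∃ C : ℕ, ∀ X : ℕ, Nat.card {D : ℤ // DC (AK a b n K) pos P D ∧ |D| ≤ X} ≤
        C * Nat.card {D : ℤ // DC (AK a b n K) pos P D ∧ |D| ≤ C * X ∧ NVD a b N K f D} := by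
  classical
  have i1 : ∀ i, NeZero (N i) := fun i => ⟨hN i⟩
  have i2 : ∀ i, NeZero (n i) := fun i => ⟨hn i⟩
  have i3 : ∀ i, NeZero ((n i : ℕ) : ℚ) := fun i => ⟨Nat.cast_ne_zero.2 (hn i)⟩
  have i4 : ∀ i, IsCyclotomicExtension {n i} ℚ (CyclotomicField (n i) ℚ) :=
    fun i => CyclotomicField.isCyclotomicExtension (n i) ℚ
  let φ : (i : ι) → K i →ₐ[ℚ] CyclotomicField (n i) ℚ := fun i => (hK i).some
  let F : (i : ι) → IntermediateField ℚ (CyclotomicField (n i) ℚ) := fun i => (φ i).fieldRange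
  let e : (i : ι) → 𝓞 (K i) ≃+* 𝓞 (F i) := fun i =>
    RingOfIntegers.mapRingEquiv (AlgEquiv.ofInjectiveField (φ i)).toRingEquiv
  have hAeq : AK a b n K = AA a b n (fun i => CyclotomicField (n i) ℚ) F := by
    ext q
    constructor
    · rintro ⟨h1, h2, h3⟩
      refine ⟨h1, h2, fun i => ⟨(h3 i).1, (h3 i).2.1, fun v hv => ?_⟩⟩
      have h4 := (h3 i).2.2 ((plE (e i)).symm v) (by
        have h5 : v = plE (e i) ((plE (e i)).symm v) := ((plE (e i)).apply_symm_apply v).symm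
        rw [h5, mem_plE, map_natCast] at hv
        exact hv)
      rw [← ptv_plE (e i), (plE (e i)).apply_symm_apply] at h4
      exact h4
    · rintro ⟨h1, h2, h3⟩
      refine ⟨h1, h2, fun i => ⟨(h3 i).1, (h3 i).2.1, fun v hv => ?_⟩⟩
      have h4 := (h3 i).2.2 (plE (e i) v) (by
        rw [mem_plE, map_natCast]
        exact hv)
      rwa [ptv_plE] at h4
  have hbase' : ∀ i, ∃ G : ℂ → ℂ, Differentiable ℂ G ∧ (∀ s : ℂ, 3 / 2 < s.re →
      HasProd (fac (K := F i) (a i) (b i) (N i) (co (f i)) s) (G s)) ∧ G 1 ≠ 0 := by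
    intro i
    obtain ⟨G, h1, h2, h3⟩ := hbase i
    refine ⟨G, h1, fun s hs => hasProd_plE (e i) _ _ _ _ _ _ ?_, h3⟩
    have h4 := h2 s hs
    have h5 : (fun p : ℕ => (jacobiSym p (1 : ℤ).natAbs : ℂ) * co (f i) p) = co (f i) := by
      funext p
      simp
    rw [h5, one_pow, one_pow, mul_one, mul_one, Int.natAbs_one, mul_one] at h4
    exact h4
  obtain ⟨V, hV⟩ := main a b N n (fun i => CyclotomicField (n i) ℚ) F f hΔ hf hnN hbase'
  refine ⟨V, fun pos P => ?_⟩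
  obtain ⟨KS, h1, h2, h3⟩ := hV pos P
  rw [← hAeq] at h2 h3
  have hA : ∀ q ∈ AK a b n K, q.Prime ∧ q ≠ 2 := fun q hq => ⟨hq.1, hq.2.1⟩
  obtain ⟨KD, h4, h5, h6, h7⟩ := dlevel hA (NVD a b N K f) KS h2 (fun T hT => by
    obtain ⟨k, hk, h4⟩ := h3 T hT
    refine ⟨k, hk, fun i => ?_⟩
    obtain ⟨G, h5, h6, h7⟩ := h4 i
    refine ⟨G, h5, fun s hs => hasProd_plE (e i).symm _ _ _ _ _ _ ?_, h7⟩
    have h8 := h6 s hs
    rw [disc_natAbs]
    exact h8)
  exact ⟨KD, h4.trans h1, h5, h6, h7⟩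

end

end Pool.Agent.K4H55.AB
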