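import Pool.Agent.K4H55.AB.Frb
import Pool.Agent.K4H55.AB.Cnt
import Pool.Agent.K4H55.AB.Fin

/-!
The admissible primes have positive density.
-/

set_option autoImplicit false

open NumberField IsDedekindDomain Filter Topology

namespace Pool.Agent.K4H55.AB

open Pool.Agent.W569.FM Pool.Agent.Y142 Pool.Agent.W401.Cheb
open Pool.Agent.W263.BSD (GoodPrime)
open Pool.Agent

/-- the primes with a Frobenius element in the coset `g U` -/
def X0 (U : Subgroup (GF ℚ)) (g : GF ℚ) : Set ℕ := {q | q.Prime ∧ ∃ (P : Ideal (OO ℚ)) (σ : GF ℚ),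
  P.IsMaximal ∧ (q : OO ℚ) ∈ P ∧ FrobAt q P σ ∧ g⁻¹ * σ ∈ U}

lemma pi_ge : ∀ᶠ N : ℕ in atTop, (N : ℝ) / Real.log N ≤ 2 * Nat.primeCounting N := by
  have h1 := Pool.Agent.Helper923.PNT.pi_tendsto.comp (tendsto_natCast_atTop_atTop (R := ℝ))
  have h2 := h1.eventually_const_le (show (1 / 2 : ℝ) < 1 by norm_num)
  filter_upwards [h2, eventually_ge_atTop 3] with N hN hN3
  simp only [Function.comp, Nat.floor_natCast] at hN
  have h3 : (0 : ℝ) < N := by
    have : 0 < N := by omega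
    exact_mod_cast this
  have h4 : 0 < Real.log N := Real.log_pos (by exact_mod_cast (by omega : 1 < N))
  rw [le_div_iff₀ h3] at hN
  rw [div_le_iff₀ h4]
  linarith

theorem density_lower (U : Subgroup (GF ℚ)) [U.Normal] (hU : IsOpen (U : Set (GF ℚ))) (g : GF ℚ) :
    ∃ d : ℝ, 0 < d ∧ ∀ᶠ N : ℕ in atTop, d * (N / Real.log N) ≤ Cnt.cA (X0 U g) N := by
  classical
  set C : Set (GF ℚ) := {σ | ∃ τ : GF ℚ, (τ * g * τ⁻¹)⁻¹ * σ ∈ U} with hCdef
  have hC : ∀ σ ∈ C, ∀ τ : GF ℚ, τ * σ * τ⁻¹ ∈ C := by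
    rintro σ ⟨α, hα⟩ τ
    refine ⟨τ * α, ?_⟩
    have h1 : (τ * α * g * (τ * α)⁻¹)⁻¹ * (τ * σ * τ⁻¹) = τ * ((α * g * α⁻¹)⁻¹ * σ) * τ⁻¹ := by
      group
    rw [h1]
    exact Subgroup.Normal.conj_mem inferInstance _ hα τ
  have hCU : ∀ σ ∈ C, ∀ u ∈ U, σ * u ∈ C := by
    rintro σ ⟨α, hα⟩ u hu
    refine ⟨α, ?_⟩
    rw [← mul_assoc]
    exact U.mul_mem hα hu
  have hX : ∀ p : ℕ, p.Prime → ∀ P : Ideal (OO ℚ), P.IsMaximal → (p : OO ℚ) ∈ P →
      ∀ σ ∈ C, FrobAt p P σ → p ∈ X0 U g := by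
    rintro p hp P hP hpP σ ⟨α, hα⟩ hσ
    -- conjugate
    set P' : Ideal (OO ℚ) := P.comap (MulSemiringAction.toRingHom (GF ℚ) (OO ℚ) α) with hP'def
    have hmem : ∀ x, x ∈ P' ↔ α • x ∈ P := fun x => Iff.rfl
    have hP' : P'.IsMaximal := by
      apply Ideal.comap_isMaximal_of_surjective
      intro y
      exact ⟨α⁻¹ • y, by
        change α • α⁻¹ • y = y
        rw [smul_inv_smul]⟩
    have hpP' : (p : OO ℚ) ∈ P' := by
      rw [hmem]
      have : α • (p : OO ℚ) = (p : OO ℚ) := map_natCast (MulSemiringAction.toRingHom (GF ℚ) (OO ℚ) α) p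
      rw [this]
      exact hpP
    have hF : FrobAt p P' (α⁻¹ * σ * α) := by
      intro x
      rw [hmem, smul_sub, smul_pow', smul_smul]
      have h1 := hσ (α • x)
      rw [smul_smul] at h1
      have h2 : α * (α⁻¹ * σ * α) = σ * α := by group
      rw [h2]
      exact h1
    refine ⟨hp, P', α⁻¹ * σ * α, hP', hpP', hF, ?_⟩
    have h1 : g⁻¹ * (α⁻¹ * σ * α) = α⁻¹ * ((α * g * α⁻¹)⁻¹ * σ) * α⁻¹⁻¹ := by group
    rw [h1]
    exact Subgroup.Normal.conj_mem inferInstance _ hα α⁻¹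
  have h1 := Y142.chebK ℚ U hU C hC hCU
  have hfin : Finite (GF ℚ ⧸ U) := Subgroup.quotient_finite_of_isOpen U hU
  have h6 : (0 : ℝ) < Nat.card (GF ℚ ⧸ U) := by exact_mod_cast Nat.card_pos
  have h5 : 0 < ((QuotientGroup.mk : GF ℚ → GF ℚ ⧸ U) '' C).ncard := by
    rw [Set.ncard_pos (Set.toFinite _)]
    refine ⟨_, g, ⟨1, ?_⟩, rfl⟩
    have : (1 * g * 1⁻¹)⁻¹ * g = 1 := by group
    rw [this]
    exact U.one_mem
  set d : ℝ := (((QuotientGroup.mk : GF ℚ → GF ℚ ⧸ U) '' C).ncard : ℝ) / (Nat.card (GF ℚ ⧸ U) : ℝ)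
    with hd
  have hd0 : 0 < d := by
    rw [hd]
    have : (0 : ℝ) < (((QuotientGroup.mk : GF ℚ → GF ℚ ⧸ U) '' C).ncard : ℝ) := by exact_mod_cast h5
    positivity
  have key : ∀ v : HeightOneSpectrum (𝓞 ℚ), (∃ σ ∈ C, IsFrob v σ) →
      v.asIdeal = W571.FM.pl (Ideal.absNorm v.asIdeal) ∧
        Ideal.absNorm v.asIdeal ∈ X0 U g := by
    rintro v ⟨σ, hσC, Q, hQ, hQv, hσ⟩
    obtain ⟨q, hq, hqQ⟩ := W569.FM.exists_char Q hQ
    have h2 : v.asIdeal = W571.FM.pl q := by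
      rw [← hQv]
      exact W571.FM.cm_eq hq hQ hqQ
    have h3 : Ideal.absNorm v.asIdeal = q := by rw [h2, W571.FM.absNorm_pl]
    rw [h3] at hσ ⊢
    exact ⟨h2, hX q hq Q hQ hqQ σ hσC hσ⟩
  refine ⟨d / 4, by positivity, ?_⟩
  filter_upwards [h1.eventually_const_le (show d / 2 < d by linarith), pi_ge,
    Nat.tendsto_primeCounting.eventually_gt_atTop 0] with n hn hn1 hn0
  unfold dens at hn
  have h3 : Nat.card {v : HeightOneSpectrum (𝓞 ℚ) // Ideal.absNorm v.asIdeal ≤ n ∧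
      ∃ σ ∈ C, IsFrob v σ} ≤ Cnt.cA (X0 U g) n := by
    unfold Cnt.cA
    rw [← Fintype.card_coe, ← Nat.card_eq_fintype_card]
    refine Nat.card_le_card_of_injective (fun v => ⟨Ideal.absNorm v.1.asIdeal, ?_⟩) ?_
    · rw [Finset.mem_filter, Finset.mem_range]
      exact ⟨Nat.lt_succ_of_le v.2.1, (key v.1 v.2.2).2⟩
    · intro v w hvw
      apply Subtype.ext
      apply HeightOneSpectrum.ext
      have h4 : Ideal.absNorm v.1.asIdeal = Ideal.absNorm w.1.asIdeal := congrArg Subtype.val hvw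
      rw [(key v.1 v.2.2).1, (key w.1 w.2.2).1, h4]
  have h4 : (0 : ℝ) < (Nat.primeCounting n : ℝ) := by exact_mod_cast hn0
  rw [le_div_iff₀ h4] at hn
  have h7 : (Nat.card {v : HeightOneSpectrum (𝓞 ℚ) // Ideal.absNorm v.asIdeal ≤ n ∧
      ∃ σ ∈ C, IsFrob v σ} : ℝ) ≤ Cnt.cA (X0 U g) n := by exact_mod_cast h3
  have h8 : d / 4 * (n / Real.log n) ≤ d / 4 * (2 * Nat.primeCounting n) := by gcongr
  linarith

lemma cA_le_add {A A' B : Set ℕ} (hB : B.Finite) (h : ∀ q ∈ A, q ∈ A' ∨ q ∈ B) (N : ℕ) :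
    Cnt.cA A N ≤ Cnt.cA A' N + hB.toFinset.card := by
  classical
  unfold Cnt.cA
  refine le_trans (Finset.card_le_card ?_) (Finset.card_union_le _ _)
  intro q hq
  rw [Finset.mem_filter] at hq
  rw [Finset.mem_union, Finset.mem_filter, Set.Finite.mem_toFinset]
  rcases h q hq.2 with h | h
  · exact Or.inl ⟨hq.1, h⟩
  · exact Or.inr h

lemma cA_mono {A A' : Set ℕ} (h : A ⊆ A') (N : ℕ) : Cnt.cA A N ≤ Cnt.cA A' N := by
  classical
  unfold Cnt.cA
  exact Finset.card_le_card fun q hq => by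
    rw [Finset.mem_filter] at hq ⊢
    exact ⟨hq.1, h hq.2⟩

lemma remove {A : Set ℕ} {d : ℝ} (hd : 0 < d)
    (h : ∀ᶠ N : ℕ in atTop, d * (N / Real.log N) ≤ Cnt.cA A N) {B : Set ℕ} (hB : B.Finite) :
    ∀ᶠ N : ℕ in atTop, d / 2 * (N / Real.log N) ≤ Cnt.cA (A \ B) N := by
  classical
  have h1 : Tendsto (fun N : ℕ => d / 2 * ((N : ℝ) / Real.log N)) atTop atTop := by
    apply Tendsto.const_mul_atTop (by positivity)
    have h2 := Real.isLittleO_log_id_atTop.comp_tendsto (tendsto_natCast_atTop_atTop (R := ℝ))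
    have h3 : Tendsto (fun N : ℕ => Real.log N / (N : ℝ)) atTop (𝓝 0) := h2.tendsto_div_nhds_zero
    have h4 : Tendsto (fun N : ℕ => Real.log N / (N : ℝ)) atTop (𝓝[>] 0) := by
      apply tendsto_nhdsWithin_of_tendsto_nhds_of_eventually_within _ h3
      filter_upwards [eventually_ge_atTop 2] with N hN
      have h5 : 0 < Real.log N := Real.log_pos (by exact_mod_cast (by omega : 1 < N))
      have h6 : (0 : ℝ) < N := by exact_mod_cast (by omega : 0 < N)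
      exact div_pos h5 h6
    have h5 := h4.inv_tendsto_nhdsGT_zero
    refine h5.congr fun N => ?_
    simp [inv_div]
  filter_upwards [h, h1.eventually_ge_atTop (hB.toFinset.card : ℝ)] with N hN hN1
  have h2 : Cnt.cA A N ≤ Cnt.cA (A \ B) N + hB.toFinset.card := by
    refine cA_le_add hB (fun q hq => ?_) N
    by_cases h : q ∈ B
    · exact Or.inr h
    · exact Or.inl ⟨hq, h⟩
  have h3 : (Cnt.cA A N : ℝ) ≤ Cnt.cA (A \ B) N + hB.toFinset.card := by exact_mod_cast h2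
  linarith

section
variable {ι : Type} [Finite ι] (a b : ι → ℤ) (n : ι → ℕ)
  (K : ι → Type) [∀ i, Field (K i)] [∀ i, NumberField (K i)]

theorem adm_density (hΔ : ∀ i, 4 * a i ^ 3 + 27 * b i ^ 2 ≠ 0)
    (hn : ∀ i, n i ≠ 0) (g : GF ℚ) (hgK : ∀ i, ∀ τ : GF ℚ, τ⁻¹ * g * τ ∈ Pool.Agent.Y142.HH ℚ (K i))
    (hg : ∀ i, ∀ t : AlgebraicClosure ℚ, Rt (a i) (b i) t → g t ≠ t) :
    ∃ d : ℝ, 0 < d ∧ ∀ B : Set ℕ, B.Finite → ∀ᶠ N : ℕ in atTop,
      d * (N / Real.log N) ≤ Cnt.cA (AK a b n K \ B) N := by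
  classical
  -- the field of the points of order two
  let S : Set (AlgebraicClosure ℚ) := {t | ∃ i, Rt (a i) (b i) t}
  have hS : S.Finite := by
    choose t1 t2 t3 h1 h2 h3 hsp using fun i => exists_split (a i) (b i) (AlgebraicClosure ℚ)
    refine ((Set.finite_range t1).union ((Set.finite_range t2).union (Set.finite_range t3))).subset ?_
    rintro t ⟨i, ht⟩
    unfold Rt at ht
    rw [hsp] at ht
    rcases mul_eq_zero.1 ht with h4 | h4
    · rcases mul_eq_zero.1 h4 with h4 | h4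
      · exact Or.inl ⟨i, (sub_eq_zero.1 h4).symm⟩
      · exact Or.inr (Or.inl ⟨i, (sub_eq_zero.1 h4).symm⟩)
    · exact Or.inr (Or.inr ⟨i, (sub_eq_zero.1 h4).symm⟩)
  have hSf : Finite S := hS.to_subtype
  let E : IntermediateField ℚ (AlgebraicClosure ℚ) := IntermediateField.adjoin ℚ S
  have hE : FiniteDimensional ℚ E := IntermediateField.finiteDimensional_adjoin fun t _ =>
    ((AlgebraicClosure.isAlgebraic ℚ).isAlgebraic t).isIntegral
  let W1 : Subgroup (GF ℚ) := E.fixingSubgroup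
  have hW1 : IsOpen (W1 : Set (GF ℚ)) := E.fixingSubgroup_isOpen
  let W : Subgroup (GF ℚ) := W1 ⊓ ⨅ i, Pool.Agent.Y142.HH ℚ (K i)
  have hW : IsOpen (W : Set (GF ℚ)) := by
    have e1 : (W : Set (GF ℚ)) = (W1 : Set (GF ℚ)) ∩
        ⋂ i, (Pool.Agent.Y142.HH ℚ (K i) : Set (GF ℚ)) := by
      rw [Subgroup.coe_inf, Subgroup.coe_iInf]
    rw [e1]
    exact hW1.inter (isOpen_iInter_of_finite fun i => isOpen_HH)
  have hWf : Finite (GF ℚ ⧸ W) := Subgroup.quotient_finite_of_isOpen W hW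
  have hWi : W.FiniteIndex := Subgroup.finiteIndex_of_finite_quotient
  have hWc : IsClosed (W : Set (GF ℚ)) := W.isClosed_of_isOpen hW
  have hU : IsOpen (W.normalCore : Set (GF ℚ)) :=
    Subgroup.isOpen_of_isClosed_of_finiteIndex _ (W.normalCore_isClosed hWc)
  obtain ⟨d, hd, h1⟩ := density_lower W.normalCore hU g
  refine ⟨d / 2, by positivity, fun B hB => ?_⟩
  -- the finite set of the bad primes
  let B0 : Set ℕ := {2} ∪ ⋃ i, {q | (q : ℤ) ∣ 2 * (4 * a i ^ 3 + 27 * b i ^ 2) ∨ q ∣ n i}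
  have hB0 : B0.Finite := by
    refine (Set.finite_singleton 2).union (Set.finite_iUnion fun i => ?_)
    refine Set.Finite.subset (Set.finite_Iic
      ((2 * (4 * a i ^ 3 + 27 * b i ^ 2)).natAbs + n i)) ?_
    rintro q (h | h)
    · have h2 := Nat.le_of_dvd (Int.natAbs_pos.2 (mul_ne_zero two_ne_zero (hΔ i)))
        (Int.natCast_dvd.1 h)
      exact h2.trans (Nat.le_add_right _ _)
    · exact (Nat.le_of_dvd (Nat.pos_of_ne_zero (hn i)) h).trans (Nat.le_add_left _ _)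
  filter_upwards [remove hd h1 (hB.union hB0)] with N hN
  refine hN.trans ?_
  have h2 : X0 W.normalCore g \ (B ∪ B0) ⊆ AK a b n K \ B := by
    rintro q ⟨⟨hq, P, σ, hP, hqP, hσ, hu⟩, hqB⟩
    rw [Set.mem_union, not_or] at hqB
    refine ⟨?_, hqB.1⟩
    have hB1 : q ≠ 2 ∧ ∀ i, ¬ (q : ℤ) ∣ 2 * (4 * a i ^ 3 + 27 * b i ^ 2) ∧ ¬ q ∣ n i := by
      have h3 := hqB.2
      simp only [B0, Set.mem_union, Set.mem_singleton_iff, Set.mem_iUnion, not_or, not_exists] at h3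
      exact ⟨h3.1, fun i => not_or.1 (h3.2 i)⟩
    refine ⟨hq, hB1.1, fun i => ⟨⟨hq, fun h => (hB1.2 i).1 ?_⟩, (hB1.2 i).2, fun v hv => ?_⟩⟩
    · have e : 2 * (4 * a i ^ 3 + 27 * b i ^ 2) = -(2 * (-4 * a i ^ 3 - 27 * b i ^ 2)) := by ring
      rw [e]
      exact (Int.dvd_neg).2 h
    · apply ptv_even hq hB1.1 v hv
      refine no_root hq hP hqP hσ (hB1.2 i).1 (k := 1) ?_ ?_ v hv
      · intro τ
        have h4 : τ⁻¹ * σ ^ 1 * τ = (τ⁻¹ * g * τ) * (τ⁻¹ * (g⁻¹ * σ) * τ) := by group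
        rw [h4]
        refine Subgroup.mul_mem _ (hgK i τ) ?_
        have h5 : τ⁻¹ * (g⁻¹ * σ) * τ ∈ W := by
          have h6 := hu τ⁻¹
          rwa [inv_inv] at h6
        exact Subgroup.mem_iInf.1 (Subgroup.mem_inf.1 h5).2 i
      · intro t ht
        rw [pow_one]
        have h4 : g⁻¹ * σ ∈ W := W.normalCore_le hu
        have h5 : (g⁻¹ * σ) t = t := by
          have h6 := (IntermediateField.mem_fixingSubgroup_iff E (g⁻¹ * σ)).1
            (Subgroup.mem_inf.1 h4).1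
          exact h6 t (IntermediateField.subset_adjoin ℚ S ⟨i, ht⟩)
        have h6 : σ t = g t := by
          have h7 : g ((g⁻¹ * σ) t) = σ t := by
            show (g * (g⁻¹ * σ)) t = σ t
            rw [mul_inv_cancel_left]
          rw [← h7, h5]
        rw [h6]
        exact hg i t ht
  exact_mod_cast cA_mono h2 N

end

end Pool.Agent.K4H55.AB
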