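import Pool.Agent.K4H55.AB.Quad
import Pool.Agent.Y18.LP.Core

/-!
The `L`-function of a quadratic twist over an abelian field.
-/

set_option autoImplicit false

open Complex Filter Topology UpperHalfPlane MatrixGroups CongruenceSubgroup
open NumberField IsDedekindDomain H300.HW
open scoped symmDiff

namespace Pool.Agent.K4H55.AB

open Finset Pool.Agent.Y18.BSD Pool.Agent.Y18.LP Pool.Agent.Y18.NF
open Pool.Agent.W263.BSD (pointCount GoodPrime IsLSeries)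
open Pool.Agent.H921R2.TatePole
open Pool.Agent.Y702.L (pv local_quad)
open W165.CE (fac fac_eq pw multipliable_fac ap0 trace_good pw_luc av)
open Pool.Agent.TH940 (Fr)

/-- the unit homomorphism of the primitive character -/
noncomputable def hp {n : ℕ} (χ : DirichletCharacter ℂ n) : (ZMod χ.conductor)ˣ →* ℂˣ :=
  χ.primitiveCharacter.toUnitHom

lemma ofUnit_hp {n : ℕ} (χ : DirichletCharacter ℂ n) :
    (MulChar.ofUnitHom (hp χ) : DirichletCharacter ℂ χ.conductor) = χ.primitiveCharacter := by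
  apply MulChar.ext
  intro u
  unfold hp
  rw [MulChar.ofUnitHom_coe, MulChar.coe_toUnitHom]

lemma hp_prim {n : ℕ} [NeZero n] (χ : DirichletCharacter ℂ n) : DirichletCharacter.IsPrimitive
    (MulChar.ofUnitHom (hp χ) : DirichletCharacter ℂ χ.conductor) := by
  rw [ofUnit_hp]
  exact χ.primitiveCharacter_isPrimitive

lemma hp_val {n : ℕ} (χ : DirichletCharacter ℂ n) (p : ℕ) :
    (MulChar.ofUnitHom (hp χ) : DirichletCharacter ℂ χ.conductor) ((p : ℕ) : ZMod χ.conductor) =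
      pv n χ p := by
  rw [ofUnit_hp]
  rfl

/-- the coefficients of the twist -/
noncomputable def cD {N : ℕ} (f : CuspForm (Gamma0 N : Subgroup (GL (Fin 2) ℝ)) 2) (T : Finset ℕ)
    (p : ℕ) : ℂ := (jacobiSym p (dd T) : ℂ) * co f p

lemma entire_unique {K : Type} [Field K] [NumberField K] {g : ℂ → HeightOneSpectrum (𝓞 K) → ℂ}
    {F G : ℂ → ℂ} (hF : Differentiable ℂ F) (hG : Differentiable ℂ G)
    (h1 : ∀ s : ℂ, 3 / 2 < s.re → HasProd (g s) (F s))
    (h2 : ∀ s : ℂ, 3 / 2 < s.re → HasProd (g s) (G s)) : F = G := by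
  have h3 : ∀ s : ℂ, (3 : ℝ) / 2 < s.re → F s = G s := fun s hs => (h1 s hs).unique (h2 s hs)
  have hA : AnalyticOnNhd ℂ F Set.univ := fun s _ => hF.analyticAt s
  have hB : AnalyticOnNhd ℂ G Set.univ := fun s _ => hG.analyticAt s
  have hev : F =ᶠ[𝓝 (2 : ℂ)] G := by
    have hopen : IsOpen {s : ℂ | (3 : ℝ) / 2 < s.re} := isOpen_lt continuous_const Complex.continuous_re
    filter_upwards [hopen.mem_nhds (show (2 : ℂ) ∈ {s : ℂ | (3 : ℝ) / 2 < s.re} by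
      show (3 : ℝ) / 2 < (2 : ℂ).re
      norm_num)] with s hs
    exact h3 s hs
  exact hA.eq_of_eventuallyEq hB hev

variable {N : ℕ} [NeZero N] {a b : ℤ} {f : CuspForm (Gamma0 N : Subgroup (GL (Fin 2) ℝ)) 2}

lemma ez_tw {T : Finset ℕ} (hT : ∀ q ∈ T, q.Prime ∧ q ≠ 2) (z s : ℂ) {p : ℕ} (hp : p.Prime) :
    ez (N * dd T) (cD f T) z s p = ez N (co f) (z * cvl (cT T) p) s p := by
  rw [cvl_cT hT]
  unfold ez cD
  congr 1
  have hTp : ∀ q ∈ T, q.Prime := fun q hq => (hT q hq).1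
  have : NeZero (dd T) := ⟨dd_ne_zero hTp⟩
  by_cases hpT : p ∣ dd T
  · have h1 : jacobiSym (p : ℤ) (dd T) = 0 := by
      rw [jacobiSym.eq_zero_iff_not_coprime, Int.gcd_natCast_natCast]
      intro h7
      exact hp.one_lt.ne' (Nat.Coprime.eq_one_of_dvd h7 hpT)
    rw [h1, if_pos (hpT.mul_left N)]
    simp
  · have h1 : (jacobiSym (p : ℤ) (dd T) : ℂ) ^ 2 = 1 := by
      have h2 : Int.gcd (p : ℤ) (dd T) = 1 := by
        rw [Int.gcd_natCast_natCast]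
        exact (Nat.Prime.coprime_iff_not_dvd hp).2 hpT
      exact_mod_cast congrArg (fun x : ℤ => (x : ℂ)) (jacobiSym.sq_one h2)
    have h2 : (p ∣ N * dd T) ↔ p ∣ N := by
      rw [hp.dvd_mul]
      tauto
    simp only [h2]
    rw [mul_pow, h1]
    ring

omit [NeZero N] in
lemma form_tw (hf : IsFormOf a b N f) {T : Finset ℕ} (hT : ∀ q ∈ T, GoodPrime a b q) (p : ℕ)
    (hp : p.Prime)
    (hd : ¬ (p : ℤ) ∣ 2 * (4 * (a * disc T ^ 2) ^ 3 + 27 * (b * disc T ^ 3) ^ 2)) :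
    ¬ p ∣ N * dd T ∧ cD f T p = ((ap0 (a * disc T ^ 2) (b * disc T ^ 3) p : ℤ) : ℂ) := by
  have hTp : ∀ q ∈ T, q.Prime := fun q hq => (hT q hq).1
  have hTp2 : ∀ q ∈ T, q.Prime ∧ q ≠ 2 := fun q hq => ⟨(hT q hq).1, good_ne_two (hT q hq)⟩
  have h1 : GoodPrime (a * disc T ^ 2) (b * disc T ^ 3) p := ⟨hp, fun h => hd (by
    have e : 2 * (4 * (a * disc T ^ 2) ^ 3 + 27 * (b * disc T ^ 3) ^ 2) =
      -(2 * (-4 * (a * disc T ^ 2) ^ 3 - 27 * (b * disc T ^ 3) ^ 2)) := by ring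
    rw [e]
    exact (Int.dvd_neg).2 h)⟩
  obtain ⟨hpg, hpT⟩ := (good_twist hTp p).1 h1
  obtain ⟨hpN, hcp⟩ := hf.points p hpg
  have : Fact p.Prime := ⟨hp⟩
  have hp2 : p ≠ 2 := good_ne_two hpg
  have hpd : ¬ p ∣ dd T := by
    intro h
    unfold dd at h
    obtain ⟨q, hq, hpq⟩ := (hp.prime.dvd_finsetProd_iff _).1 h
    exact hpT (by rwa [(Nat.prime_dvd_prime_iff_eq hp (hTp q hq)).1 hpq])
  refine ⟨fun h => ?_, ?_⟩
  · rcases (hp.dvd_mul).1 h with h | h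
    · exact hpN h
    · exact hpd h
  · have hd0 : ((disc T : ℤ) : ZMod p) ≠ 0 := by
      rw [Ne, ZMod.intCast_zmod_eq_zero_iff_dvd]
      exact fun h6 => hpT ((dvd_disc hTp hp).1 h6)
    have h6 := twist_count p hp2 a b (disc T) hd0
    rw [recip hTp2 p hp2 hpT] at h6
    unfold cD ap0
    rw [hcp]
    have h7 := congrArg (fun x : ℤ => (x : ℂ)) h6
    unfold pointCount at h7 ⊢
    push_cast at h7 ⊢
    rw [h7]

section field

variable (n : ℕ) [NeZero n] (L : Type) [Field L] [NumberField L] [IsCyclotomicExtension {n} ℚ L]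
    (F : IntermediateField ℚ L)

open Classical in
/-- **The `L`-function of the twist over `F`.** -/
theorem fieldTw (hΔ : 4 * a ^ 3 + 27 * b ^ 2 ≠ 0) (hf : IsFormOf a b N f) (hnN : n.Coprime N)
    {T : Finset ℕ} (hT : ∀ q ∈ T, GoodPrime a b q ∧ ¬ q ∣ n) :
    ∃ G : ℂ → ℂ, Differentiable ℂ G ∧ (∀ s : ℂ, 3 / 2 < s.re →
      HasProd (fac (K := F) (a * disc T ^ 2) (b * disc T ^ 3) (N * dd T) (cD f T) s) (G s)) ∧
      (G 1 ≠ 0 ↔ ∀ χ : YY n L F, bth (bv f) (hp χ.1)⁻¹ (cT T) ≠ 0) := by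
  obtain ⟨w, hnf, hfr⟩ := hf.newf
  have hTp2 : ∀ q ∈ T, q.Prime ∧ q ≠ 2 := fun q hq => ⟨(hT q hq).1.1, good_ne_two (hT q hq).1⟩
  have hTg : ∀ q ∈ T, GoodPrime a b q := fun q hq => (hT q hq).1
  have h1 : ∀ χ : DirichletCharacter ℂ n, ∃ G : ℂ → ℂ, Differentiable ℂ G ∧
      (∀ s : ℂ, 3 / 2 < s.re → HasProd (fun p : Nat.Primes =>
        ez (N * dd T) (cD f T) (pv n χ p) s p) (G s)) ∧
      (bth (bv f) (hp χ)⁻¹ (cT T) ≠ 0 ↔ G 1 ≠ 0) := by
    intro χ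
    have hc0 : NeZero χ.conductor := ⟨χ.conductor_ne_zero⟩
    have hcn : χ.conductor ∣ n := χ.conductor_dvd_level
    obtain ⟨G, hG1, hG2, hG3⟩ := twH hnf hfr hf.cf (hp_prim χ) (hnN.coprime_dvd_left hcn)
      (c := cT T) cT_fin (fun q hq => by
        rw [sp_cT hTp2] at hq
        refine ⟨(hTp2 q hq).1, (hf.points q (hTg q hq)).1, ?_⟩
        rw [Nat.Prime.coprime_iff_not_dvd (hTp2 q hq).1]
        exact fun h => (hT q hq).2 (h.trans hcn))
    refine ⟨G, hG1, fun s hs => ?_, ?_⟩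
    · refine (congrArg (fun g => HasProd g (G s)) (funext fun p : Nat.Primes => ?_)).mp (hG2 s hs)
      rw [hp_val, ez_tw hTp2 (pv n χ p) s p.2]
    · rw [cT_inv hTp2] at hG3
      exact hG3
  choose G hG1 hG2 hG3 using h1
  refine ⟨fun s => ∏ χ : YY n L F, G χ s, ?_, fun s hs => ?_, ?_⟩
  · exact Differentiable.fun_finsetProd fun χ _ => hG1 χ.1
  · have hΔ' : 4 * (a * disc T ^ 2) ^ 3 + 27 * (b * disc T ^ 3) ^ 2 ≠ 0 := by
      have e : 4 * (a * disc T ^ 2) ^ 3 + 27 * (b * disc T ^ 3) ^ 2 =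
        disc T ^ 6 * (4 * a ^ 3 + 27 * b ^ 2) := by ring
      rw [e]
      exact mul_ne_zero (pow_ne_zero _ (disc_ne fun q hq => (hTp2 q hq).1)) hΔ
    exact hasProd_F hΔ' (fun p hp hd => form_tw hf hTg p hp hd) n L F G s hs
      fun χ hχ => hG2 χ s hs
  · rw [Finset.prod_ne_zero_iff]
    constructor
    · intro h χ
      exact (hG3 χ.1).2 (h χ (Finset.mem_univ _))
    · intro h χ _
      exact (hG3 χ.1).1 (h χ)

end field

end Pool.Agent.K4H55.AB
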