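import Pool.Agent.R401.Dens
import Pool.Agent.K4H55.AB.Adm

/-!
Primes whose Frobenius elements move all the points of order two are admissible.
-/

set_option autoImplicit false

open NumberField IsDedekindDomain Filter Topology

namespace Pool.Agent.K4H55.AB

open Pool.Agent.W569.FM Pool.Agent.Y142

/-- `x` is a root of the cubic -/
def Rt (a b : ℤ) {R : Type*} [CommRing R] (x : R) : Prop := x ^ 3 + (a : R) * x + (b : R) = 0

section
variable {R : Type*} [CommRing R] [IsDomain R] {a b : ℤ} {T S : R}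

lemma rt_a (hT : Rt a b T) (hS : Rt a b S) (h : T ≠ S) : (a : R) = -(T ^ 2 + T * S + S ^ 2) := by
  unfold Rt at hT hS
  have h1 : (T - S) * (T ^ 2 + T * S + S ^ 2 + a) = 0 := by linear_combination hT - hS
  rcases mul_eq_zero.1 h1 with h2 | h2
  · exact absurd (sub_eq_zero.1 h2) h
  · linear_combination h2

lemma rt_b (hT : Rt a b T) (hS : Rt a b S) (h : T ≠ S) : (b : R) = T * S * (T + S) := by
  have h1 := rt_a hT hS h
  unfold Rt at hT
  linear_combination hT - T * h1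

lemma rt_third (hT : Rt a b T) (hS : Rt a b S) (h : T ≠ S) : Rt a b (-T - S) := by
  have h1 := rt_a hT hS h
  have h2 := rt_b hT hS h
  unfold Rt
  rw [h1, h2]
  ring

lemma rt_disc (hT : Rt a b T) (hS : Rt a b S) (h : T ≠ S) :
    ((2 * (4 * a ^ 3 + 27 * b ^ 2) : ℤ) : R) =
      (T - S) * (-2 * (T - S) * (2 * T + S) ^ 2 * (T + 2 * S) ^ 2) := by
  have h1 := rt_a hT hS h
  have h2 := rt_b hT hS h
  push_cast
  rw [h1, h2]
  ring

lemma rt_eq {x y z : R} (hx : Rt a b x) (hy : Rt a b y) (hz : Rt a b z) (hxy : x ≠ y)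
    (hxz : x ≠ z) (hyz : y ≠ z) : z = -x - y := by
  have h1 := rt_a hx hy hxy
  have h2 := rt_a hx hz hxz
  have h3 : (y - z) * (x + y + z) = 0 := by linear_combination h1 - h2
  rcases mul_eq_zero.1 h3 with h4 | h4
  · exact absurd (sub_eq_zero.1 h4) hyz
  · linear_combination h4

end

lemma exists_split (a b : ℤ) (L : Type*) [Field L] [IsAlgClosed L] [CharZero L] :
    ∃ t1 t2 t3 : L, Rt a b t1 ∧ Rt a b t2 ∧ Rt a b t3 ∧
      ∀ x : L, x ^ 3 + (a : L) * x + (b : L) = (x - t1) * (x - t2) * (x - t3) := by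
  obtain ⟨t, ht⟩ : ∃ t : L, Rt a b t := by
    let p : Polynomial L := Polynomial.X ^ 3 + Polynomial.C (a : L) * Polynomial.X +
      Polynomial.C (b : L)
    have hp : p.degree ≠ 0 := by
      have : p.degree = 3 := by
        simp only [p]
        compute_degree!
      rw [this]
      norm_num
    obtain ⟨t, ht⟩ := IsAlgClosed.exists_root p hp
    refine ⟨t, ?_⟩
    simpa [p, Rt] using ht
  obtain ⟨d, hd⟩ := IsAlgClosed.exists_pow_nat_eq (-3 * t ^ 2 - 4 * a : L) (n := 2) (by norm_num)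
  have hfac : ∀ x : L, x ^ 3 + (a : L) * x + (b : L) =
      (x - t) * (x - (-t + d) / 2) * (x - (-t - d) / 2) := by
    intro x
    unfold Rt at ht
    have h2 : (2 : L) ≠ 0 := two_ne_zero
    field_simp
    linear_combination (x - t) * hd + 4 * ht
  refine ⟨t, (-t + d) / 2, (-t - d) / 2, ht, ?_, ?_, hfac⟩
  · unfold Rt
    rw [hfac]
    ring
  · unfold Rt
    rw [hfac]
    ring

lemma frob_pow {q : ℕ} {P : Ideal (OO ℚ)} {g : GF ℚ} (hg : FrobAt q P g) (k : ℕ)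
    (y : OO ℚ) : g ^ k • y - y ^ q ^ k ∈ P := by
  induction k with
  | zero => simp
  | succ k ih =>
    have h1 := hg (g ^ k • y)
    have h2 : (g ^ k • y) ^ q - (y ^ q ^ k) ^ q ∈ P :=
      P.mem_of_dvd (sub_dvd_pow_sub_pow _ _ q) ih
    have h3 := P.add_mem h1 h2
    rw [sub_add_sub_cancel, smul_smul, ← pow_mul, ← pow_succ, ← pow_succ'] at h3
    exact h3

lemma int_mem {q : ℕ} (hq : q.Prime) {P : Ideal (OO ℚ)} (hP : P.IsMaximal)
    (hqP : (q : OO ℚ) ∈ P) {m : ℤ} (hm : (m : OO ℚ) ∈ P) : (q : ℤ) ∣ m := by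
  by_contra h
  have h1 : IsCoprime (q : ℤ) m := (Int.prime_iff_natAbs_prime.2 (by simpa using hq)).coprime_iff_not_dvd.2 h
  obtain ⟨u, v, huv⟩ := h1
  apply hP.ne_top
  rw [Ideal.eq_top_iff_one]
  have h2 : (1 : OO ℚ) = (u : OO ℚ) * (q : OO ℚ) + (v : OO ℚ) * (m : OO ℚ) := by
    exact_mod_cast congrArg (Int.cast (R := OO ℚ)) huv.symm
  rw [h2]
  exact P.add_mem (P.mul_mem_left _ hqP) (P.mul_mem_left _ hm)

/-- a root as an algebraic integer -/
lemma rt_integral {a b : ℤ} {t : AlgebraicClosure ℚ} (ht : Rt a b t) : IsIntegral ℤ t := by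
  refine ⟨Polynomial.X ^ 3 + Polynomial.C a * Polynomial.X + Polynomial.C b, ?_, ?_⟩
  · monicity!
  · unfold Rt at ht
    rw [Polynomial.eval₂_add, Polynomial.eval₂_add, Polynomial.eval₂_mul, Polynomial.eval₂_pow,
      Polynomial.eval₂_X, Polynomial.eval₂_C, Polynomial.eval₂_C]
    exact ht

theorem no_root {K : Type} [Field K] [NumberField K] {a b : ℤ} {q : ℕ} (hq : q.Prime)
    {P : Ideal (OO ℚ)} (hP : P.IsMaximal) (hqP : (q : OO ℚ) ∈ P) {g : GF ℚ} (hg : FrobAt q P g)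
    (hΔ : ¬ (q : ℤ) ∣ 2 * (4 * a ^ 3 + 27 * b ^ 2)) {k : ℕ}
    (hK : ∀ τ : GF ℚ, τ⁻¹ * g ^ k * τ ∈ Pool.Agent.Y142.HH ℚ K)
    (hmove : ∀ t : AlgebraicClosure ℚ, Rt a b t → (g ^ k) t ≠ t)
    (v : HeightOneSpectrum (𝓞 K)) (hv : (q : 𝓞 K) ∈ v.asIdeal) (X : 𝓞 K) :
    X ^ 3 + (a : 𝓞 K) * X + (b : 𝓞 K) ∉ v.asIdeal := by
  intro hX
  obtain ⟨τ, rfl⟩ := vv_surjective hq hP hqP v hv
  rw [mem_vv] at hX
  set x : OO ℚ := τ • ioO K (algebraMap (𝓞 K) (OO K) X) with hx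
  have e1 : τ • ioO K (algebraMap (𝓞 K) (OO K) (X ^ 3 + (a : 𝓞 K) * X + (b : 𝓞 K))) =
      x ^ 3 + (a : OO ℚ) * x + (b : OO ℚ) := by
    rw [hx]
    simp only [map_add, map_mul, map_pow, map_intCast, smul_add, smul_mul', smul_pow']
    have h1 : ∀ m : ℤ, τ • (m : OO ℚ) = (m : OO ℚ) := fun m =>
      map_intCast (MulSemiringAction.toRingHom (GF ℚ) (OO ℚ) τ) m
    rw [h1, h1]
  rw [e1] at hX
  have hfix : g ^ k • x = x := by
    have h2 : g ^ k * τ = τ * (τ⁻¹ * g ^ k * τ) := by group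
    rw [hx, smul_smul, h2, ← smul_smul, smul_ioO_of_mem (hK τ)]
  obtain ⟨t1, t2, t3, h1, h2, h3, hsp⟩ := exists_split a b (AlgebraicClosure ℚ)
  let T : (t : AlgebraicClosure ℚ) → Rt a b t → OO ℚ := fun t ht => ⟨t, rt_integral ht⟩
  have hfac : x ^ 3 + (a : OO ℚ) * x + (b : OO ℚ) = (x - T t1 h1) * (x - T t2 h2) * (x - T t3 h3) := by
    apply RingOfIntegers.ext
    have := hsp (x : AlgebraicClosure ℚ)
    simp only [map_add, map_mul, map_pow, map_intCast, map_sub]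
    exact this
  rw [hfac] at hX
  have hxT : ∃ (t : AlgebraicClosure ℚ) (ht : Rt a b t), x - T t ht ∈ P := by
    rcases hP.isPrime.mem_or_mem hX with h | h
    · rcases hP.isPrime.mem_or_mem h with h | h
      · exact ⟨t1, h1, h⟩
      · exact ⟨t2, h2, h⟩
    · exact ⟨t3, h3, h⟩
  obtain ⟨t, ht, hxt⟩ := hxT
  -- the image of the root
  have hgt : Rt a b ((g ^ k) t) := by
    have := congrArg (g ^ k) ht
    simp only [map_add, map_mul, map_pow, map_intCast, map_zero] at this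
    exact this
  have h4 : T t ht ^ q ^ k - x ^ q ^ k ∈ P := by
    have := P.neg_mem hxt
    rw [neg_sub] at this
    exact P.mem_of_dvd (sub_dvd_pow_sub_pow _ _ _) this
  have h5 := frob_pow hg k x
  rw [hfix] at h5
  have h6 := frob_pow hg k (T t ht)
  -- `g ^ k t ≡ t ^ (q ^ k) ≡ x ^ (q ^ k) ≡ x ≡ t`
  have h7 : g ^ k • T t ht - T t ht ∈ P := by
    have h8 : g ^ k • T t ht - T t ht = (g ^ k • T t ht - T t ht ^ q ^ k) +
        (T t ht ^ q ^ k - x ^ q ^ k) - (x - x ^ q ^ k) + (x - T t ht) := by ring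
    rw [h8]
    exact P.add_mem (P.sub_mem (P.add_mem h6 h4) h5) hxt
  have hG : Rt a b (g ^ k • T t ht : OO ℚ) := by
    apply RingOfIntegers.ext
    simp only [map_add, map_mul, map_pow, map_intCast, map_zero]
    exact hgt
  have hT : Rt a b (T t ht : OO ℚ) := by
    apply RingOfIntegers.ext
    simp only [map_add, map_mul, map_pow, map_intCast, map_zero]
    exact ht
  have hne : (g ^ k • T t ht : OO ℚ) ≠ T t ht := by
    intro h
    exact hmove t ht (congrArg (fun y : OO ℚ => (y : AlgebraicClosure ℚ)) h)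
  apply hΔ
  apply int_mem hq hP hqP
  rw [rt_disc hG hT hne]
  exact P.mul_mem_right _ h7

theorem ptv_even {K : Type} [Field K] [NumberField K] {a b : ℤ} {q : ℕ} (hq : q.Prime) (hq2 : q ≠ 2)
    (v : HeightOneSpectrum (𝓞 K)) (hv : (q : 𝓞 K) ∈ v.asIdeal)
    (h : ∀ X : 𝓞 K, X ^ 3 + (a : 𝓞 K) * X + (b : 𝓞 K) ∉ v.asIdeal) : ¬ 2 ∣ ptv a b v + 1 := by
  classical
  have hfin : Finite (𝓞 K ⧸ v.asIdeal) := Ideal.finiteQuotientOfFreeOfNeBot _ v.ne_bot
  have : Fact (Nat.Prime 2) := ⟨Nat.prime_two⟩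
  have hdom : IsDomain (𝓞 K ⧸ v.asIdeal) := inferInstance
  let α : Type := {x : (𝓞 K ⧸ v.asIdeal) × (𝓞 K ⧸ v.asIdeal) //
    x.2 ^ 2 = x.1 ^ 3 + (a : 𝓞 K ⧸ v.asIdeal) * x.1 + (b : 𝓞 K ⧸ v.asIdeal)}
  have : Fintype α := Fintype.ofFinite _
  let f : Function.End α := fun x => ⟨(x.1.1, -x.1.2), by
    have := x.2
    simp only at this ⊢
    rw [neg_sq, this]⟩
  have hf : f ^ 2 ^ 1 = 1 := by
    rw [pow_one, pow_two]
    funext x
    apply Subtype.ext
    show (x.1.1, - -x.1.2) = x.1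
    rw [neg_neg]
  have h1 := Equiv.Perm.card_fixedPoints_modEq hf
  have h2 : Fintype.card f.fixedPoints = 0 := by
    rw [Fintype.card_eq_zero_iff]
    refine ⟨fun x => ?_⟩
    have h3 : f x.1 = x.1 := x.2
    have h4 : -x.1.1.2 = x.1.1.2 := congrArg (fun y : α => y.1.2) h3
    have h5 : (2 : 𝓞 K ⧸ v.asIdeal) ≠ 0 := by
      intro h6
      have h7 : (2 : 𝓞 K) ∈ v.asIdeal := by
        rw [← Ideal.Quotient.eq_zero_iff_mem]
        exact_mod_cast h6
      obtain ⟨k, hk⟩ := hq.odd_of_ne_two hq2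
      apply v.isPrime.ne_top
      rw [Ideal.eq_top_iff_one]
      have h8 : (1 : 𝓞 K) = (q : 𝓞 K) - 2 * (k : 𝓞 K) := by
        rw [hk]
        push_cast
        ring
      rw [h8]
      exact v.asIdeal.sub_mem hv (v.asIdeal.mul_mem_right _ h7)
    have h6 : x.1.1.2 = 0 := by
      have h7 : (2 : 𝓞 K ⧸ v.asIdeal) * x.1.1.2 = 0 := by linear_combination -h4
      exact (mul_eq_zero.1 h7).resolve_left h5
    have h7 := x.1.2
    rw [h6] at h7
    obtain ⟨X, hX⟩ := Ideal.Quotient.mk_surjective x.1.1.1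
    rw [← hX] at h7
    apply h X
    rw [← Ideal.Quotient.eq_zero_iff_mem]
    simp only [map_add, map_mul, map_pow, map_intCast]
    rw [← h7]
    ring
  rw [h2] at h1
  have h3 : 2 ∣ Fintype.card α := (Nat.modEq_zero_iff_dvd).1 h1
  have h4 : ptv a b v = Fintype.card α := Nat.card_eq_fintype_card
  rw [h4]
  omega

end Pool.Agent.K4H55.AB
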