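import Pool.Agent.K4H55.AB.Adm
import Pool.Agent.Y18.LP.Main

/-!
The main theorem on the sets of primes.
-/

set_option autoImplicit false

open Complex Filter Topology UpperHalfPlane MatrixGroups CongruenceSubgroup
open NumberField IsDedekindDomain H300.HW
open scoped symmDiff

namespace Pool.Agent.K4H55.AB

open Finset Pool.Agent.Y18.BSD Pool.Agent.Y18.LP Pool.Agent.Y18.NF
open Pool.Agent.W263.BSD (pointCount GoodPrime IsLSeries)
open Pool.Agent.H921R2.TatePole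
open Pool.Agent.Y702.L (pv local_quad mem_v_of_below)
open W165.CE (fac fac_eq pw multipliable_fac ap0 trace_good pw_luc av)

section
variable {ι : Type} [Finite ι] (a b : ι → ℤ) (N n : ι → ℕ) [∀ i, NeZero (N i)] [∀ i, NeZero (n i)]
  (L : ι → Type) [∀ i, Field (L i)] [∀ i, NumberField (L i)]
  [∀ i, IsCyclotomicExtension {n i} ℚ (L i)]
  (F : (i : ι) → IntermediateField ℚ (L i))
  (f : (i : ι) → CuspForm (Gamma0 (N i) : Subgroup (GL (Fin 2) ℝ)) 2)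

/-- the admissible primes -/
def AA : Set ℕ := {q | q.Prime ∧ q ≠ 2 ∧ ∀ i, GoodPrime (a i) (b i) q ∧ ¬ q ∣ n i ∧
  ∀ v : HeightOneSpectrum (𝓞 (F i)), ((q : ℕ) : 𝓞 (F i)) ∈ v.asIdeal → ¬ 2 ∣ ptv (a i) (b i) v + 1}

lemma cD_empty {N : ℕ} (f : CuspForm (Gamma0 N : Subgroup (GL (Fin 2) ℝ)) 2) : cD f ∅ = co f := by
  funext p
  unfold cD dd
  simp

omit [∀ i, NeZero (N i)] in
theorem main [∀ i, NeZero (N i)] (hΔ : ∀ i, 4 * a i ^ 3 + 27 * b i ^ 2 ≠ 0)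
    (hf : ∀ i, IsFormOf (a i) (b i) (N i) (f i)) (hnN : ∀ i, (n i).Coprime (N i))
    (hbase : ∀ i, ∃ G : ℂ → ℂ, Differentiable ℂ G ∧ (∀ s : ℂ, 3 / 2 < s.re →
      HasProd (fac (K := F i) (a i) (b i) (N i) (co (f i)) s) (G s)) ∧ G 1 ≠ 0) :
    ∃ V : ℕ, ∀ (re : Prop) (T0 : Finset ℕ), ∃ K : Finset (Finset ℕ), K.card ≤ V ∧
      (∀ k ∈ K, GT (AA a b n L F) re T0 k) ∧
      ∀ T, GT (AA a b n L F) re T0 T → ∃ k ∈ K, ∀ i, ∃ G : ℂ → ℂ, Differentiable ℂ G ∧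
        (∀ s : ℂ, 3 / 2 < s.re → HasProd (fac (K := F i) (a i * disc (T ∆ k) ^ 2)
          (b i * disc (T ∆ k) ^ 3) (N i * dd (T ∆ k)) (cD (f i) (T ∆ k)) s) (G s)) ∧ G 1 ≠ 0 := by
  classical
  have : Fintype ι := Fintype.ofFinite ι
  have hYY : ∀ i, Fintype (YY (n i) (L i) (F i)) := fun i => Fintype.ofFinite _
  have hA : ∀ q ∈ AA a b n L F, q.Prime ∧ q ≠ 2 := fun q hq => ⟨hq.1, hq.2.1⟩
  obtain ⟨lam, h1, h2, h3⟩ := Y18.LP.exists_lam Nat.prime_two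
  have hms : ∀ x : (Σ i : ι, YY (n i) (L i) (F i)), MS (N x.1) (bv (f x.1)) (co (f x.1)) :=
    fun x => by
      obtain ⟨w, -, hfr⟩ := (hf x.1).newf
      exact ms_of (hf x.1).hrel hfr
  have hm : ∀ x : (Σ i : ι, YY (n i) (L i) (F i)), x.2.1.conductor ≠ 0 :=
    fun x => x.2.1.conductor_ne_zero
  -- the base fields
  have h0 : ∀ x : (Σ i : ι, YY (n i) (L i) (F i)), bth (bv (f x.1)) (hp x.2.1)⁻¹ 1 ≠ 0 := by
    rintro ⟨i, χ⟩
    obtain ⟨G, hG1, hG2, hG3⟩ := fieldTw (a := a i) (b := b i) (f := f i) (n i) (L i) (F i) (hΔ i)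
      (hf i) (hnN i) (T := ∅) (fun q hq => absurd hq (Finset.notMem_empty q))
    obtain ⟨G0, hG01, hG02, hG03⟩ := hbase i
    have e1 : disc ∅ = 1 := by simp [disc]
    have e2 : dd ∅ = 1 := by simp [dd]
    rw [e1, e2, cD_empty, one_pow, one_pow, mul_one, mul_one, mul_one] at hG2
    have h4 : G = G0 := entire_unique hG1 hG01 hG2 hG02
    rw [cT_empty] at hG3
    rw [← h4] at hG03
    exact hG3.1 hG03 χ
  let E0 : ℕ := ∏ x : (Σ i : ι, YY (n i) (L i) (F i)), x.2.1.conductor.totient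
  have hE0 : 0 < E0 := Finset.prod_pos fun x _ => Nat.totient_pos.2 (Nat.pos_of_ne_zero (hm x))
  have hE : ∀ (x : (Σ i : ι, YY (n i) (L i) (F i))) u, (hp x.2.1)⁻¹ u ^ E0 = 1 := by
    intro x u
    have h4 : x.2.1.conductor.totient ∣ E0 := Finset.dvd_prod_of_mem
      (fun x : (Σ i : ι, YY (n i) (L i) (F i)) => x.2.1.conductor.totient) (Finset.mem_univ x)
    obtain ⟨k, hk⟩ := h4
    have : NeZero (n x.1) := inferInstance
    rw [hk, pow_mul, MonoidHom.inv_apply, inv_pow, hp_pow, inv_one, one_pow]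
  obtain ⟨V, hV⟩ := corrH (ι := Σ i : ι, YY (n i) (L i) (F i)) (N := fun x => N x.1)
    (f := fun x => bv (f x.1)) (a := fun x => co (f x.1)) (m := fun x => x.2.1.conductor)
    (h := fun x => (hp x.2.1)⁻¹) hms hm h0 Nat.prime_two 1 E0 hE0 hE lam h1 (by exact_mod_cast h2)
  refine ⟨2 ^ V, fun re T0 => ?_⟩
  have hOk := HH_ok hA re T0 (B := AdH (fun x : (Σ i : ι, YY (n i) (L i) (F i)) => N x.1)
    (fun x => co (f x.1)) (fun x => x.2.1.conductor) (fun x => (hp x.2.1)⁻¹) lam) (by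
      intro q hq
      refine ⟨hq.1, fun x => ?_⟩
      obtain ⟨h4, h5, h6⟩ := hq.2.2 x.1
      refine ⟨((hf x.1).points q h4).1, (Nat.Prime.coprime_iff_not_dvd hq.1).2
        fun h => h5 (h.trans x.2.1.conductor_dvd_level), ?_⟩
      exact adm_field (hf x.1) h4 h5 h6 h1 (by exact_mod_cast h2) (fun m hm => by
        exact_mod_cast h3 m hm) x.2)
  obtain ⟨K, hK1, hK2, hK3⟩ := hV (HH (AA a b n L F) hA re T0) hOk
  choose! t ht using hK2
  refine ⟨K.image t, Finset.card_image_le.trans hK1, ?_, ?_⟩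
  · intro k hk
    obtain ⟨c, hc, rfl⟩ := Finset.mem_image.1 hk
    exact (ht c hc).1
  · intro T hT
    obtain ⟨c, hc, h4⟩ := hK3 (cT T) ⟨T, hT, rfl⟩
    refine ⟨t c, Finset.mem_image_of_mem t hc, fun i => ?_⟩
    have h5 : c = cT (t c) := (ht c hc).2
    have h6 : GT (AA a b n L F) re T0 (T ∆ t c) := hT.symm hA (ht c hc).1
    obtain ⟨G, hG1, hG2, hG3⟩ := fieldTw (a := a i) (b := b i) (f := f i) (n i) (L i) (F i) (hΔ i)
      (hf i) (hnN i) (T := T ∆ t c) (fun q hq => by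
        obtain ⟨h7, h8, -⟩ := (h6.adm q hq).2.2 i
        exact ⟨h7, h8⟩)
    refine ⟨G, hG1, hG2, hG3.2 fun χ => ?_⟩
    have h7 := h4 ⟨i, χ⟩
    rw [h5, cT_mul fun q hq => hA q (hT.adm q hq)] at h7
    exact h7

end

end Pool.Agent.K4H55.AB
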