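import Pool.Agent.K4H55.AB.Tw

/-!
The families of the quadratic characters.
-/

set_option autoImplicit false

open scoped symmDiff

namespace Pool.Agent.K4H55.AB

open Finset Pool.Agent.Y18.BSD Pool.Agent.Y18.LP Pool.Agent.Y18.NF

/-- the quadratic character -/
noncomputable def JQ (q : ℕ) : (ZMod q)ˣ →* ℂˣ :=
  open Classical in
  if h : Odd q ∧ Squarefree q then (H385.jac_char q h.1 h.2).choose.toUnitHom else 1

lemma JQ_val {q : ℕ} (hq : q.Prime) (hq2 : q ≠ 2) {k : ℕ} (hk : k.Coprime q) :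
    ((JQ q (ZMod.unitOfCoprime k hk) : ℂˣ) : ℂ) = (jacobiSym k q : ℂ) := by
  have h : Odd q ∧ Squarefree q := ⟨hq.odd_of_ne_two hq2, hq.squarefree⟩
  unfold JQ
  rw [dif_pos h, MulChar.coe_toUnitHom, ZMod.coe_unitOfCoprime]
  exact (H385.jac_char q h.1 h.2).choose_spec.2 k

lemma JQ_unit {q : ℕ} (hq : q.Prime) (hq2 : q ≠ 2) (u : (ZMod q)ˣ) :
    ((JQ q u : ℂˣ) : ℂ) = (jacobiSym (u : ZMod q).val q : ℂ) := by
  have : NeZero q := ⟨hq.ne_zero⟩
  have h1 : (u : ZMod q).val.Coprime q := ZMod.val_coe_unit_coprime u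
  have h2 : u = ZMod.unitOfCoprime (u : ZMod q).val h1 := by
    apply Units.ext
    rw [ZMod.coe_unitOfCoprime, ZMod.natCast_zmod_val]
  conv_lhs => rw [h2, JQ_val hq hq2 h1]

lemma JQ_sq {q : ℕ} (hq : q.Prime) (hq2 : q ≠ 2) : JQ q * JQ q = 1 := by
  have : NeZero q := ⟨hq.ne_zero⟩
  ext u
  rw [MonoidHom.mul_apply, Units.val_mul, JQ_unit hq hq2, MonoidHom.one_apply, Units.val_one]
  have h1 : (u : ZMod q).val.Coprime q := ZMod.val_coe_unit_coprime u
  have h2 : Int.gcd ((u : ZMod q).val : ℤ) q = 1 := by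
    rw [Int.gcd_natCast_natCast]
    exact h1
  have h3 := jacobiSym.sq_one h2
  rw [← sq]
  exact_mod_cast congrArg (fun x : ℤ => (x : ℂ)) h3

lemma JQ_ne {q : ℕ} (hq : q.Prime) (hq2 : q ≠ 2) : JQ q ≠ 1 := by
  have h : Odd q ∧ Squarefree q := ⟨hq.odd_of_ne_two hq2, hq.squarefree⟩
  intro h1
  obtain ⟨h2, h3⟩ := (H385.jac_char q h.1 h.2).choose_spec
  set χ := (H385.jac_char q h.1 h.2).choose with hχ
  have h4 : χ = 1 := by
    apply MulChar.ext
    intro u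
    have h5 := DFunLike.congr_fun h1 u
    unfold JQ at h5
    rw [dif_pos h, ← hχ] at h5
    have h6 := congrArg Units.val h5
    rw [MulChar.coe_toUnitHom] at h6
    rw [h6, MulChar.one_apply u.isUnit]
    simp
  have : NeZero q := ⟨hq.ne_zero⟩
  have h5 : χ.conductor = 1 := DirichletCharacter.eq_one_iff_conductor_eq_one.1 h4
  have h6 : χ.conductor = q := h2
  rw [h5] at h6
  exact hq.ne_one h6.symm

open Classical in
/-- the family -/
noncomputable def cT (T : Finset ℕ) : Fam := fun q => if q ∈ T then JQ q else 1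

variable {T T' : Finset ℕ}

lemma cT_fin : {q | cT T q ≠ 1}.Finite := by
  refine (Finset.finite_toSet T).subset fun q hq => ?_
  by_contra h
  have h' : q ∉ T := fun h1 => h (Finset.mem_coe.2 h1)
  apply hq
  unfold cT
  rw [if_neg h']

lemma sp_cT (hT : ∀ q ∈ T, q.Prime ∧ q ≠ 2) : sp (cT T) = T := by
  ext q
  rw [mem_sp cT_fin]
  unfold cT
  constructor
  · intro h
    by_contra h1
    rw [if_neg h1] at h
    exact h rfl
  · intro h
    rw [if_pos h]
    exact JQ_ne (hT q h).1 (hT q h).2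

lemma cvl_cT (hT : ∀ q ∈ T, q.Prime ∧ q ≠ 2) (k : ℕ) :
    cvl (cT T) k = (jacobiSym k (dd T) : ℂ) := by
  classical
  unfold cvl
  rw [sp_cT hT]
  have h1 : (jacobiSym k (dd T) : ℤ) = ∏ q ∈ T, jacobiSym k q := by
    unfold dd
    have hT' : ∀ q ∈ T, q ≠ 0 := fun q hq => (hT q hq).1.ne_zero
    clear hT
    induction T using Finset.induction_on with
    | empty => simp
    | insert q T hq ih =>
      have h0 : NeZero q := ⟨hT' q (Finset.mem_insert_self q T)⟩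
      have h0' : NeZero (∏ q ∈ T, q) := ⟨Finset.prod_ne_zero_iff.2 fun p hp =>
        hT' p (Finset.mem_insert_of_mem hp)⟩
      rw [Finset.prod_insert hq, jacobiSym.mul_right, Finset.prod_insert hq,
        ih fun p hp => hT' p (Finset.mem_insert_of_mem hp)]
  rw [h1, Int.cast_prod]
  refine Finset.prod_congr rfl fun q hq => ?_
  obtain ⟨hq1, hq2⟩ := hT q hq
  unfold cT
  rw [if_pos hq]
  split_ifs with h
  · exact JQ_val hq1 hq2 h
  · have : NeZero q := ⟨hq1.ne_zero⟩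
    have h2 : jacobiSym k q = 0 := by
      rw [jacobiSym.eq_zero_iff_not_coprime, Int.gcd_natCast_natCast]
      exact h
    rw [h2, Int.cast_zero]

lemma cT_mul (hT : ∀ q ∈ T, q.Prime ∧ q ≠ 2) :
    cT T * cT T' = cT (T ∆ T') := by
  funext q
  have h1 : (cT T * cT T' : Fam) q = cT T q * cT T' q := rfl
  rw [h1]
  unfold cT
  by_cases h2 : q ∈ T
  · by_cases h3 : q ∈ T'
    · rw [if_pos h2, if_pos h3, if_neg (by simp [Finset.mem_symmDiff, h2, h3]),
        JQ_sq (hT q h2).1 (hT q h2).2]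
    · rw [if_pos h2, if_neg h3, if_pos (by simp [Finset.mem_symmDiff, h2, h3])]
      ext x; simp
  · by_cases h3 : q ∈ T'
    · rw [if_neg h2, if_pos h3, if_pos (by simp [Finset.mem_symmDiff, h2, h3])]
      ext x; simp
    · rw [if_neg h2, if_neg h3, if_neg (by simp [Finset.mem_symmDiff, h2, h3])]
      ext x; simp

lemma cT_empty : cT ∅ = 1 := by
  funext q
  unfold cT
  rw [if_neg (Finset.notMem_empty q)]
  rfl

lemma cT_sq (hT : ∀ q ∈ T, q.Prime ∧ q ≠ 2) : cT T * cT T = 1 := by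
  rw [cT_mul hT, symmDiff_self]
  exact cT_empty

lemma cT_inv (hT : ∀ q ∈ T, q.Prime ∧ q ≠ 2) : (cT T)⁻¹ = cT T := by
  have h := cT_sq hT
  funext q
  have h1 : (cT T q) * (cT T q) = 1 := congrFun h q
  have h2 : (cT T)⁻¹ q = (cT T q)⁻¹ := rfl
  rw [h2]
  ext x
  have h3 := DFunLike.congr_fun h1 x
  rw [MonoidHom.mul_apply, MonoidHom.one_apply] at h3
  rw [MonoidHom.inv_apply, inv_eq_of_mul_eq_one_left h3]

lemma prod_symm {M : Type} [CommMonoid M] (g : ℕ → M) (T T' : Finset ℕ) :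
    (∏ q ∈ T ∆ T', g q) * (∏ q ∈ T ∩ T', g q) ^ 2 = (∏ q ∈ T, g q) * ∏ q ∈ T', g q := by
  classical
  have h1 : ∏ q ∈ T ∆ T', g q = (∏ q ∈ T \ T', g q) * ∏ q ∈ T' \ T, g q := by
    have h2 : T ∆ T' = (T \ T') ∪ (T' \ T) := rfl
    rw [h2, Finset.prod_union disjoint_sdiff_sdiff]
  have h3 := Finset.prod_inter_mul_prod_sdiff T T' g
  have h4 := Finset.prod_inter_mul_prod_sdiff T' T g
  rw [Finset.inter_comm] at h4
  rw [h1, ← h3, ← h4, sq]
  simp only [mul_comm, mul_left_comm, mul_assoc]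

lemma dd_symm (T T' : Finset ℕ) : dd (T ∆ T') * dd (T ∩ T') ^ 2 = dd T * dd T' :=
  prod_symm (fun q => q) T T'

lemma disc_symm (T T' : Finset ℕ) : disc (T ∆ T') * disc (T ∩ T') ^ 2 = disc T * disc T' :=
  prod_symm (fun q => (-1 : ℤ) ^ ((q - 1) / 2) * q) T T'

/-- the condition on the twist -/
structure GT (A : Set ℕ) (re : Prop) (T0 : Finset ℕ) (T : Finset ℕ) : Prop where
  adm : ∀ q ∈ T, q ∈ A
  pos : re → 0 < disc T
  loc : ∀ p ∈ T0, jacobiSym p (dd T) = 1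

lemma disc_ne {T : Finset ℕ} (hT : ∀ q ∈ T, q.Prime) : disc T ≠ 0 := by
  unfold disc
  refine Finset.prod_ne_zero_iff.2 fun q hq => mul_ne_zero (pow_ne_zero _ (by norm_num)) ?_
  exact_mod_cast (hT q hq).ne_zero

lemma GT.symm {A : Set ℕ} {re : Prop} {T0 : Finset ℕ} (hA : ∀ q ∈ A, q.Prime ∧ q ≠ 2)
    (hT : GT A re T0 T) (hT' : GT A re T0 T') : GT A re T0 (T ∆ T') := by
  have hp : ∀ q ∈ T, q.Prime := fun q hq => (hA q (hT.adm q hq)).1
  have hp' : ∀ q ∈ T', q.Prime := fun q hq => (hA q (hT'.adm q hq)).1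
  refine ⟨fun q hq => ?_, fun h => ?_, fun p hp0 => ?_⟩
  · rcases Finset.mem_symmDiff.1 hq with h | h
    · exact hT.adm q h.1
    · exact hT'.adm q h.1
  · have h1 := disc_symm T T'
    have h2 := mul_pos (hT.pos h) (hT'.pos h)
    rw [← h1] at h2
    exact pos_of_mul_pos_left h2 (sq_nonneg _)
  · have h1 := dd_symm T T'
    have n1 : NeZero (dd (T ∆ T')) := ⟨dd_ne_zero fun q hq => by
      rcases Finset.mem_symmDiff.1 hq with h | h
      · exact hp q h.1
      · exact hp' q h.1⟩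
    have n2 : NeZero (dd (T ∩ T')) := ⟨dd_ne_zero fun q hq => hp q (Finset.mem_inter.1 hq).1⟩
    have n2' : NeZero (dd (T ∩ T') ^ 2) := ⟨pow_ne_zero 2 n2.ne⟩
    have n3 : NeZero (dd T) := ⟨dd_ne_zero hp⟩
    have n4 : NeZero (dd T') := ⟨dd_ne_zero hp'⟩
    have h2 := congrArg (jacobiSym (p : ℤ)) h1
    rw [jacobiSym.mul_right, jacobiSym.mul_right, hT.loc p hp0, hT'.loc p hp0, jacobiSym.pow_right,
      mul_one] at h2
    have h3 : jacobiSym (p : ℤ) (dd (T ∩ T')) ^ 2 = 1 := by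
      rcases jacobiSym.trichotomy (p : ℤ) (dd (T ∩ T')) with h | h | h
      · rw [h] at h2
        norm_num at h2
      · rw [h]; norm_num
      · rw [h]; norm_num
    rw [h3, mul_one] at h2
    exact h2

lemma GT.empty (A : Set ℕ) (re : Prop) (T0 : Finset ℕ) : GT A re T0 ∅ := by
  refine ⟨fun q hq => absurd hq (Finset.notMem_empty q), fun _ => ?_, fun p _ => ?_⟩
  · simp [disc]
  · simp [dd]

/-- the group -/
noncomputable def HH (A : Set ℕ) (hA : ∀ q ∈ A, q.Prime ∧ q ≠ 2) (re : Prop) (T0 : Finset ℕ) :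
    Subgroup Fam where
  carrier := {c | ∃ T, GT A re T0 T ∧ c = cT T}
  one_mem' := ⟨∅, GT.empty A re T0, cT_empty.symm⟩
  mul_mem' := by
    rintro c c' ⟨T, hT, rfl⟩ ⟨T', hT', rfl⟩
    exact ⟨T ∆ T', hT.symm hA hT', cT_mul fun q hq => hA q (hT.adm q hq)⟩
  inv_mem' := by
    rintro c ⟨T, hT, rfl⟩
    exact ⟨T, hT, cT_inv fun q hq => hA q (hT.adm q hq)⟩

lemma HH_ok {A : Set ℕ} (hA : ∀ q ∈ A, q.Prime ∧ q ≠ 2) (re : Prop) (T0 : Finset ℕ) {B : Set ℕ}
    (hAB : A ⊆ B) : Ok (HH A hA re T0) (2 ^ 1) B := by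
  refine ⟨?_, ?_, ?_⟩
  · rintro c ⟨T, hT, rfl⟩
    rw [pow_one]
    have h := cT_sq fun q hq => hA q (hT.adm q hq)
    exact (sq (M := Fam) (cT T)).trans h
  · rintro c ⟨T, hT, rfl⟩
    exact cT_fin
  · rintro c ⟨T, hT, rfl⟩ q hq
    refine hAB (hT.adm q ?_)
    by_contra h
    apply hq
    unfold cT
    rw [if_neg h]

end Pool.Agent.K4H55.AB
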