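import Pool.Agent.Y18.LP.Nf

/-!
The sums `∑ h(u) X(u) f(u/M)` with a fixed character `h` modulo `m` and a family of local characters.
-/

set_option autoImplicit false

namespace Pool.Agent.K4H55.AB

open Finset Pool.Agent.Y18.BSD Pool.Agent.Y18.LP

/-- the character `h` modulo `m` on the units modulo `M` -/
noncomputable def lh {m : ℕ} (h : (ZMod m)ˣ →* ℂˣ) (M : ℕ) : (ZMod M)ˣ →* ℂˣ :=
  if hm : m ∣ M then h.comp (ZMod.unitsMap hm) else 1

/-- the product with the family -/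
noncomputable def XH {m : ℕ} (h : (ZMod m)ˣ →* ℂˣ) (c : Fam) (T : Finset ℕ) (M : ℕ) :
    (ZMod M)ˣ →* ℂˣ := lh h M * XX c T M

/-- the value at `q` -/
noncomputable def hv {m : ℕ} (h : (ZMod m)ˣ →* ℂˣ) (q : ℕ) : ℂˣ :=
  if hq : q.Coprime m then h (ZMod.unitOfCoprime q hq) else 1

lemma lh_comp {m : ℕ} (h : (ZMod m)ˣ →* ℂˣ) {M N : ℕ} (hMN : M ∣ N) (hm : m ∣ M) :
    (lh h M).comp (ZMod.unitsMap hMN) = lh h N := by
  unfold lh
  rw [dif_pos hm, dif_pos (hm.trans hMN), MonoidHom.comp_assoc, ZMod.unitsMap_comp]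

lemma XH_comp {m : ℕ} (h : (ZMod m)ˣ →* ℂˣ) (c : Fam) {T : Finset ℕ} {M N : ℕ} (hMN : M ∣ N)
    (hm : m ∣ M) (hT : ∀ q ∈ T, q ∣ M) :
    (XH h c T M).comp (ZMod.unitsMap hMN) = XH h c T N := by
  unfold XH
  rw [← lh_comp h hMN hm, ← XX_comp c hMN hT]
  ext u
  simp

lemma lh_nat {m : ℕ} (h : (ZMod m)ˣ →* ℂˣ) {M q : ℕ} (hm : m ∣ M) (hq : q.Coprime M) :
    lh h M (ZMod.unitOfCoprime q hq) = hv h q := by
  have hq' : q.Coprime m := hq.coprime_dvd_right hm
  unfold lh hv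
  rw [dif_pos hm, dif_pos hq', MonoidHom.comp_apply, unitsMap_nat]

/-- the sum -/
noncomputable def psh (f : ℚ → ℂ) {m : ℕ} (h : (ZMod m)ˣ →* ℂˣ) (c : Fam) (T : Finset ℕ) (M : ℕ)
    [NeZero M] : ℂ := ps f (XH h c T M)

/-- the sum for the modulus `m ∏ S` in terms of the sum for the modulus `m ∏ T` -/
theorem psh_prod (f : ℚ → ℂ) (hf : ∀ r, f (r + 1) = f r) (a : ℕ → ℂ) {m : ℕ} (hm0 : m ≠ 0)
    (h : (ZMod m)ˣ →* ℂˣ) (c : Fam) {e : ℕ}
    (he : c ^ e = 1) (T : Finset ℕ) (R : Finset ℕ) : Disjoint R T → (∀ q ∈ R ∪ T, q.Prime) →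
    (∀ q ∈ R, q.Coprime m) →
    (∀ l ∈ R, ∀ r : ℚ, a l * f r = f (l * r) + ∑ u ∈ range l, f ((r + u) / l)) →
    ∀ (M M' : ℕ) [NeZero M] [NeZero M'], M = m * dd (R ∪ T) → M' = m * dd T →
    ∃ x : ℕ → ℂˣ, (∀ q, x q ^ e = 1) ∧
      psh f h c T M = (∏ q ∈ R, (a q - ((hv h q * x q)⁻¹ : ℂˣ) - ((hv h q * x q : ℂˣ) : ℂ))) *
        psh f h c T M' := by
  classical
  induction R using Finset.induction_on with
  | empty =>
    intro _ _ _ _ M M' _ _ hM hM'
    rw [Finset.empty_union, ← hM'] at hM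
    subst hM
    exact ⟨1, fun q => by simp, by simp⟩
  | insert q R hq ih =>
    intro hd hp hcm hh M M' _ _ hM hM'
    have hd' : Disjoint R T := hd.mono_left (Finset.subset_insert q R)
    have hqT : q ∉ T := fun h => Finset.disjoint_left.1 hd (Finset.mem_insert_self q R) h
    have hqRT : q ∉ R ∪ T := by simp [hq, hqT]
    have hp' : ∀ x ∈ R ∪ T, x.Prime := fun x hx => hp x (by
      rw [Finset.insert_union]; exact Finset.mem_insert_of_mem hx)
    have hqp : q.Prime := hp q (by simp)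
    have hne : NeZero (m * dd (R ∪ T)) := ⟨mul_ne_zero hm0 (dd_ne_zero hp')⟩
    rw [Finset.insert_union, dd_insert hqRT] at hM
    have hM2 : M = q * (m * dd (R ∪ T)) := by rw [hM]; ring
    have hdv : (m * dd (R ∪ T)) ∣ M := ⟨q, by rw [hM2, mul_comm]⟩
    have hqm : q.Coprime m := hcm q (Finset.mem_insert_self q R)
    have hco : q.Coprime (m * dd (R ∪ T)) := hqm.mul_right (dd_coprime hqp hp' hqRT)
    have h1 := ps_step f hf (a q) q (m * dd (R ∪ T)) M hqp hco hM2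
      (hh q (Finset.mem_insert_self q R)) hdv (XH h c T (m * dd (R ∪ T)))
    rw [XH_comp h c hdv (dvd_mul_right _ _) (fun p hp => (dvd_dd (Finset.mem_union_right R hp)).trans
      (dvd_mul_left _ _))] at h1
    obtain ⟨x, hx, h2⟩ := ih hd' hp' (fun l hl => hcm l (Finset.mem_insert_of_mem hl))
      (fun l hl => hh l (Finset.mem_insert_of_mem hl)) (m * dd (R ∪ T)) M' rfl hM'
    refine ⟨Function.update x q (XX c T (m * dd (R ∪ T)) (ZMod.unitOfCoprime q hco)), ?_, ?_⟩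
    · intro p
      by_cases hpq : p = q
      · subst hpq
        rw [Function.update_self]
        exact XX_pow he _ _ _
      · rw [Function.update_of_ne hpq]
        exact hx p
    · rw [Finset.prod_insert hq, Function.update_self]
      have h3 : ∏ p ∈ R, (a p - ((hv h p * (Function.update x q
            (XX c T (m * dd (R ∪ T)) (ZMod.unitOfCoprime q hco)) p))⁻¹ : ℂˣ) -
            ((hv h p * (Function.update x q (XX c T (m * dd (R ∪ T)) (ZMod.unitOfCoprime q hco)) p) : ℂˣ) : ℂ)) =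
          ∏ p ∈ R, (a p - ((hv h p * x p)⁻¹ : ℂˣ) - ((hv h p * x p : ℂˣ) : ℂ)) := by
        refine Finset.prod_congr rfl fun p hp => ?_
        rw [Function.update_of_ne (show p ≠ q from fun h => hq (h ▸ hp))]
      rw [h3, mul_assoc, ← h2]
      have h4 : XH h c T (m * dd (R ∪ T)) (ZMod.unitOfCoprime q hco) =
          hv h q * XX c T (m * dd (R ∪ T)) (ZMod.unitOfCoprime q hco) := by
        unfold XH
        rw [MonoidHom.mul_apply, lh_nat h (dvd_mul_right _ _) hco]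
      rw [h4] at h1
      exact h1

/-- the value of the sum -/
noncomputable def bth (f : ℚ → ℂ) {m : ℕ} (h : (ZMod m)ˣ →* ℂˣ) (c : Fam) : ℂ :=
  open Classical in
  if h0 : m * dd (sp c) ≠ 0 then
    (haveI : NeZero (m * dd (sp c)) := ⟨h0⟩
     psh f h c (sp c) (m * dd (sp c))) else 0

lemma bth_eq (f : ℚ → ℂ) {m : ℕ} (h : (ZMod m)ˣ →* ℂˣ) (c : Fam) (M : ℕ) [hM : NeZero M]
    (hMM : M = m * dd (sp c)) : bth f h c = psh f h c (sp c) M := by
  subst hMM
  unfold bth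
  rw [dif_pos hM.out]

lemma lh_pow {m : ℕ} {h : (ZMod m)ˣ →* ℂˣ} {E : ℕ} (hE : ∀ u, h u ^ E = 1) (M : ℕ) (u : (ZMod M)ˣ) :
    lh h M u ^ E = 1 := by
  unfold lh
  split_ifs with h1
  · exact hE _
  · simp

lemma hv_pow {m : ℕ} {h : (ZMod m)ˣ →* ℂˣ} {E : ℕ} (hE : ∀ u, h u ^ E = 1) (q : ℕ) :
    hv h q ^ E = 1 := by
  unfold hv
  split_ifs with h1
  · exact hE _
  · simp

lemma psh_mem {R : Subring ℂ} {E : ℕ} (hR : ∀ z : ℂ, z ^ E = 1 → z ∈ R) (f : ℚ → ℂ) {m : ℕ}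
    {h : (ZMod m)ˣ →* ℂˣ} (hE : ∀ u, h u ^ E = 1) {c : Fam}
    (hc : c ^ E = 1) (T : Finset ℕ) (M : ℕ) [NeZero M] :
    psh f h c T M ∈ Submodule.span R (Set.range f) := by
  unfold psh ps
  refine Submodule.sum_mem _ fun u _ => ?_
  have h1 : ((XH h c T M u : ℂˣ) : ℂ) ^ E = 1 := by
    have h2 : (XH h c T M u) ^ E = 1 := by
      unfold XH
      rw [MonoidHom.mul_apply, mul_pow, lh_pow hE, XX_pow hc, one_mul]
    have := congrArg Units.val h2
    simpa using this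
  exact (Submodule.span R (Set.range f)).smul_mem (⟨_, hR _ h1⟩ : R)
    (Submodule.subset_span ⟨_, rfl⟩ : f (((u : ZMod M).val : ℚ) / M) ∈
      Submodule.span R (Set.range f))

/-- the sum for a fixed modulus is a combination of characters -/
lemma psh_comb {R : Subring ℂ} {e E : ℕ} (hR : ∀ z : ℂ, z ^ E = 1 → z ∈ R) (f : ℚ → ℂ) {m : ℕ}
    {h : (ZMod m)ˣ →* ℂˣ} (hE : ∀ u, h u ^ E = 1) {H : Subgroup Fam} (hH : ∀ c ∈ H, c ^ e = 1)
    (S : Finset ℕ) (M : ℕ) [NeZero M] :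
    (fun c : H => psh f h (c : Fam) S M) ∈ Comb H e (Submodule.span R (Set.range f)) := by
  classical
  have h1 : (fun c : H => psh f h (c : Fam) S M) =
      ∑ u : (ZMod M)ˣ, fun c : H => ((lh h M u : ℂˣ) : ℂ) * FF f M u *
        ((XX (c : Fam) S M u : ℂˣ) : ℂ) := by
    funext c
    rw [Finset.sum_apply]
    unfold psh ps
    refine Finset.sum_congr rfl fun u _ => ?_
    unfold XH
    rw [MonoidHom.mul_apply, Units.val_mul]
    ring
  rw [h1]
  refine AddSubgroup.sum_mem _ fun u _ => ?_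
  let E' : H →* ℂ :=
    { toFun := fun c => ((XX (c : Fam) S M u : ℂˣ) : ℂ)
      map_one' := by
        rw [XX_apply]
        simp [loc_one]
      map_mul' := fun c c' => by
        rw [Subgroup.coe_mul, XX_mul]
        simp }
  have h3 : ((lh h M u : ℂˣ) : ℂ) ^ E = 1 := by
    have := congrArg Units.val (lh_pow hE M u)
    simpa using this
  have h4 : ((lh h M u : ℂˣ) : ℂ) * FF f M u ∈ Submodule.span R (Set.range f) :=
    (Submodule.span R (Set.range f)).smul_mem (⟨_, hR _ h3⟩ : R)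
      (Submodule.subset_span (Set.mem_range_self _) : FF f M u ∈ Submodule.span R (Set.range f))
  refine Comb.gen (Γ := H) h4 E' fun c => ?_
  have h2 := congrArg Units.val (XX_pow (hH c c.2) S M u)
  rw [Units.val_pow_eq_pow_val, Units.val_one] at h2
  exact h2

lemma grp_pow {G : Type} [Group G] {c : G} {e E k : ℕ} (h : c ^ e = 1) (hk : E = e * k) :
    c ^ E = 1 := by
  rw [hk, pow_mul, h, one_pow]

lemma fam_pow {c : Fam} {e E k : ℕ} (h : c ^ e = 1) (hk : E = e * k) : c ^ E = 1 :=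
  grp_pow (G := Fam) h hk

theorem goodH {N : ℕ} {f : ℚ → ℂ} {a : ℕ → ℂ} (hms : MS N f a) {R : Subring ℂ} {e E : ℕ}
    (heE : e ∣ E) (hR : ∀ z : ℂ, z ^ E = 1 → z ∈ R) {m : ℕ} (hm0 : m ≠ 0)
    {h : (ZMod m)ˣ →* ℂˣ} (hE : ∀ u, h u ^ E = 1) (al zh zi : ℕ → R) {P : Ideal R} (hP : P.IsPrime)
    (hP1 : ∀ z : R, (z : ℂ) ^ e = 1 → 1 - z ∈ P) {H : Subgroup Fam} {A : Set ℕ} (hH : Ok H e A)
    (hA : ∀ q ∈ A, q.Prime ∧ ¬ q ∣ N ∧ q.Coprime m ∧ (al q : ℂ) = a q ∧ (zh q : ℂ) = (hv h q : ℂˣ) ∧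
      (zi q : ℂ) = ((hv h q)⁻¹ : ℂˣ) ∧ al q - zi q - zh q ∉ P) :
    Good e P (Submodule.span R (Set.range f)) (fun c : H => bth f h c) := by
  classical
  have hRe : ∀ z : ℂ, z ^ e = 1 → z ∈ R := fun z hz => hR z (by
    obtain ⟨k, rfl⟩ := heE
    rw [pow_mul, hz, one_pow])
  have hpowE : ∀ c ∈ H, c ^ E = 1 := fun c hc => by
    obtain ⟨k, hk⟩ := heE
    exact fam_pow (hH.pow c hc) hk
  have hsp : ∀ c : H, ∀ q ∈ sp (c : Fam), q ∈ A := fun c q hq =>
    hH.adm c c.2 q ((mem_sp (hH.fin c c.2) q).1 hq)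
  have hnz : ∀ S : Finset ℕ, (∀ q ∈ S, q ∈ A) → m * dd S ≠ 0 := fun S hS =>
    mul_ne_zero hm0 (dd_ne_zero fun q hq => (hA q (hS q hq)).1)
  refine ⟨fun c => ?_, ?_⟩
  · have : NeZero (m * dd (sp (c : Fam))) := ⟨hnz _ (hsp c)⟩
    rw [bth_eq f h c _ rfl]
    exact psh_mem hR f hE (hpowE c c.2) _ _
  · have hprod : ∀ S : Finset ℕ, (∀ q ∈ S, q ∈ A) → ∏ q ∈ S, (al q - zi q - zh q) ∉ P := by
      intro S hS h
      obtain ⟨q, hq, h1⟩ := (hP.prod_mem_iff).1 h
      exact (hA q (hS q hq)).2.2.2.2.2.2 h1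
    refine ⟨fun c => ∏ q ∈ sp (c : Fam), (al q - zi q - zh q), fun c => hprod _ (hsp c), fun Q => ?_⟩
    set S : Finset ℕ := Q.biUnion (fun c => sp (c : Fam)) with hS
    have hSA : ∀ q ∈ S, q ∈ A := by
      intro q hq
      obtain ⟨c, _, h1⟩ := Finset.mem_biUnion.1 hq
      exact hsp c q h1
    have : NeZero (m * dd S) := ⟨hnz S hSA⟩
    refine ⟨_, psh_comb (R := R) (e := e) hR f hE hH.pow S (m * dd S), ∏ q ∈ S, (al q - zi q - zh q),
      hprod S hSA, ?_⟩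
    intro c hc
    have hsub : sp (c : Fam) ⊆ S := Finset.subset_biUnion_of_mem (fun c : H => sp (c : Fam)) hc
    have hne : NeZero (m * dd (sp (c : Fam))) := ⟨hnz _ (hsp c)⟩
    have hXX : XX (c : Fam) S (m * dd S) = XX (c : Fam) (sp (c : Fam)) (m * dd S) := by
      refine XX_subset _ hsub (fun q _ hq => ?_) _
      by_contra h1
      exact hq ((mem_sp (hH.fin c c.2) q).2 h1)
    obtain ⟨x, hx, h1⟩ := psh_prod f hms.per a hm0 h (c : Fam) (hH.pow c c.2) (sp (c : Fam))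
      (S \ sp (c : Fam)) Finset.sdiff_disjoint (fun q hq => by
        rw [Finset.sdiff_union_of_subset hsub] at hq
        exact (hA q (hSA q hq)).1)
        (fun q hq => (hA q (hSA q (Finset.sdiff_subset hq))).2.2.1)
        (fun l hl r => hms.hecke l (hA l (hSA l (Finset.sdiff_subset hl))).1
        (hA l (hSA l (Finset.sdiff_subset hl))).2.1 r) (m * dd S) (m * dd (sp (c : Fam)))
      (by rw [Finset.sdiff_union_of_subset hsub]) rfl
    have hx1 : ∀ q, ((x q : ℂˣ) : ℂ) ^ e = 1 := fun q => by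
      have := congrArg Units.val (hx q)
      simpa using this
    have hx2 : ∀ q, (((x q)⁻¹ : ℂˣ) : ℂ) ^ e = 1 := fun q => by
      have := congrArg Units.val (congrArg (fun z => z⁻¹) (hx q))
      simpa using this
    refine ⟨∏ q ∈ S \ sp (c : Fam), (al q - zi q * ⟨_, hRe _ (hx2 q)⟩ - zh q * ⟨_, hRe _ (hx1 q)⟩),
      ?_, ?_⟩
    · rw [← Ideal.Quotient.eq_zero_iff_mem, map_sub, map_mul, sub_eq_zero, map_prod, map_prod,
        map_prod]
      have h2 : ∏ q ∈ S \ sp (c : Fam), Ideal.Quotient.mk P (al q - zi q * ⟨_, hRe _ (hx2 q)⟩ -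
            zh q * ⟨_, hRe _ (hx1 q)⟩) = ∏ q ∈ S \ sp (c : Fam),
              Ideal.Quotient.mk P (al q - zi q - zh q) := by
        refine Finset.prod_congr rfl fun q _ => ?_
        rw [← sub_eq_zero, ← map_sub, Ideal.Quotient.eq_zero_iff_mem]
        have h3 : al q - zi q * ⟨_, hRe _ (hx2 q)⟩ - zh q * ⟨_, hRe _ (hx1 q)⟩ -
            (al q - zi q - zh q) =
            zi q * (1 - ⟨_, hRe _ (hx2 q)⟩) + zh q * (1 - ⟨_, hRe _ (hx1 q)⟩ : R) := by ring
        rw [h3]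
        exact P.add_mem (P.mul_mem_left _ (hP1 _ (hx2 q))) (P.mul_mem_left _ (hP1 _ (hx1 q)))
      rw [h2, Finset.prod_sdiff hsub]
    · show psh f h (c : Fam) S (m * dd S) = _
      have h4 : psh f h (c : Fam) S (m * dd S) = psh f h (c : Fam) (sp (c : Fam)) (m * dd S) := by
        unfold psh XH
        rw [hXX]
      rw [h4, h1, bth_eq f h c _ rfl, Subring.smul_def, smul_eq_mul]
      congr 1
      rw [← Subring.subtype_apply, map_prod]
      refine Finset.prod_congr rfl fun q hq => ?_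
      obtain ⟨-, -, -, ha1, ha2, ha3, -⟩ := hA q (hSA q (Finset.sdiff_subset hq))
      rw [map_sub, map_sub, map_mul, map_mul]
      simp only [Subring.subtype_apply]
      rw [ha1, ha2, ha3, mul_inv, Units.val_mul, Units.val_mul]

end Pool.Agent.K4H55.AB
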