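import Pool.Agent.K4H55.AB.Corr

/-!
Primitive products of characters, and the twisted `L`-functions.
-/

set_option autoImplicit false

open Complex Filter Topology UpperHalfPlane MatrixGroups CongruenceSubgroup ZMod

namespace Pool.Agent.K4H55.AB

open Finset Pool.Agent.Y18.BSD Pool.Agent.Y18.LP Pool.Agent.Y18.NF
open Pool.Agent.TH940 (Fr)

open DirichletCharacter in
theorem prim_mul {m D M : ℕ} [NeZero m] [NeZero D] [NeZero M] (hco : m.Coprime D) (hM : M = m * D)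
    (h1 : m ∣ M) (h2 : D ∣ M)
    (χ : DirichletCharacter ℂ m) (ψ : DirichletCharacter ℂ D) (hχ : χ.IsPrimitive)
    (hψ : ψ.IsPrimitive) : (changeLevel h1 χ * changeLevel h2 ψ).IsPrimitive := by
  have e1 : (changeLevel h1 χ).conductor = m := by rw [conductor_changeLevel]; exact hχ
  have e2 : (changeLevel h2 ψ).conductor = D := by rw [conductor_changeLevel]; exact hψ
  set Ψ := changeLevel h1 χ * changeLevel h2 ψ with hΨ
  have h3 : m ∣ Ψ.conductor := by
    have h := conductor_mul_dvd_lcm_conductor Ψ (changeLevel h2 ψ)⁻¹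
    have h4 : Ψ * (changeLevel h2 ψ)⁻¹ = changeLevel h1 χ := by rw [hΨ, mul_inv_cancel_right]
    rw [h4, e1, conductor_inv, e2] at h
    have h5 : m ∣ Ψ.conductor * D := h.trans (Nat.lcm_dvd_mul _ _)
    exact hco.dvd_of_dvd_mul_right h5
  have h4 : D ∣ Ψ.conductor := by
    have h := conductor_mul_dvd_lcm_conductor (changeLevel h1 χ)⁻¹ Ψ
    have h4 : (changeLevel h1 χ)⁻¹ * Ψ = changeLevel h2 ψ := by rw [hΨ, inv_mul_cancel_left]
    rw [h4, e2, conductor_inv, e1] at h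
    have h5 : D ∣ m * Ψ.conductor := h.trans (Nat.lcm_dvd_mul _ _)
    exact hco.symm.dvd_of_dvd_mul_left h5
  have h5 : M ∣ Ψ.conductor := by
    have h6 := hco.mul_dvd_of_dvd_of_dvd h3 h4
    rwa [← hM] at h6
  exact Nat.dvd_antisymm (conductor_dvd_level Ψ) h5

/-- the primitive character `h c` -/
noncomputable def chh {m : ℕ} (h : (ZMod m)ˣ →* ℂˣ) (c : Fam) :
    DirichletCharacter ℂ (m * dd (sp c)) :=
  MulChar.ofUnitHom (XH h c (sp c) (m * dd (sp c)))

lemma chh_unit {m : ℕ} (h : (ZMod m)ˣ →* ℂˣ) (c : Fam) (u : (ZMod (m * dd (sp c)))ˣ) :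
    chh h c (u : ZMod (m * dd (sp c))) = (XH h c (sp c) (m * dd (sp c)) u : ℂ) := by
  unfold chh
  rw [MulChar.ofUnitHom_coe]

lemma coprime_dd {m : ℕ} {T : Finset ℕ} (hT : ∀ q ∈ T, q.Coprime m) : m.Coprime (dd T) := by
  unfold dd
  exact Nat.Coprime.prod_right fun q hq => (hT q hq).symm

lemma chh_prim {m : ℕ} [NeZero m] {h : (ZMod m)ˣ →* ℂˣ}
    (hh : DirichletCharacter.IsPrimitive (MulChar.ofUnitHom h : DirichletCharacter ℂ m)) {c : Fam}
    (hfin : {q | c q ≠ 1}.Finite) (hp : ∀ q ∈ sp c, q.Prime ∧ q.Coprime m) :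
    (chh h c).IsPrimitive := by
  have hD : NeZero (dd (sp c)) := ⟨dd_ne_zero fun q hq => (hp q hq).1⟩
  have hM : NeZero (m * dd (sp c)) := ⟨mul_ne_zero (NeZero.ne m) hD.ne⟩
  have h1 : m ∣ m * dd (sp c) := dvd_mul_right _ _
  have h2 : dd (sp c) ∣ m * dd (sp c) := dvd_mul_left _ _
  have h3 := prim_mul (coprime_dd fun q hq => (hp q hq).2) rfl h1 h2 _ (chi c) hh
    (chi_primitive c hfin fun q hq => (hp q hq).1)
  have h4 : chh h c = DirichletCharacter.changeLevel h1 (MulChar.ofUnitHom h) *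
      DirichletCharacter.changeLevel h2 (chi c) := by
    apply MulChar.ext
    intro u
    rw [chh_unit, MulChar.mul_apply]
    unfold XH
    rw [MonoidHom.mul_apply, Units.val_mul]
    congr 1
    · rw [DirichletCharacter.changeLevel_eq_cast_of_dvd]
      have h3 : ((u : ZMod (m * dd (sp c))).cast : ZMod m) = (ZMod.unitsMap h1 u : ZMod m) :=
        (ZMod.unitsMap_val h1 u).symm
      rw [h3, MulChar.ofUnitHom_coe]
      unfold lh
      rw [dif_pos h1, MonoidHom.comp_apply]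
    · rw [DirichletCharacter.changeLevel_eq_cast_of_dvd]
      have h3 : ((u : ZMod (m * dd (sp c))).cast : ZMod (dd (sp c))) =
          (ZMod.unitsMap h2 u : ZMod (dd (sp c))) := (ZMod.unitsMap_val h2 u).symm
      rw [h3, chi_unit, ← MonoidHom.comp_apply, XX_comp c h2 (fun q hq => dvd_dd hq)]
  rw [h4]
  exact h3

lemma chh_nat {m : ℕ} (h : (ZMod m)ˣ →* ℂˣ) (c : Fam) (k : ℕ) :
    chh h c (k : ZMod (m * dd (sp c))) =
      (MulChar.ofUnitHom h : DirichletCharacter ℂ m) (k : ZMod m) * cvl c k := by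
  by_cases hk : k.Coprime (m * dd (sp c))
  · have h1 := chh_unit h c (ZMod.unitOfCoprime k hk)
    rw [ZMod.coe_unitOfCoprime] at h1
    rw [h1]
    unfold XH
    rw [MonoidHom.mul_apply, Units.val_mul,
      XX_nat c (fun q hq => (dvd_dd hq).trans (dvd_mul_left _ _)) hk]
    have hkm : k.Coprime m := hk.coprime_dvd_right (dvd_mul_right _ _)
    have h2 : (MulChar.ofUnitHom h : DirichletCharacter ℂ m) (k : ZMod m) = (hv h k : ℂˣ) := by
      have h3 : (k : ZMod m) = ((ZMod.unitOfCoprime k hkm : (ZMod m)ˣ) : ZMod m) :=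
        (ZMod.coe_unitOfCoprime k hkm).symm
      rw [h3, MulChar.ofUnitHom_coe]
      unfold hv
      rw [dif_pos hkm]
    rw [h2, lh_nat h (dvd_mul_right _ _) hk]
    rfl
  · have h1 : ¬ IsUnit ((k : ZMod (m * dd (sp c)))) := fun h =>
      hk ((ZMod.isUnit_iff_coprime _ _).1 h)
    rw [MulChar.map_nonunit _ h1]
    by_cases hkm : k.Coprime m
    · have h2 : ¬ k.Coprime (dd (sp c)) := fun h3 => hk (Nat.Coprime.mul_right hkm h3)
      have h3 : cvl c k = 0 := by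
        rw [← chi_nat]
        exact MulChar.map_nonunit _ fun h => h2 ((ZMod.isUnit_iff_coprime _ _).1 h)
      rw [h3, mul_zero]
    · rw [MulChar.map_nonunit _ fun h => hkm ((ZMod.isUnit_iff_coprime _ _).1 h), zero_mul]

lemma lh_inv {m : ℕ} (h : (ZMod m)ˣ →* ℂˣ) (M : ℕ) : lh h⁻¹ M = (lh h M)⁻¹ := by
  unfold lh
  split_ifs with h1
  · ext x; simp
  · ext x; simp

lemma XH_inv {m : ℕ} (h : (ZMod m)ˣ →* ℂˣ) (c : Fam) (T : Finset ℕ) (M : ℕ) :
    XH h⁻¹ c⁻¹ T M = (XH h c T M)⁻¹ := by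
  unfold XH
  rw [lh_inv, XX_inv]
  ext u
  simp [mul_comm]

/-- the sum for the inverse character -/
lemma bth_inv (f : ℚ → ℂ) {m : ℕ} (h : (ZMod m)ˣ →* ℂˣ) {c : Fam} (hfin : {q | c q ≠ 1}.Finite)
    [hM : NeZero (m * dd (sp c))] :
    bth f h⁻¹ c⁻¹ = ∑ u : (ZMod (m * dd (sp c)))ˣ, (chh h c)⁻¹ (u : ZMod (m * dd (sp c))) *
      f (((u : ZMod (m * dd (sp c))).val : ℚ) / (m * dd (sp c) : ℕ)) := by
  rw [bth_eq f h⁻¹ c⁻¹ (m * dd (sp c)) (by rw [sp_inv hfin]), sp_inv hfin]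
  unfold psh ps FF
  refine Finset.sum_congr rfl fun u _ => ?_
  congr 1
  rw [MulChar.inv_apply_eq_inv', chh_unit, XH_inv, MonoidHom.inv_apply, Units.val_inv_eq_inv_val]

variable {N : ℕ} [NeZero N] {f : CuspForm (Gamma0 N : Subgroup (GL (Fin 2) ℝ)) 2}

/-- the complete twisted `L`-function -/
theorem twH {w : ℝ} (hnf : W388.IsNewf N 2 f w) (hfr : Fr f (w : ℂ)) (hc : Cf N (co f))
    {m : ℕ} [NeZero m] {h : (ZMod m)ˣ →* ℂˣ}
    (hh : DirichletCharacter.IsPrimitive (MulChar.ofUnitHom h : DirichletCharacter ℂ m)) (hmN : m.Coprime N)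
    {c : Fam} (hfin : {q | c q ≠ 1}.Finite)
    (hp : ∀ q ∈ sp c, q.Prime ∧ ¬ q ∣ N ∧ q.Coprime m) :
    ∃ G : ℂ → ℂ, Differentiable ℂ G ∧ (∀ s : ℂ, 3 / 2 < s.re →
      HasProd (fun p : Nat.Primes => ez N (co f)
        ((MulChar.ofUnitHom h : DirichletCharacter ℂ m) ((p : ℕ) : ZMod m) * cvl c p) s p) (G s)) ∧
      (bth (bv f) h⁻¹ c⁻¹ ≠ 0 ↔ G 1 ≠ 0) := by
  classical
  have hD : NeZero (dd (sp c)) := ⟨dd_ne_zero fun q hq => (hp q hq).1⟩
  have hne : NeZero (m * dd (sp c)) := ⟨mul_ne_zero (NeZero.ne m) hD.ne⟩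
  have hco : Nat.Coprime (m * dd (sp c)) N := by
    refine Nat.Coprime.mul_left hmN ?_
    unfold dd
    rw [Nat.coprime_prod_left_iff]
    intro q hq
    exact (Nat.Prime.coprime_iff_not_dvd (hp q hq).1).2 (hp q hq).2.1
  have hpr : (chh h c).IsPrimitive := chh_prim hh hfin fun q hq => ⟨(hp q hq).1, (hp q hq).2.2⟩
  obtain ⟨L, hL1, hL2, hL3⟩ := exists_L hnf hfr hc (m * dd (sp c)) (chh h c) hpr hco
  refine ⟨L, hL1, fun s hs => ?_, ?_⟩
  · have h2 := hc.euler (chh h c) hs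
    rw [← hL2 s hs] at h2
    have h3 : (fun p : ℕ => if p.Prime then (lf N (co f) (chh h c) s p)⁻¹ else 1) =
        Set.mulIndicator {p : ℕ | p.Prime} (fun p => (lf N (co f) (chh h c) s p)⁻¹) := by
      funext p
      by_cases hp : p.Prime
      · rw [if_pos hp, Set.mulIndicator_of_mem (show p ∈ {p : ℕ | p.Prime} from hp)]
      · rw [if_neg hp, Set.mulIndicator_of_notMem (show p ∉ {p : ℕ | p.Prime} from hp)]
    rw [h3] at h2
    have h4 := hasProd_subtype_iff_mulIndicator.2 h2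
    refine (congrArg (fun g => HasProd g (L s)) (funext fun p : Nat.Primes => ?_)).mp h4
    show (lf N (co f) (chh h c) s (p : ℕ))⁻¹ = _
    unfold lf ez
    rw [chh_nat]
    congr 2
    split_ifs with h
    · simp
    · have hp0 : ((p : ℕ) : ℂ) ≠ 0 := by exact_mod_cast p.2.ne_zero
      have e : ((p : ℕ) : ℂ) ^ (1 - 2 * s) = (p : ℕ) * (((p : ℕ) : ℂ) ^ (-s)) ^ 2 := by
        rw [show (1 - 2 * s : ℂ) = 1 + ((-s) + (-s)) by ring, Complex.cpow_add _ _ hp0,
          Complex.cpow_add _ _ hp0, Complex.cpow_one]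
        ring
      rw [e]
  · have hinv : ((chh h c)⁻¹).IsPrimitive := Pool.Agent.W440.TW.inv_primitive _ hpr
    have hg : gaussSum (chh h c)⁻¹ (stdAddChar (N := m * dd (sp c))) ≠ 0 :=
      Pool.Agent.W440.TW.gauss_ne_zero _ hinv
    rw [bth_inv (bv f) h hfin, ← hL3]
    exact ⟨fun h1 h2 => h1 (by rw [h2, mul_zero]), fun h1 => mul_ne_zero hg h1⟩

end Pool.Agent.K4H55.AB
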